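import Mathlib

/-!
# Symmetry of periodic solutions of `F'' = G(F)`
-/

namespace Pool.Agent.H98.CA

open Set Real Filter Topology
open scoped NNReal

/-- `G` is Lipschitz on compact subintervals of `(0,∞)`. -/
lemma lipschitz_on_Icc {G G' : ℝ → ℝ} (hG : ∀ x > 0, HasDerivAt G (G' x) x)
    (hG' : ContinuousOn G' (Ioi 0)) {m M : ℝ} (hm : 0 < m) :
    ∃ K : ℝ≥0, LipschitzOnWith K G (Icc m M) := by
  have hsub : Icc m M ⊆ Ioi 0 := fun x hx => hm.trans_le hx.1
  obtain ⟨C, hC⟩ := isCompact_Icc.exists_bound_of_continuousOn (hG'.mono hsub)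
  refine ⟨⟨max C 0, le_max_right _ _⟩, ?_⟩
  refine (convex_Icc m M).lipschitzOnWith_of_nnnorm_deriv_le
    (fun x hx => (hG x (hsub hx)).differentiableAt) (fun x hx => ?_)
  rw [(hG x (hsub hx)).deriv]
  exact_mod_cast (hC x hx).trans (le_max_left C 0)

/-- Uniqueness for the second order autonomous equation `F'' = G(F)`. -/
lemma second_order_unique {G : ℝ → ℝ} {m M : ℝ} {K : ℝ≥0} (hK : LipschitzOnWith K G (Icc m M))
    {F F1 H H1 : ℝ → ℝ} (hF : ∀ t, HasDerivAt F (F1 t) t) (hF1 : ∀ t, HasDerivAt F1 (G (F t)) t)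
    (hFm : ∀ t, F t ∈ Icc m M)
    (hH : ∀ t, HasDerivAt H (H1 t) t) (hH1 : ∀ t, HasDerivAt H1 (G (H t)) t)
    (hHm : ∀ t, H t ∈ Icc m M) {t₀ : ℝ} (h0 : F t₀ = H t₀) (h1 : F1 t₀ = H1 t₀) :
    ∀ t, F t = H t := by
  set v : ℝ → ℝ × ℝ → ℝ × ℝ := fun _ x => (x.2, G x.1) with hv
  set s : ℝ → Set (ℝ × ℝ) := fun _ => {x | x.1 ∈ Icc m M} with hs
  have hl : ∀ t, LipschitzOnWith (max 1 (K * 1)) (v t) (s t) := by
    intro t
    refine LipschitzOnWith.prodMk LipschitzWith.prod_snd.lipschitzOnWith ?_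
    exact LipschitzOnWith.comp hK LipschitzWith.prod_fst.lipschitzOnWith (fun x hx => hx)
  have key := ODE_solution_unique_univ (v := v) (s := s) (f := fun t => (F t, F1 t))
    (g := fun t => (H t, H1 t)) (t₀ := t₀) hl
    (fun t => ⟨(hF t).prodMk (hF1 t), hFm t⟩) (fun t => ⟨(hH t).prodMk (hH1 t), hHm t⟩)
    (by simp [h0, h1])
  intro t
  have := congrFun key t
  simpa using congrArg Prod.fst this

/-- Structure of a nonconstant positive periodic solution of `F'' = G(F)`. -/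
lemma half_period {G G' : ℝ → ℝ} (hG : ∀ x > 0, HasDerivAt G (G' x) x)
    (hG' : ContinuousOn G' (Ioi 0))
    {F F1 : ℝ → ℝ} (hF : ∀ t, HasDerivAt F (F1 t) t) (hF1 : ∀ t, HasDerivAt F1 (G (F t)) t)
    (hpos : ∀ t, 0 < F t) {T : ℝ} (hT : 0 < T) (hper : ∀ t, F (t + T) = F t)
    (hnc : ∃ t, F1 t ≠ 0) :
    ∃ (τ h : ℝ) (k : ℕ), 0 < h ∧ 0 < k ∧ T = 2 * h * k ∧ F1 τ = 0 ∧ F1 (τ + h) = 0 ∧
      (∀ t ∈ Ioo τ (τ + h), F1 t < 0) ∧ (∀ t, F (2 * τ - t) = F t) ∧
      (∀ t, F (2 * (τ + h) - t) = F t) := by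
  have hFc : Continuous F := continuous_iff_continuousAt.2 fun t => (hF t).continuousAt
  have hF1c : Continuous F1 := continuous_iff_continuousAt.2 fun t => (hF1 t).continuousAt
  have hP : Function.Periodic F T := hper
  have hcomp : IsCompact (range F) := hP.compact_of_continuous hT.ne' hFc
  obtain ⟨M, ⟨τ, rfl⟩, hM⟩ := hcomp.exists_isGreatest (range_nonempty F)
  obtain ⟨m, ⟨σ, rfl⟩, hm⟩ := hcomp.exists_isLeast (range_nonempty F)
  have hmax : ∀ t, F t ≤ F τ := fun t => hM ⟨t, rfl⟩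
  have hmin : ∀ t, F σ ≤ F t := fun t => hm ⟨t, rfl⟩
  obtain ⟨K, hK⟩ := lipschitz_on_Icc hG hG' (m := F σ) (M := F τ) (hpos σ)
  have hFmem : ∀ t, F t ∈ Icc (F σ) (F τ) := fun t => ⟨hmin t, hmax t⟩
  -- reflection
  have hrefl : ∀ s, F1 s = 0 → ∀ t, F (2 * s - t) = F t := by
    intro s hs t
    have h1 : ∀ t, HasDerivAt (fun t => F (2 * s - t)) (-F1 (2 * s - t)) t := fun t =>
      (hF (2 * s - t)).comp_const_sub (2 * s) t
    have h2 : ∀ t, HasDerivAt (fun t => -F1 (2 * s - t)) (G (F (2 * s - t))) t := fun t => by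
      have := ((hF1 (2 * s - t)).comp_const_sub (2 * s) t).neg
      rwa [neg_neg] at this
    refine second_order_unique hK (F := fun t => F (2 * s - t)) (F1 := fun t => -F1 (2 * s - t))
      h1 h2 (fun t => hFmem _) hF hF1 hFmem (t₀ := s) ?_ ?_ t
    · ring_nf
    · have : 2 * s - s = s := by ring
      simp only [this, hs, neg_zero]
  -- critical point at the maximum
  have hτ : F1 τ = 0 := by
    have hloc : IsLocalMax F τ := Eventually.of_forall hmax
    exact hloc.hasDerivAt_eq_zero (hF τ)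
  -- nondegeneracy
  have hGτ : G (F τ) ≠ 0 := by
    intro h0
    obtain ⟨t, ht⟩ := hnc
    have hconst : ∀ t, F t = F τ := by
      refine second_order_unique hK (H := fun _ => F τ) (H1 := fun _ => 0) hF hF1 hFmem
        (fun t => hasDerivAt_const _ _) (fun t => by simpa [h0] using hasDerivAt_const t (0 : ℝ))
        (fun t => hFmem τ) (t₀ := τ) rfl hτ
    apply ht
    have : F = fun _ => F τ := funext hconst
    have h2 := hF t
    rw [this] at h2
    exact h2.unique (hasDerivAt_const _ _)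
  have hne : ∀ᶠ z in 𝓝[≠] τ, F1 z ≠ 0 := (hF1 τ).eventually_ne hGτ
  obtain ⟨ε, hε, hεne⟩ : ∃ ε > 0, ∀ t ∈ Ioo τ (τ + ε), F1 t ≠ 0 := by
    have h3 : ∀ᶠ z in 𝓝[>] τ, F1 z ≠ 0 :=
      hne.filter_mono (nhdsWithin_mono _ (fun x hx => ne_of_gt hx))
    obtain ⟨u, hu, hu2⟩ := (mem_nhdsGT_iff_exists_Ioo_subset.1 h3)
    exact ⟨u - τ, sub_pos.2 hu, fun t ht => hu2 ⟨ht.1, by linarith [ht.2]⟩⟩
  have hF1T : F1 (τ + T) = 0 := by
    have hloc : IsLocalMax F (τ + T) := Eventually.of_forall fun t => by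
      rw [hper]; exact hmax t
    exact hloc.hasDerivAt_eq_zero (hF _)
  have hεT : ε ≤ T := by
    by_contra hcon
    rw [not_le] at hcon
    exact hεne (τ + T) ⟨by linarith, by linarith⟩ hF1T
  set S : Set ℝ := Icc ε T ∩ {s | F1 (τ + s) = 0} with hS
  have hScomp : IsCompact S := by
    apply isCompact_Icc.inter_right
    exact isClosed_eq (hF1c.comp (continuous_const.add continuous_id)) continuous_const
  obtain ⟨h, hhS, hhmin⟩ := hScomp.exists_isLeast ⟨T, ⟨hεT, le_rfl⟩, hF1T⟩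
  have hh0 : 0 < h := hε.trans_le hhS.1.1
  have hh1 : F1 (τ + h) = 0 := hhS.2
  have hzero : ∀ t ∈ Ioo τ (τ + h), F1 t ≠ 0 := by
    intro t ht h0
    rcases lt_or_ge t (τ + ε) with h1 | h1
    · exact hεne t ⟨ht.1, h1⟩ h0
    · have : t - τ ∈ S := by
        refine ⟨⟨by linarith, ?_⟩, ?_⟩
        · have := hhS.1.2; linarith [ht.2]
        · simpa using h0
      have := hhmin this
      linarith [ht.2]
  have hneg : ∀ t ∈ Ioo τ (τ + h), F1 t < 0 := by
    intro t ht
    by_contra hcon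
    have htpos : 0 < F1 t := lt_of_le_of_ne (not_lt.1 hcon) (hzero t ht).symm
    have hall : ∀ s ∈ Ioo τ t, 0 < F1 s := by
      intro s hs
      by_contra hc2
      rw [not_lt] at hc2
      obtain ⟨x, hx, hx0⟩ := intermediate_value_Icc hs.2.le hF1c.continuousOn
        (show (0 : ℝ) ∈ Icc (F1 s) (F1 t) from ⟨hc2, htpos.le⟩)
      exact hzero x ⟨hs.1.trans_le hx.1, hx.2.trans_lt ht.2⟩ hx0
    have hmono : StrictMonoOn F (Icc τ t) := by
      refine strictMonoOn_of_deriv_pos (convex_Icc _ _) hFc.continuousOn ?_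
      intro s hs
      rw [interior_Icc] at hs
      rw [(hF s).deriv]; exact hall s hs
    have := hmono (left_mem_Icc.2 ht.1.le) (right_mem_Icc.2 ht.1.le) ht.1
    linarith [hmax t]
  have hanti : StrictAntiOn F (Icc τ (τ + h)) := by
    refine strictAntiOn_of_deriv_neg (convex_Icc _ _) hFc.continuousOn ?_
    intro s hs
    rw [interior_Icc] at hs
    rw [(hF s).deriv]; exact hneg s hs
  have hr1 := hrefl τ hτ
  have hr2 := hrefl (τ + h) hh1
  have hper2 : Function.Periodic F (2 * h) := by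
    intro t
    rw [← hr2 (t + 2 * h), ← hr1 t]
    congr 1; ring
  have hlt : ∀ ρ, 0 < ρ → ρ < 2 * h → F (τ + ρ) < F τ := by
    intro ρ h1 h2
    rcases le_or_gt ρ h with h3 | h3
    · exact hanti ⟨le_rfl, by linarith⟩ ⟨by linarith, by linarith⟩ (by linarith)
    · have : F (τ + ρ) = F (τ + (2 * h - ρ)) := by
        rw [← hr2 (τ + ρ)]; congr 1; ring
      rw [this]
      exact hanti ⟨le_rfl, by linarith⟩ ⟨by linarith, by linarith⟩ (by linarith)
  set k : ℕ := ⌊T / (2 * h)⌋₊ with hk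
  have h2h : 0 < 2 * h := by linarith
  have hfl1 : (k : ℝ) ≤ T / (2 * h) := Nat.floor_le (div_nonneg hT.le h2h.le)
  have hfl2 : T / (2 * h) < k + 1 := Nat.lt_floor_add_one _
  rw [le_div_iff₀ h2h] at hfl1
  rw [div_lt_iff₀ h2h] at hfl2
  have hTk : T = 2 * h * k := by
    by_contra hne'
    have hρ1 : 0 < T - k * (2 * h) := lt_of_le_of_ne (by linarith) (by
      intro h0; apply hne'; linarith)
    have h5 := hlt (T - k * (2 * h)) hρ1 (by nlinarith)
    have h6 : F (τ + (T - k * (2 * h))) = F (τ + T) := by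
      have := (hper2.nat_mul k) (τ + (T - k * (2 * h)))
      rw [← this]; congr 1; ring
    rw [h6, hper] at h5
    exact lt_irrefl _ h5
  refine ⟨τ, h, k, hh0, ?_, hTk, hτ, hh1, hneg, hr1, hr2⟩
  rcases Nat.eq_zero_or_pos k with h0 | h0
  · rw [h0] at hTk; simp at hTk; linarith
  · exact h0

/-- The increment over a full period of a primitive of `R(F)` is `2k` times its increment over a
half-oscillation. -/
lemma angle_increment {F ψ : ℝ → ℝ} {R : ℝ → ℝ} (hψ : ∀ t, HasDerivAt ψ (R (F t)) t) {τ h T : ℝ}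
    {k : ℕ} (hT : T = 2 * h * k) (h1 : ∀ t, F (2 * τ - t) = F t)
    (h2 : ∀ t, F (2 * (τ + h) - t) = F t) :
    ψ T - ψ 0 = 2 * k * (ψ (τ + h) - ψ τ) := by
  have hper2 : ∀ t, F (t + 2 * h) = F t := by
    intro t
    rw [← h2 (t + 2 * h), ← h1 t]
    congr 1; ring
  -- the reflected sum is constant
  have hc1 : ∀ s t, (∀ t, F (2 * s - t) = F t) → ψ (2 * s - t) + ψ t = 2 * ψ s := by
    intro s t hs
    have hd : ∀ t, HasDerivAt (fun t => ψ (2 * s - t) + ψ t) 0 t := by
      intro t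
      have := ((hψ (2 * s - t)).comp_const_sub (2 * s) t).add (hψ t)
      refine this.congr_deriv ?_
      rw [hs]; ring
    have := is_const_of_deriv_eq_zero (f := fun t => ψ (2 * s - t) + ψ t)
      (fun t => (hd t).differentiableAt) (fun t => (hd t).deriv) t s
    rw [this]
    have : 2 * s - s = s := by ring
    rw [this]; ring
  have hc2 : ∀ t, ψ (t + 2 * h) - ψ t = ψ (τ + 2 * h) - ψ τ := by
    intro t
    have hd : ∀ t, HasDerivAt (fun t => ψ (t + 2 * h) - ψ t) 0 t := by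
      intro t
      have := ((hψ (t + 2 * h)).comp_add_const t (2 * h)).sub (hψ t)
      refine this.congr_deriv ?_
      rw [hper2]; ring
    exact is_const_of_deriv_eq_zero (f := fun t => ψ (t + 2 * h) - ψ t)
      (fun t => (hd t).differentiableAt) (fun t => (hd t).deriv) t τ
  have hstep : ψ (τ + 2 * h) - ψ τ = 2 * (ψ (τ + h) - ψ τ) := by
    have := hc1 (τ + h) τ h2
    have e : 2 * (τ + h) - τ = τ + 2 * h := by ring
    rw [e] at this
    linarith
  have hmul : ∀ n : ℕ, ψ (2 * h * n) - ψ 0 = n * (ψ (τ + 2 * h) - ψ τ) := by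
    intro n
    induction n with
    | zero => simp
    | succ n ih =>
      have := hc2 (2 * h * n)
      have e : 2 * h * ((n + 1 : ℕ) : ℝ) = 2 * h * n + 2 * h := by push_cast; ring
      rw [e]
      push_cast
      linarith
  rw [hT, hmul, hstep]; ring

end Pool.Agent.H98.CA
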