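import Pool.Agent.H98.CASturm
import Pool.Agent.H98.CAPeriod

/-!
# Bounds for the angle of one half-oscillation
-/

namespace Pool.Agent.H98.CA

open Set Real Filter Topology

/-- Derivative of a real power, in a convenient form. -/
lemma hasDerivAt_rpow' {F : ℝ → ℝ} {F' t : ℝ} (s : ℝ) (hF : HasDerivAt F F' t) (hpos : 0 < F t) :
    HasDerivAt (fun t => F t ^ s) (s * F t ^ s / F t * F') t := by
  have := hF.rpow_const (p := s) (Or.inl hpos.ne')
  refine this.congr_deriv ?_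
  rw [rpow_sub_one hpos.ne']; ring

/-- The data of a solution of the reduced equation. -/
structure Osc (c c1 c2 : ℝ) (F F1 : ℝ → ℝ) : Prop where
  c1_pos : 0 < c1
  c_ne : c ≠ 1
  pos : ∀ t, 0 < F t
  dF : ∀ t, HasDerivAt F (F1 t) t
  dF1 : ∀ t, HasDerivAt F1 (2 * (c2 - c / (c - 1) * F t ^ (c - 1))) t
  energy : ∀ t, F1 t ^ 2 = 4 * (c2 * F t - F t ^ c / (c - 1) - c1)

/-- The coefficient in the Sturm equation. -/
noncomputable def kap (c c1 c2 l : ℝ) (F : ℝ → ℝ) (t : ℝ) : ℝ :=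
  (4 * l ^ 2 * c1 + (1 - l) * (4 * l - 2) * c2 * F t
    + (c - l) * (2 * c - 4 * l) * F t ^ c / (c - 1)) / c1

section

variable {c c1 c2 : ℝ} {F F1 : ℝ → ℝ}

lemma Osc.sturm_eq (H : Osc c c1 c2 F F1) (l : ℝ) (t : ℝ) :
    HasDerivAt (fun t => -(F t ^ (-l) * F1 t))
      ((√c1 / F t) * (F t ^ (-l) / √c1 * ((4 * l - 2) * c2 * F t
        + (2 * c - 4 * l) * F t ^ c / (c - 1) - 4 * l * c1))) t ∧
    HasDerivAt (fun t => F t ^ (-l) / √c1 * ((4 * l - 2) * c2 * F t
        + (2 * c - 4 * l) * F t ^ c / (c - 1) - 4 * l * c1))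
      (-((√c1 / F t) * kap c c1 c2 l F t * (-(F t ^ (-l) * F1 t)))) t := by
  have hc1 := H.c1_pos
  have hω : 0 < √c1 := sqrt_pos.2 hc1
  have hω2 : √c1 ^ 2 = c1 := sq_sqrt hc1.le
  have hF := H.pos t
  have hc : c - 1 ≠ 0 := sub_ne_zero.2 H.c_ne
  have dR := hasDerivAt_rpow' (-l) (H.dF t) hF
  have dS := hasDerivAt_rpow' c (H.dF t) hF
  have hE := H.energy t
  have hS : F t ^ (c - 1) = F t ^ c / F t := rpow_sub_one hF.ne' c
  constructor
  · have := (dR.mul (H.dF1 t)).neg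
    refine this.congr_deriv ?_
    rw [hS]
    have key : F1 t * F1 t = 4 * (c2 * F t - F t ^ c / (c - 1) - c1) := by rw [← hE]; ring
    have : -(-l * F t ^ (-l) / F t * F1 t * F1 t +
        F t ^ (-l) * (2 * (c2 - c / (c - 1) * (F t ^ c / F t)))) =
        l * F t ^ (-l) / F t * (F1 t * F1 t) -
          F t ^ (-l) * (2 * (c2 - c / (c - 1) * (F t ^ c / F t))) := by ring
    rw [this, key]
    field_simp
    ring
  · have := (dR.div_const (√c1)).mul
      ((((H.dF t).const_mul ((4 * l - 2) * c2)).add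
        ((dS.const_mul (2 * c - 4 * l)).div_const (c - 1))).sub_const (4 * l * c1))
    refine this.congr_deriv ?_
    unfold kap
    have h3 : √c1 / F t = c1 / (√c1 * F t) := by
      rw [div_eq_div_iff hF.ne' (by positivity)]
      rw [← hω2]; rw [sqrt_sq hω.le]; ring
    rw [h3]
    simp only [Pi.add_apply]
    field_simp
    ring

/-- Sturm comparison applied to one half-oscillation. -/
lemma Osc.delta_lt (H : Osc c c1 c2 F F1) {ψ : ℝ → ℝ} (hψ : ∀ t, HasDerivAt ψ (√c1 / F t) t)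
    {τ h : ℝ} (hh : 0 < h) (h0 : F1 τ = 0) (h1 : F1 (τ + h) = 0)
    (hneg : ∀ t ∈ Ioo τ (τ + h), F1 t < 0) (l : ℝ) {μ : ℝ} (hμ : 0 < μ)
    (hk : ∀ t ∈ Ioo τ (τ + h), μ ^ 2 < kap c c1 c2 l F t) : ψ (τ + h) - ψ τ < π / μ := by
  have hω : 0 < √c1 := sqrt_pos.2 H.c1_pos
  refine sturm_lt (ρ := fun t => √c1 / F t) (κ := kap c c1 c2 l F)
    hμ (by linarith) (fun t => div_pos hω (H.pos t)) hψ
    (fun t => (H.sturm_eq l t).1) (fun t => (H.sturm_eq l t).2) ?_ ?_ hk ?_
  · intro t ht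
    have := mul_neg_of_pos_of_neg (rpow_pos_of_pos (H.pos t) (-l)) (hneg t ht)
    simpa using this
  · simp [h0]
  · simp [h1]

lemma Osc.delta_gt (H : Osc c c1 c2 F F1) {ψ : ℝ → ℝ} (hψ : ∀ t, HasDerivAt ψ (√c1 / F t) t)
    {τ h : ℝ} (hh : 0 < h) (h0 : F1 τ = 0) (h1 : F1 (τ + h) = 0)
    (hneg : ∀ t ∈ Ioo τ (τ + h), F1 t < 0) (l : ℝ) {μ : ℝ} (hμ : 0 < μ)
    (hk : ∀ t ∈ Ioo τ (τ + h), kap c c1 c2 l F t < μ ^ 2) : π / μ < ψ (τ + h) - ψ τ := by
  have hω : 0 < √c1 := sqrt_pos.2 H.c1_pos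
  refine sturm_gt (ρ := fun t => √c1 / F t) (κ := kap c c1 c2 l F)
    hμ (by linarith) (fun t => div_pos hω (H.pos t)) hψ
    (fun t => (H.sturm_eq l t).1) (fun t => (H.sturm_eq l t).2) ?_ ?_ hk ?_
  · intro t ht
    have := mul_neg_of_pos_of_neg (rpow_pos_of_pos (H.pos t) (-l)) (hneg t ht)
    simpa using this
  · simp [h0]
  · simp [h1]

/-- `l = 1`. -/
lemma kap_one (H : Osc c c1 c2 F F1) (t : ℝ) :
    kap c c1 c2 1 F t = 4 + 2 * (c - 2) * F t ^ c / c1 := by
  have hc1 := H.c1_pos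
  have hc : c - 1 ≠ 0 := sub_ne_zero.2 H.c_ne
  unfold kap
  field_simp
  ring

/-- `l = c`. -/
lemma kap_c (H : Osc c c1 c2 F F1) (t : ℝ) :
    kap c c1 c2 c F t = 4 * c ^ 2 - 2 * (2 * c - 1) * ((c - 1) * c2) * F t / c1 := by
  have hc1 := H.c1_pos
  unfold kap
  field_simp
  ring

/-- `l = (c+1)/3`. -/
lemma kap_third (H : Osc c c1 c2 F F1) (t : ℝ) :
    kap c c1 c2 ((c + 1) / 3) F t
      = 2 * c - 2 * (2 * c - 1) * (c - 2) / 9 * (F1 t ^ 2 / 4) / c1 := by
  have hc1 := H.c1_pos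
  have hc : c - 1 ≠ 0 := sub_ne_zero.2 H.c_ne
  rw [H.energy t]
  unfold kap
  field_simp
  ring

/-- The count of half-oscillations against the rotation number. -/
theorem Osc.count (H : Osc c c1 c2 F F1) (hc0 : 0 < c) (hc2 : c ≠ 2) (hch : c ≠ 1 / 2)
    {T : ℝ} (hT : 0 < T) (hper : ∀ t, F (t + T) = F t) (hnc : ∃ t, F1 t ≠ 0)
    {ψ : ℝ → ℝ} (hψ : ∀ t, HasDerivAt ψ (√c1 / F t) t) {n : ℕ} (hn : ψ T - ψ 0 = 2 * π * n) :
    1 ≤ n ∧ ∃ k : ℕ, (k : ℝ) ∈ Ioo (min (n * √(2 * c)) (n * min 2 (2 * c)))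
      (max (n * √(2 * c)) (n * min 2 (2 * c))) := by
  have hc1 := H.c1_pos
  have hω : 0 < √c1 := sqrt_pos.2 hc1
  have hcne : c - 1 ≠ 0 := sub_ne_zero.2 H.c_ne
  have hG : ∀ x > 0, HasDerivAt (fun x : ℝ => 2 * (c2 - c / (c - 1) * x ^ (c - 1)))
      (2 * (-(c / (c - 1) * ((c - 1) * x ^ (c - 1 - 1))))) x := by
    intro x hx
    exact (((hasDerivAt_rpow_const (p := c - 1) (Or.inl hx.ne')).const_mul (c / (c - 1))).const_sub
      c2).const_mul 2
  have hG' : ContinuousOn (fun x : ℝ => 2 * (-(c / (c - 1) * ((c - 1) * x ^ (c - 1 - 1)))))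
      (Ioi 0) := by
    refine continuousOn_const.mul ((continuousOn_const.mul (continuousOn_const.mul ?_)).neg)
    exact fun x hx => (continuousAt_rpow_const x _ (Or.inl (ne_of_gt hx))).continuousWithinAt
  obtain ⟨τ, h, k, hh, hk, hTk, h0, h1, hneg, hr1, hr2⟩ :=
    half_period hG hG' H.dF H.dF1 H.pos hT hper hnc
  have hinc := angle_increment (F := F) (R := fun x => √c1 / x) hψ hTk hr1 hr2
  set Δ := ψ (τ + h) - ψ τ with hΔ
  have hmono := strictMono_of_rate hψ (fun t => div_pos hω (H.pos t))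
  have hΔpos : 0 < Δ := sub_pos.2 (hmono (by linarith))
  have hkR : (0 : ℝ) < k := by exact_mod_cast hk
  have hkΔ : k * Δ = π * n := by
    have : 2 * k * Δ = 2 * π * n := by rw [← hinc, hn]
    linarith
  have hn1 : 1 ≤ n := by
    rcases Nat.eq_zero_or_pos n with h3 | h3
    · rw [h3] at hkΔ; simp at hkΔ
      rcases hkΔ with h4 | h4
      · omega
      · linarith
    · exact h3
  have hnR : (0 : ℝ) < n := by exact_mod_cast hn1
  have up : ∀ μ > 0, Δ < π / μ → n * μ < k := by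
    intro μ hμ hlt
    rw [lt_div_iff₀ hμ] at hlt
    have : k * (Δ * μ) < k * π := mul_lt_mul_of_pos_left hlt hkR
    have h5 : π * (n * μ) < π * k := by
      calc π * (n * μ) = (k * Δ) * μ := by rw [hkΔ]; ring
        _ < π * k := by linarith
    exact lt_of_mul_lt_mul_left h5 pi_pos.le
  have down : ∀ μ > 0, π / μ < Δ → (k : ℝ) < n * μ := by
    intro μ hμ hlt
    rw [div_lt_iff₀ hμ] at hlt
    have : k * π < k * (Δ * μ) := mul_lt_mul_of_pos_left hlt hkR
    have h5 : π * k < π * (n * μ) := by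
      calc π * k < (k * Δ) * μ := by linarith
        _ = π * (n * μ) := by rw [hkΔ]; ring
    exact lt_of_mul_lt_mul_left h5 pi_pos.le
  -- sign of c2
  have hsign : 0 < (c - 1) * c2 := by
    have hF1c : ContinuousOn F1 (Icc τ (τ + h)) := fun t _ =>
      (H.dF1 t).continuousAt.continuousWithinAt
    obtain ⟨s, -, hs⟩ := exists_hasDerivAt_eq_zero (by linarith : τ < τ + h) hF1c
      (by rw [h0, h1]) (fun t _ => H.dF1 t)
    have h3 : c2 = c / (c - 1) * F s ^ (c - 1) := by linarith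
    rw [h3]
    have h4 : (c - 1) * (c / (c - 1) * F s ^ (c - 1)) = c * F s ^ (c - 1) := by field_simp
    rw [h4]
    exact mul_pos hc0 (rpow_pos_of_pos (H.pos s) _)
  refine ⟨hn1, k, ?_⟩
  have h2c : 0 < 2 * c := by linarith
  have hs2c : 0 < √(2 * c) := sqrt_pos.2 h2c
  have hs2 : √(2 * c) ^ 2 = 2 * c := sq_sqrt h2c.le
  have hSpos : ∀ t, 0 < F t ^ c := fun t => rpow_pos_of_pos (H.pos t) c
  have hF1sq : ∀ t ∈ Ioo τ (τ + h), 0 < F1 t ^ 2 / 4 / c1 := by
    intro t ht
    have h7 := (hneg t ht).ne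
    have : 0 < F1 t ^ 2 := by positivity
    positivity
  rcases lt_trichotomy c 2 with hlt | heq | hgt
  · -- c < 2
    rcases lt_or_gt_of_ne hch with hl | hl
    · -- c < 1/2
      have hA : (n : ℝ) * (2 * c) < k := by
        refine up _ h2c (H.delta_lt hψ hh h0 h1 hneg c h2c ?_)
        intro t _
        rw [kap_c H]
        have : 0 < 2 * (1 - 2 * c) * ((c - 1) * c2) * F t / c1 := by
          have := H.pos t
          have : 0 < 1 - 2 * c := by linarith
          positivity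
        have e : 4 * c ^ 2 - 2 * (2 * c - 1) * ((c - 1) * c2) * F t / c1
          = (2 * c) ^ 2 + 2 * (1 - 2 * c) * ((c - 1) * c2) * F t / c1 := by ring
        rw [e]; linarith
      have hB : (k : ℝ) < n * √(2 * c) := by
        refine down _ hs2c (H.delta_gt hψ hh h0 h1 hneg ((c + 1) / 3) hs2c ?_)
        intro t ht
        rw [kap_third H, hs2]
        have : 0 < 2 * ((1 - 2 * c) * (2 - c)) / 9 * (F1 t ^ 2 / 4 / c1) := by
          have := hF1sq t ht
          have : 0 < (1 - 2 * c) * (2 - c) := mul_pos (by linarith) (by linarith)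
          positivity
        have e : 2 * c - 2 * (2 * c - 1) * (c - 2) / 9 * (F1 t ^ 2 / 4) / c1
          = 2 * c - 2 * ((1 - 2 * c) * (2 - c)) / 9 * (F1 t ^ 2 / 4 / c1) := by ring
        rw [e]; linarith
      have hm : min 2 (2 * c) = 2 * c := min_eq_right (by linarith)
      rw [hm]
      exact ⟨(min_le_right _ _).trans_lt hA, hB.trans_le (le_max_left _ _)⟩
    · -- 1/2 < c < 2
      have hA : (k : ℝ) < n * 2 := by
        refine down _ two_pos (H.delta_gt hψ hh h0 h1 hneg 1 two_pos ?_)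
        intro t _
        rw [kap_one H]
        have : 0 < 2 * (2 - c) * F t ^ c / c1 := by
          have := hSpos t
          have : 0 < 2 - c := by linarith
          positivity
        have e : 4 + 2 * (c - 2) * F t ^ c / c1 = 2 ^ 2 - 2 * (2 - c) * F t ^ c / c1 := by ring
        rw [e]; linarith
      have hA' : (k : ℝ) < n * (2 * c) := by
        refine down _ h2c (H.delta_gt hψ hh h0 h1 hneg c h2c ?_)
        intro t _
        rw [kap_c H]
        have : 0 < 2 * (2 * c - 1) * ((c - 1) * c2) * F t / c1 := by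
          have := H.pos t
          have : 0 < 2 * c - 1 := by linarith
          positivity
        have e : (2 * c) ^ 2 = 4 * c ^ 2 := by ring
        rw [e]; linarith
      have hB : n * √(2 * c) < (k : ℝ) := by
        refine up _ hs2c (H.delta_lt hψ hh h0 h1 hneg ((c + 1) / 3) hs2c ?_)
        intro t ht
        rw [kap_third H, hs2]
        have : 0 < 2 * ((2 * c - 1) * (2 - c)) / 9 * (F1 t ^ 2 / 4 / c1) := by
          have := hF1sq t ht
          have : 0 < (2 * c - 1) * (2 - c) := mul_pos (by linarith) (by linarith)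
          positivity
        have e : 2 * c - 2 * (2 * c - 1) * (c - 2) / 9 * (F1 t ^ 2 / 4) / c1
          = 2 * c + 2 * ((2 * c - 1) * (2 - c)) / 9 * (F1 t ^ 2 / 4 / c1) := by ring
        rw [e]; linarith
      have hA2 : (k : ℝ) < n * min 2 (2 * c) := by
        rcases min_choice 2 (2 * c) with hm | hm <;> rw [hm] <;> assumption
      exact ⟨(min_le_left _ _).trans_lt hB, hA2.trans_le (le_max_right _ _)⟩
  · exact absurd heq hc2
  · -- c > 2
    have hA : (n : ℝ) * 2 < k := by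
      refine up _ two_pos (H.delta_lt hψ hh h0 h1 hneg 1 two_pos ?_)
      intro t _
      rw [kap_one H]
      have : 0 < 2 * (c - 2) * F t ^ c / c1 := by
        have := hSpos t
        have : 0 < c - 2 := by linarith
        positivity
      linarith
    have hB : (k : ℝ) < n * √(2 * c) := by
      refine down _ hs2c (H.delta_gt hψ hh h0 h1 hneg ((c + 1) / 3) hs2c ?_)
      intro t ht
      rw [kap_third H, hs2]
      have : 0 < 2 * ((2 * c - 1) * (c - 2)) / 9 * (F1 t ^ 2 / 4 / c1) := by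
        have := hF1sq t ht
        have : 0 < (2 * c - 1) * (c - 2) := mul_pos (by linarith) (by linarith)
        positivity
      have e : 2 * c - 2 * (2 * c - 1) * (c - 2) / 9 * (F1 t ^ 2 / 4) / c1
        = 2 * c - 2 * ((2 * c - 1) * (c - 2)) / 9 * (F1 t ^ 2 / 4 / c1) := by ring
      rw [e]; linarith
    have hm : min 2 (2 * c) = 2 := min_eq_left (by linarith)
    rw [hm]
    exact ⟨(min_le_right _ _).trans_lt hA, hB.trans_le (le_max_left _ _)⟩

end

end Pool.Agent.H98.CA
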