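import Mathlib

/-!
# Closed centroaffine extremal curves: definitions

`[u,v]` is the determinant of two plane vectors.  A curve `γ : ℝ → ℝ × ℝ` of period `T > 0` in
centroaffine parameterization satisfies `[γ,γ'] = 1`; its centroaffine curvature is
`p = [γ',γ'']`.
-/

namespace Pool.Agent.H98.CA

open Set Real
open scoped ContDiff

/-- The determinant `[u,v]` of two vectors of the plane. -/
def det2 (u v : ℝ × ℝ) : ℝ := u.1 * v.2 - u.2 * v.1

/-- The centroaffine curvature `p = [γ', γ'']` of a curve with `[γ,γ'] = 1`. -/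
noncomputable def curv (γ : ℝ → ℝ × ℝ) (t : ℝ) : ℝ := det2 (deriv γ t) (deriv (deriv γ) t)

/-- The function `F = p^(a-1)`. -/
noncomputable def potF (a : ℝ) (γ : ℝ → ℝ × ℝ) (t : ℝ) : ℝ := curv γ t ^ (a - 1)

/-- `γ` is a smooth closed curve of period `T` in centroaffine parameterization, with positive
centroaffine curvature `p`, which is an extremal curve of `𝓑_a(γ) = ∫ p^a`, i.e.
`F = p^(a-1)` satisfies `½ F''' + 2 p F' + p' F = 0`. -/
structure IsExtremal (a T : ℝ) (γ : ℝ → ℝ × ℝ) : Prop where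
  period_pos : 0 < T
  smooth : ContDiff ℝ ∞ γ
  periodic : ∀ t, γ (t + T) = γ t
  centroaffine : ∀ t, det2 (γ t) (deriv γ t) = 1
  curv_pos : ∀ t, 0 < curv γ t
  euler : ∀ t, 1 / 2 * deriv (deriv (deriv (potF a γ))) t + 2 * curv γ t * deriv (potF a γ) t
    + deriv (curv γ) t * potF a γ t = 0

/-- `γ` (of period `T`) has rotation number `n`: along a continuous polar angle `θ` of `γ` the
increase over one period is `2 π n`. -/
def HasRotationNumber (T : ℝ) (γ : ℝ → ℝ × ℝ) (n : ℕ) : Prop :=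
  ∃ r θ : ℝ → ℝ, Continuous θ ∧ (∀ t, 0 < r t) ∧
    (∀ t, γ t = (r t * cos (θ t), r t * sin (θ t))) ∧ θ T - θ 0 = 2 * π * n

/-- A set of the plane which is a (nondegenerate) ellipse, with any centre. -/
def IsEllipse (S : Set (ℝ × ℝ)) : Prop :=
  ∃ z u v : ℝ × ℝ, det2 u v ≠ 0 ∧ S = range (fun s : ℝ => z + cos s • u + sin s • v)

/-- `n` is the rotation number of a nontrivial extremal curve of `𝓑_a`, i.e. of one whose image is
not an ellipse. -/
def IsNontrivialRotation (a : ℝ) (n : ℕ) : Prop :=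
  ∃ (T : ℝ) (γ : ℝ → ℝ × ℝ), IsExtremal a T γ ∧ ¬ IsEllipse (range γ) ∧ HasRotationNumber T γ n

/-- The least rotation number of a nontrivial extremal curve of `𝓑_a`, equal to `∞` if there is
none. -/
noncomputable def minRotation (a : ℝ) : ℕ∞ :=
  ⨅ (n : ℕ) (_ : IsNontrivialRotation a n), (n : ℕ∞)

/-- The number `c(a) = (2a-1)/(a-1) = 2 + 1/(a-1)`. -/
noncomputable def cpar (a : ℝ) : ℝ := (2 * a - 1) / (a - 1)

end Pool.Agent.H98.CA
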