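import Mathlib

/-!
# Polar angles
-/

namespace Pool.Agent.H98.CA

open Set Real Filter Topology

/-- Polar representation of a plane curve along a primitive of `[ζ,ζ'] / |ζ|²`. -/
lemma polar_rep {z1 z2 d1 d2 ψ : ℝ → ℝ} (h1 : ∀ t, HasDerivAt z1 (d1 t) t)
    (h2 : ∀ t, HasDerivAt z2 (d2 t) t) (hR : ∀ t, 0 < z1 t ^ 2 + z2 t ^ 2)
    (hψ : ∀ t, HasDerivAt ψ ((z1 t * d2 t - z2 t * d1 t) / (z1 t ^ 2 + z2 t ^ 2)) t)
    {t₀ : ℝ} (hi1 : z1 t₀ = √(z1 t₀ ^ 2 + z2 t₀ ^ 2) * cos (ψ t₀))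
    (hi2 : z2 t₀ = √(z1 t₀ ^ 2 + z2 t₀ ^ 2) * sin (ψ t₀)) (t : ℝ) :
    z1 t = √(z1 t ^ 2 + z2 t ^ 2) * cos (ψ t) ∧ z2 t = √(z1 t ^ 2 + z2 t ^ 2) * sin (ψ t) := by
  set R : ℝ → ℝ := fun t => z1 t ^ 2 + z2 t ^ 2 with hRdef
  set A : ℝ → ℝ := fun t => z1 t * cos (ψ t) + z2 t * sin (ψ t) with hA
  set B : ℝ → ℝ := fun t => z2 t * cos (ψ t) - z1 t * sin (ψ t) with hB
  have hRpos : ∀ t, 0 < R t := hR
  have dR : ∀ t, HasDerivAt R (2 * (z1 t * d1 t + z2 t * d2 t)) t := by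
    intro t
    have := ((h1 t).pow 2).add ((h2 t).pow 2)
    refine this.congr_deriv ?_
    simp; ring
  have dsR : ∀ t, HasDerivAt (fun t => √(R t)) ((z1 t * d1 t + z2 t * d2 t) / √(R t)) t := by
    intro t
    refine ((dR t).sqrt (hRpos t).ne').congr_deriv ?_
    have := sqrt_pos.2 (hRpos t)
    field_simp
  have dA : ∀ t, HasDerivAt A ((z1 t * d1 t + z2 t * d2 t) / R t * A t) t := by
    intro t
    have hR0 : R t ≠ 0 := (hRpos t).ne'
    have := ((h1 t).mul (hψ t).cos).add ((h2 t).mul (hψ t).sin)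
    refine this.congr_deriv ?_
    have e1 : d1 t * R t = (z1 t * d1 t + z2 t * d2 t) * z1 t
      - (z1 t * d2 t - z2 t * d1 t) * z2 t := by simp only [hRdef]; ring
    have e2 : d2 t * R t = (z1 t * d1 t + z2 t * d2 t) * z2 t
      + (z1 t * d2 t - z2 t * d1 t) * z1 t := by simp only [hRdef]; ring
    have e3 : z1 t ^ 2 + z2 t ^ 2 = R t := rfl
    rw [e3]
    field_simp
    have e4 : A t = z1 t * cos (ψ t) + z2 t * sin (ψ t) := rfl
    rw [e4]
    linear_combination (cos (ψ t)) * e1 + (sin (ψ t)) * e2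
  have dB : ∀ t, HasDerivAt B ((z1 t * d1 t + z2 t * d2 t) / R t * B t) t := by
    intro t
    have hR0 : R t ≠ 0 := (hRpos t).ne'
    have := ((h2 t).mul (hψ t).cos).sub ((h1 t).mul (hψ t).sin)
    refine this.congr_deriv ?_
    have e1 : d1 t * R t = (z1 t * d1 t + z2 t * d2 t) * z1 t
      - (z1 t * d2 t - z2 t * d1 t) * z2 t := by simp only [hRdef]; ring
    have e2 : d2 t * R t = (z1 t * d1 t + z2 t * d2 t) * z2 t
      + (z1 t * d2 t - z2 t * d1 t) * z1 t := by simp only [hRdef]; ring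
    have e3 : z1 t ^ 2 + z2 t ^ 2 = R t := rfl
    rw [e3]
    field_simp
    have e4 : B t = z2 t * cos (ψ t) - z1 t * sin (ψ t) := rfl
    rw [e4]
    linear_combination (cos (ψ t)) * e2 - (sin (ψ t)) * e1
  have hconst : ∀ (f : ℝ → ℝ), (∀ t, HasDerivAt f ((z1 t * d1 t + z2 t * d2 t) / R t * f t) t) →
      ∀ t, f t / √(R t) = f t₀ / √(R t₀) := by
    intro f hf t
    have hd : ∀ t, HasDerivAt (fun t => f t / √(R t)) 0 t := by
      intro t
      have hs := sqrt_pos.2 (hRpos t)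
      have hs2 : √(R t) ^ 2 = R t := sq_sqrt (hRpos t).le
      refine ((hf t).div (dsR t) hs.ne').congr_deriv ?_
      have hR0 : R t ≠ 0 := (hRpos t).ne'
      rw [div_eq_zero_iff]
      left
      field_simp
      rw [hs2]; ring
    exact is_const_of_deriv_eq_zero (fun t => (hd t).differentiableAt) (fun t => (hd t).deriv) t t₀
  have hs0 := sqrt_pos.2 (hRpos t₀)
  have hs := sqrt_pos.2 (hRpos t)
  have hss : √(R t) ^ 2 = R t := sq_sqrt (hRpos t).le
  have hi1' : z1 t₀ = √(R t₀) * cos (ψ t₀) := hi1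
  have hi2' : z2 t₀ = √(R t₀) * sin (ψ t₀) := hi2
  have hB0 : B t₀ = 0 := by simp only [hB]; rw [hi1', hi2']; ring
  have hA0 : A t₀ = √(R t₀) := by
    simp only [hA]
    have := sin_sq_add_cos_sq (ψ t₀)
    calc z1 t₀ * cos (ψ t₀) + z2 t₀ * sin (ψ t₀)
        = √(R t₀) * cos (ψ t₀) * cos (ψ t₀) + √(R t₀) * sin (ψ t₀) * sin (ψ t₀) := by
          rw [← hi1', ← hi2']
      _ = √(R t₀) * (sin (ψ t₀) ^ 2 + cos (ψ t₀) ^ 2) := by ring
      _ = √(R t₀) := by rw [this, mul_one]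
  have hBt : B t = 0 := by
    have := hconst B dB t
    rw [hB0, zero_div, div_eq_zero_iff] at this
    exact this.resolve_right hs.ne'
  have hAt : A t = √(R t) := by
    have := hconst A dA t
    rw [hA0, div_self hs0.ne', div_eq_one_iff_eq hs.ne'] at this
    exact this
  have hsc := sin_sq_add_cos_sq (ψ t)
  have e4 : A t = z1 t * cos (ψ t) + z2 t * sin (ψ t) := rfl
  have e5 : B t = z2 t * cos (ψ t) - z1 t * sin (ψ t) := rfl
  rw [e4] at hAt
  rw [e5] at hBt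
  have g1 : z1 t = √(R t) * cos (ψ t) := by
    rw [← hAt]
    linear_combination (-(z1 t)) * hsc - (sin (ψ t)) * hBt
  have g2 : z2 t = √(R t) * sin (ψ t) := by
    rw [← hAt]
    linear_combination (-(z2 t)) * hsc + (cos (ψ t)) * hBt
  exact ⟨g1, g2⟩

/-- Initial polar angle. -/
lemma exists_polar (x y : ℝ) : ∃ φ : ℝ, x = √(x ^ 2 + y ^ 2) * cos φ ∧
    y = √(x ^ 2 + y ^ 2) * sin φ := by
  refine ⟨Complex.arg ⟨x, y⟩, ?_, ?_⟩
  · have h : ‖(⟨x, y⟩ : ℂ)‖ = √(x ^ 2 + y ^ 2) := by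
      rw [Complex.norm_def, Complex.normSq_mk]; congr 1; ring
    rw [← h]
    exact (Complex.norm_mul_cos_arg ⟨x, y⟩).symm
  · have h : ‖(⟨x, y⟩ : ℂ)‖ = √(x ^ 2 + y ^ 2) := by
      rw [Complex.norm_def, Complex.normSq_mk]; congr 1; ring
    rw [← h]
    exact (Complex.norm_mul_sin_arg ⟨x, y⟩).symm

/-- A continuous function which avoids the odd multiples of `π` varies by less than `2π`. -/
lemma lift_bound {δ : ℝ → ℝ} (hδ : Continuous δ) (hne : ∀ t, cos (δ t) ≠ -1) (s t : ℝ) :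
    δ t < δ s + 2 * π := by
  by_contra hcon
  rw [not_lt] at hcon
  set i : ℤ := ⌈(δ s - π) / (2 * π)⌉ with hi
  have h2π : 0 < 2 * π := by positivity
  have h1 : (δ s - π) / (2 * π) ≤ i := Int.le_ceil _
  have h2 : (i : ℝ) < (δ s - π) / (2 * π) + 1 := Int.ceil_lt_add_one _
  rw [div_le_iff₀ h2π] at h1
  have h3 : (i : ℝ) * (2 * π) < δ s - π + 2 * π := by
    have := mul_lt_mul_of_pos_right h2 h2π
    rwa [add_mul, one_mul, div_mul_cancel₀ _ h2π.ne'] at this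
  obtain ⟨x, hx⟩ := mem_range_of_exists_le_of_exists_ge (c := π + i * (2 * π)) hδ
    ⟨s, by linarith⟩ ⟨t, by linarith⟩
  apply hne x
  rw [hx, cos_add_int_mul_two_pi, cos_pi]

lemma lift_compare {δ : ℝ → ℝ} (hδ : Continuous δ) (hne : ∀ t, cos (δ t) ≠ -1) {s t : ℝ} {m : ℤ}
    (hm : δ t - δ s = m * (2 * π)) : m = 0 := by
  have h1 := lift_bound hδ hne s t
  have h2 := lift_bound hδ hne t s
  have hπ : 0 < 2 * π := by positivity
  have h3 : (m : ℝ) < 1 := by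
    by_contra h
    rw [not_lt] at h
    nlinarith
  have h4 : (-1 : ℝ) < m := by
    by_contra h
    rw [not_lt] at h
    nlinarith
  have h5 : m < 1 := by exact_mod_cast h3
  have h6 : -1 < m := by exact_mod_cast h4
  omega

/-- Two angles with the same cosine and sine differ by a multiple of `2π`. -/
lemma exists_int_of_cos_sin {x y : ℝ} (hc : cos x = cos y) (hs : sin x = sin y) :
    ∃ m : ℤ, x - y = m * (2 * π) := by
  have : cos (x - y) = 1 := by
    rw [cos_sub, hc, hs, ← sq, ← sq]; exact cos_sq_add_sin_sq y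
  obtain ⟨m, hm⟩ := (cos_eq_one_iff _).1 this
  exact ⟨m, hm.symm⟩

end Pool.Agent.H98.CA
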