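import Pool.Agent.H98.CADefs
import Pool.Agent.H98.CAPolar

/-!
# Ellipses as conics
-/

namespace Pool.Agent.H98.CA

open Set Real Filter Topology
open scoped ContDiff

lemma exists_cos_sin {X Y : ℝ} (h : X ^ 2 + Y ^ 2 = 1) : ∃ s, X = cos s ∧ Y = sin s := by
  obtain ⟨s, h1, h2⟩ := exists_polar X Y
  rw [h, sqrt_one, one_mul] at h1 h2
  exact ⟨s, h1, h2⟩

/-- A positive definite conic is an ellipse. -/
lemma isEllipse_conic {P Q R K : ℝ} (z : ℝ × ℝ) (hP : 0 < P) (hdet : 0 < P * R - Q ^ 2)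
    (hK : 0 < K) :
    IsEllipse {w : ℝ × ℝ | P * (w.1 - z.1) ^ 2 + 2 * Q * (w.1 - z.1) * (w.2 - z.2)
      + R * (w.2 - z.2) ^ 2 = K} := by
  have hPK : 0 < P * K := mul_pos hP hK
  set q := √(P * K) with hq
  set d := √(P * R - Q ^ 2) with hd
  have hqpos : 0 < q := sqrt_pos.2 hPK
  have hdpos : 0 < d := sqrt_pos.2 hdet
  have hq2 : q ^ 2 = P * K := sq_sqrt hPK.le
  have hd2 : d ^ 2 = P * R - Q ^ 2 := sq_sqrt hdet.le
  refine ⟨z, (q / P, 0), (-(Q * q) / (d * P), q / d), ?_, ?_⟩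
  · unfold det2
    simp only
    have : q / P * (q / d) - 0 * (-(Q * q) / (d * P)) = q ^ 2 / (P * d) := by
      field_simp; ring
    rw [this]; positivity
  · ext w
    simp only [mem_ofPred_eq, mem_range]
    constructor
    · intro hw
      have h1 : ((P * (w.1 - z.1) + Q * (w.2 - z.2)) / q) ^ 2 + (d * (w.2 - z.2) / q) ^ 2 = 1 := by
        rw [div_pow, div_pow, mul_pow, hd2, hq2]
        rw [← add_div, div_eq_one_iff_eq hPK.ne']
        rw [← hw]; ring
      obtain ⟨s, hs1, hs2⟩ := exists_cos_sin h1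
      refine ⟨s, ?_⟩
      rw [← hs1, ← hs2]
      ext
      · simp
        field_simp
        ring
      · simp
        field_simp
        ring
    · rintro ⟨s, rfl⟩
      have hsc := sin_sq_add_cos_sq s
      have hX : (z + cos s • (q / P, (0 : ℝ)) + sin s • (-(Q * q) / (d * P), q / d)).1 - z.1
          = cos s * (q / P) + sin s * (-(Q * q) / (d * P)) := by simp; ring
      have hY : (z + cos s • (q / P, (0 : ℝ)) + sin s • (-(Q * q) / (d * P), q / d)).2 - z.2
          = sin s * (q / d) := by simp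
      rw [hX, hY]
      apply mul_left_cancel₀ hP.ne'
      set X := cos s * (q / P) + sin s * (-(Q * q) / (d * P)) with hXd
      set Y := sin s * (q / d) with hYd
      have e1 : P * X + Q * Y = q * cos s := by
        rw [hXd, hYd]; field_simp; ring
      have e2 : d * Y = q * sin s := by rw [hYd]; field_simp
      have e3 : P * (P * X ^ 2 + 2 * Q * X * Y + R * Y ^ 2) = (P * X + Q * Y) ^ 2 + (d * Y) ^ 2 := by
        rw [mul_pow d, hd2]; ring
      rw [e3, e1, e2, ← hq2]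
      linear_combination (q ^ 2) * hsc

/-- Conversely an ellipse is a positive definite conic `P (w - z) = 1`. -/
lemma conic_of_isEllipse {S : Set (ℝ × ℝ)} (hS : IsEllipse S) :
    ∃ (z : ℝ × ℝ) (P Q R K : ℝ), 0 < P ∧ 0 < P * R - Q ^ 2 ∧ 0 < K ∧
      ∀ w ∈ S, P * (w.1 - z.1) ^ 2 + 2 * Q * (w.1 - z.1) * (w.2 - z.2)
        + R * (w.2 - z.2) ^ 2 = K := by
  obtain ⟨z, u, v, huv, rfl⟩ := hS
  have hne : u.1 * v.2 - u.2 * v.1 ≠ 0 := huv
  refine ⟨z, v.2 ^ 2 + u.2 ^ 2, -(v.1 * v.2 + u.1 * u.2), v.1 ^ 2 + u.1 ^ 2,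
    (u.1 * v.2 - u.2 * v.1) ^ 2, ?_, ?_, by positivity, ?_⟩
  · rcases eq_or_ne v.2 0 with h | h
    · have : u.2 ≠ 0 := by
        intro h2; apply hne; rw [h, h2]; ring
      positivity
    · positivity
  · have : (v.2 ^ 2 + u.2 ^ 2) * (v.1 ^ 2 + u.1 ^ 2) - (-(v.1 * v.2 + u.1 * u.2)) ^ 2
      = (u.1 * v.2 - u.2 * v.1) ^ 2 := by ring
    rw [this]; positivity
  · rintro w ⟨s, rfl⟩
    have hsc := sin_sq_add_cos_sq s
    have hX : (z + cos s • u + sin s • v).1 - z.1 = cos s * u.1 + sin s * v.1 := by simp; ring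
    have hY : (z + cos s • u + sin s • v).2 - z.2 = cos s * u.2 + sin s * v.2 := by simp; ring
    simp only [hX, hY]
    linear_combination ((u.1 * v.2 - u.2 * v.1) ^ 2) * hsc

end Pool.Agent.H98.CA
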