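import Pool.Agent.H98.CAEllipse

/-!
# A curve with more than two apsides per turn is not an ellipse
-/

namespace Pool.Agent.H98.CA

open Set Real Filter Topology

/-- Sums of equidistributed cosines. -/
lemma sum_cos_eq_zero {j m : ℕ} (hm : 0 < m) (hmj : m < j) (φ : ℝ) :
    ∑ i ∈ Finset.range j, cos (φ + 2 * (π * m / j) * i) = 0 := by
  have hj : (0 : ℝ) < j := by exact_mod_cast (hm.trans hmj)
  have hmR : (0 : ℝ) < m := by exact_mod_cast hm
  have hmjR : (m : ℝ) < j := by exact_mod_cast hmj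
  set h := π * m / j with hh
  have hpos : 0 < h := by positivity
  have hlt : h < π := by
    rw [hh, div_lt_iff₀ hj]
    exact mul_lt_mul_of_pos_left hmjR pi_pos
  have hs : sin h ≠ 0 := (sin_pos_of_pos_of_lt_pi hpos hlt).ne'
  have h1 : ∀ i ∈ Finset.range j, 2 * sin h * cos (φ + 2 * h * i)
      = sin (φ + 2 * h * ((i + 1 : ℕ) : ℝ) - h) - sin (φ + 2 * h * (i : ℝ) - h) := by
    intro i _
    have e1 : φ + 2 * h * ((i + 1 : ℕ) : ℝ) - h = (φ + 2 * h * i) + h := by push_cast; ring
    rw [e1, sin_add, sin_sub]; ring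
  have h2 : 2 * sin h * ∑ i ∈ Finset.range j, cos (φ + 2 * h * i) = 0 := by
    rw [Finset.mul_sum, Finset.sum_congr rfl h1,
      Finset.sum_range_sub (fun i : ℕ => sin (φ + 2 * h * (i : ℝ) - h))]
    have e2 : φ + 2 * h * (j : ℝ) - h = (φ + 2 * h * ((0 : ℕ) : ℝ) - h) + m * (2 * π) := by
      rw [hh]; push_cast; field_simp; ring
    rw [e2, sin_add_nat_mul_two_pi, sub_self]
  rcases mul_eq_zero.1 h2 with h3 | h3
  · exact absurd (mul_eq_zero.1 h3) (by simp [hs])
  · exact h3

lemma sum_sin_eq_zero {j m : ℕ} (hm : 0 < m) (hmj : m < j) (φ : ℝ) :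
    ∑ i ∈ Finset.range j, sin (φ + 2 * (π * m / j) * i) = 0 := by
  have h := sum_cos_eq_zero hm hmj (φ - π / 2)
  rw [← h]
  refine Finset.sum_congr rfl fun i _ => ?_
  have : φ - π / 2 + 2 * (π * m / j) * i = (φ + 2 * (π * m / j) * i) - π / 2 := by ring
  rw [this, cos_sub_pi_div_two]

theorem not_isEllipse {γ : ℝ → ℝ × ℝ} {r ψ : ℝ → ℝ} {T1 t0 : ℝ} {n k : ℕ} (hr : ∀ t, 0 < r t)
    (hγ : ∀ t, γ t = (r t * cos (ψ t), r t * sin (ψ t)))
    (hψs : ∀ y, ∃ t, ψ t = y) (hn : 1 ≤ n) (hk : 1 ≤ k)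
    (hrT : ∀ t, r (t + T1) = r t) (hψT : ∀ t, ψ (t + T1) = ψ t + 2 * π * n / k)
    (ht0 : ∀ t, r t = r t0 → ∃ j : ℤ, t = t0 + j * T1)
    (hj3 : ∀ j : ℕ, k = j * n → 3 ≤ j) (hnc : ¬ ∀ t, r t = r 0) :
    ¬ IsEllipse (range γ) := by
  intro hell
  obtain ⟨z, P, Q, S, K, hP, hdet, hK, hcon⟩ := conic_of_isEllipse hell
  have hnR : (0 : ℝ) < n := by exact_mod_cast hn
  have hkR : (0 : ℝ) < k := by exact_mod_cast hk
  have hS : 0 < S := by nlinarith [sq_nonneg Q]
  set av : ℝ → ℝ := fun φ => P * cos φ ^ 2 + 2 * Q * cos φ * sin φ + S * sin φ ^ 2 with hav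
  set b1 := P * z.1 + Q * z.2 with hb1
  set b2 := Q * z.1 + S * z.2 with hb2
  set bv : ℝ → ℝ := fun φ => b1 * cos φ + b2 * sin φ with hbv
  set d := K - (P * z.1 ^ 2 + 2 * Q * z.1 * z.2 + S * z.2 ^ 2) with hd
  have hapos : ∀ φ, 0 < av φ := by
    intro φ
    have h1 : P * av φ = (P * cos φ + Q * sin φ) ^ 2 + (P * S - Q ^ 2) * sin φ ^ 2 := by
      simp only [hav]; ring
    have h2 : 0 < P * av φ := by
      rw [h1]
      rcases eq_or_ne (sin φ) 0 with h | h
      · have h3 : cos φ ≠ 0 := by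
          intro h4
          have := sin_sq_add_cos_sq φ
          rw [h, h4] at this; norm_num at this
        rw [h]
        have : P * cos φ + Q * 0 ≠ 0 := by simpa using ⟨hP.ne', h3⟩
        positivity
      · positivity
    exact (pos_iff_pos_of_mul_pos h2).1 hP
  have heq : ∀ t, av (ψ t) * r t ^ 2 - 2 * bv (ψ t) * r t = d := by
    intro t
    have h1 := hcon (γ t) ⟨t, rfl⟩
    rw [hγ t] at h1
    simp only [hav, hbv, hb1, hb2, hd]
    linear_combination h1
  -- `d > 0`
  have hdpos : 0 < d := by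
    by_contra hcon2
    rw [not_lt] at hcon2
    have hb : ∀ t, 0 < bv (ψ t) := by
      intro t
      have h1 := heq t
      have h2 : 0 < av (ψ t) * r t ^ 2 := mul_pos (hapos _) (by have := hr t; positivity)
      have h3 : 0 < bv (ψ t) * (2 * r t) := by nlinarith
      exact (pos_iff_pos_of_mul_pos h3).2 (by have := hr t; positivity)
    obtain ⟨t1, ht1⟩ := hψs 0
    obtain ⟨t2, ht2⟩ := hψs π
    have h1 := hb t1
    have h2 := hb t2
    rw [ht1] at h1
    rw [ht2] at h2
    simp only [hbv, cos_zero, sin_zero, cos_pi, sin_pi] at h1 h2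
    linarith
  -- the radius is determined by the direction
  have huniq : ∀ t t', (∃ m : ℤ, ψ t - ψ t' = m * (2 * π)) → r t = r t' := by
    rintro t t' ⟨m, hm⟩
    have e : ψ t = ψ t' + m * (2 * π) := by linarith
    have h1 := heq t
    have h2 := heq t'
    have ea : av (ψ t) = av (ψ t') := by
      simp only [hav]; rw [e, cos_add_int_mul_two_pi, sin_add_int_mul_two_pi]
    have eb : bv (ψ t) = bv (ψ t') := by
      simp only [hbv]; rw [e, cos_add_int_mul_two_pi, sin_add_int_mul_two_pi]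
    rw [ea, eb] at h1
    by_contra hne
    have h3 : (r t - r t') * (av (ψ t') * (r t + r t') - 2 * bv (ψ t')) = 0 := by
      linear_combination h1 - h2
    rcases mul_eq_zero.1 h3 with h4 | h4
    · exact hne (sub_eq_zero.1 h4)
    · have h5 : -(av (ψ t') * r t * r t') = d := by
        linear_combination h1 - r t * h4
      have h6 : 0 < av (ψ t') * r t * r t' := mul_pos (mul_pos (hapos _) (hr t)) (hr t')
      linarith
  -- `k = j n`
  obtain ⟨t', ht'⟩ := hψs (ψ t0 + 2 * π)
  have hrt' : r t' = r t0 := huniq t' t0 ⟨1, by rw [ht']; push_cast; ring⟩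
  obtain ⟨j, hj⟩ := ht0 t' hrt'
  have hψint : ∀ (i : ℤ) t, ψ (t + i * T1) = ψ t + i * (2 * π * n / k) := by
    intro i t
    rcases eq_or_ne T1 0 with h0 | h0
    · exfalso
      have := hψT t
      rw [h0, add_zero] at this
      have h1 : 0 < 2 * π * n / k := by have := pi_pos; positivity
      linarith
    have hg : Function.Periodic (fun t => ψ t - (2 * π * n / k) / T1 * t) T1 := by
      intro t
      simp only
      rw [hψT]
      field_simp
      ring
    have h3 := hg.int_mul i t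
    have h4 : (2 * π * n / k) / T1 * (t + i * T1) = (2 * π * n / k) / T1 * t
      + i * (2 * π * n / k) := by field_simp
    linarith
  have hkj : (k : ℝ) = j * n := by
    have h1 := hψint j t0
    rw [← hj, ht'] at h1
    have h2 : 2 * π = j * (2 * π * n / k) := by linarith
    have := pi_pos
    field_simp at h2
    linarith
  have hjpos : 0 < j := by
    have : 0 < (j : ℝ) * n := by rw [← hkj]; exact hkR
    have h1 := (pos_iff_pos_of_mul_pos this).2 hnR
    exact_mod_cast h1
  lift j to ℕ using hjpos.le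
  have hkj' : k = j * n := by exact_mod_cast hkj
  have hj' := hj3 j hkj'
  have hjR : (0 : ℝ) < j := by exact_mod_cast (show 0 < j by omega)
  have hΘ : 2 * π * n / k = 2 * π / j := by
    rw [hkj']; push_cast; field_simp
  -- the radius is constant
  have hrint : ∀ (i : ℕ) t, r (t + i * T1) = r t := by
    intro i t
    have hp : Function.Periodic r T1 := hrT
    exact hp.nat_mul i t
  have hconst : ∀ t, (P + S) / 2 * r t ^ 2 = d := by
    intro t
    have h1 : ∑ i ∈ Finset.range j, (av (ψ (t + i * T1)) * r (t + i * T1) ^ 2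
        - 2 * bv (ψ (t + i * T1)) * r (t + i * T1)) = ∑ i ∈ Finset.range j, d :=
      Finset.sum_congr rfl fun i _ => heq _
    have h2 : ∀ i ∈ Finset.range j, av (ψ (t + i * T1)) * r (t + i * T1) ^ 2
        - 2 * bv (ψ (t + i * T1)) * r (t + i * T1)
        = (P + S) / 2 * r t ^ 2
          + ((P - S) / 2 * r t ^ 2) * cos (2 * ψ t + 2 * (π * (2 : ℕ) / j) * i)
          + (Q * r t ^ 2) * sin (2 * ψ t + 2 * (π * (2 : ℕ) / j) * i)
          - (2 * r t * b1) * cos (ψ t + 2 * (π * (1 : ℕ) / j) * i)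
          - (2 * r t * b2) * sin (ψ t + 2 * (π * (1 : ℕ) / j) * i) := by
      intro i _
      have e1 : ψ (t + i * T1) = ψ t + 2 * (π * (1 : ℕ) / j) * i := by
        have := hψint i t
        push_cast at this
        rw [this, hΘ]; push_cast; ring
      have e2 : 2 * ψ t + 2 * (π * (2 : ℕ) / j) * i = 2 * (ψ t + 2 * (π * (1 : ℕ) / j) * i) := by
        push_cast; ring
      rw [hrint, e1, e2, cos_two_mul, sin_two_mul]
      simp only [hav, hbv]
      have hsc := sin_sq_add_cos_sq (ψ t + 2 * (π * (1 : ℕ) / j) * i)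
      linear_combination (S * r t ^ 2) * hsc
    rw [Finset.sum_congr rfl h2] at h1
    simp only [Finset.sum_sub_distrib, Finset.sum_add_distrib, ← Finset.mul_sum] at h1
    rw [sum_cos_eq_zero (by norm_num : 0 < 2) (by omega) (2 * ψ t),
      sum_sin_eq_zero (by norm_num : 0 < 2) (by omega) (2 * ψ t),
      sum_cos_eq_zero (by norm_num : 0 < 1) (by omega) (ψ t),
      sum_sin_eq_zero (by norm_num : 0 < 1) (by omega) (ψ t)] at h1
    simp only [Finset.sum_const, Finset.card_range, nsmul_eq_mul, mul_zero, add_zero,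
      sub_zero] at h1
    have h7 : (j : ℝ) * ((P + S) / 2 * r t ^ 2) = j * d := by linear_combination h1
    exact mul_left_cancel₀ hjR.ne' h7
  apply hnc
  intro t
  have h1 := hconst t
  have h2 := hconst 0
  have h3 : (P + S) / 2 * r t ^ 2 = (P + S) / 2 * r 0 ^ 2 := h1.trans h2.symm
  have h4 : r t ^ 2 = r 0 ^ 2 := mul_left_cancel₀ (by positivity) h3
  exact (sq_eq_sq₀ (hr t).le (hr 0).le).1 h4

end Pool.Agent.H98.CA
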