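import Pool.Agent.H98.CASol
import Pool.Agent.H98.CANonEll

/-!
# Existence of nontrivial extremal curves with prescribed rotation number
-/

namespace Pool.Agent.H98.CA

open Set Real Filter Topology
open scoped ContDiff

lemma smooth_system {c : ℝ} {v u : ℝ → ℝ} (dv : ∀ t, HasDerivAt v (2 * u t * exp (-v t)) t)
    (du : ∀ t, HasDerivAt u (-(n1 c (v t) * exp (-v t))) t) :
    ContDiff ℝ ∞ v ∧ ContDiff ℝ ∞ u := by
  have key : ∀ n : ℕ, ContDiff ℝ n v ∧ ContDiff ℝ n u := by
    intro n
    induction n with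
    | zero =>
      refine ⟨contDiff_zero.2 ?_, contDiff_zero.2 ?_⟩
      · exact continuous_iff_continuousAt.2 fun t => (dv t).continuousAt
      · exact continuous_iff_continuousAt.2 fun t => (du t).continuousAt
    | succ n ih =>
      obtain ⟨ihv, ihu⟩ := ih
      have hdv : deriv v = fun t => 2 * u t * exp (-v t) := funext fun t => (dv t).deriv
      have hdu : deriv u = fun t => -(n1 c (v t) * exp (-v t)) := funext fun t => (du t).deriv
      constructor
      · rw [show ((n + 1 : ℕ) : WithTop ℕ∞) = (n : WithTop ℕ∞) + 1 by push_cast; rfl,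
          contDiff_succ_iff_deriv]
        refine ⟨fun t => (dv t).differentiableAt, by simp, ?_⟩
        rw [hdv]
        exact (contDiff_const.mul ihu).mul ihv.neg.exp
      · rw [show ((n + 1 : ℕ) : WithTop ℕ∞) = (n : WithTop ℕ∞) + 1 by push_cast; rfl,
          contDiff_succ_iff_deriv]
        refine ⟨fun t => (du t).differentiableAt, by simp, ?_⟩
        rw [hdu]
        have h1 : ContDiff ℝ n fun t => n1 c (v t) := by
          unfold n1
          exact (contDiff_const.mul ((contDiff_const.mul ihv).exp.sub ihv.exp)).div_const _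
        exact (h1.mul ihv.neg.exp).neg
  exact ⟨contDiff_infty.2 fun n => (key n).1, contDiff_infty.2 fun n => (key n).2⟩

lemma n_identity {c : ℝ} (hc1 : c ≠ 1) (v : ℝ) : 1 - nn c v + n1 c v = exp (c * v) := by
  have : c - 1 ≠ 0 := sub_ne_zero.2 hc1
  rw [one_sub_nn]
  unfold n1
  field_simp
  ring

/-- The extremal curve built from a solution. -/
theorem curve_of_solution {a c E T : ℝ} (hc : (c - 2) * (a - 1) = 1) (hc1 : c ≠ 1) (hE : E < 1)
    (hT : 0 < T) {v u ψ : ℝ → ℝ}
    (dv : ∀ t, HasDerivAt v (2 * u t * exp (-v t)) t)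
    (du : ∀ t, HasDerivAt u (-(n1 c (v t) * exp (-v t))) t)
    (dψ : ∀ t, HasDerivAt ψ (√(1 - E) * exp (-v t)) t)
    (hen : ∀ t, u t ^ 2 + nn c (v t) = E)
    (hvT : ∀ t, v (t + T) = v t) {n : ℕ} (hψT : ∀ t, ψ (t + T) = ψ t + n * (2 * π)) :
    IsExtremal a T (fun t => (exp (v t / 2) / √√(1 - E) * cos (ψ t),
      exp (v t / 2) / √√(1 - E) * sin (ψ t))) := by
  set om := √(1 - E) with hom
  have hompos : 0 < om := sqrt_pos.2 (by linarith)
  have hom2 : om ^ 2 = 1 - E := sq_sqrt (by linarith)
  have hsom : 0 < √om := sqrt_pos.2 hompos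
  have hsom2 : √om ^ 2 = om := sq_sqrt hompos.le
  obtain ⟨sv, su⟩ := smooth_system dv du
  have sψ : ContDiff ℝ ∞ ψ := by
    rw [contDiff_infty_iff_deriv]
    refine ⟨fun t => (dψ t).differentiableAt, ?_⟩
    have : deriv ψ = fun t => om * exp (-v t) := funext fun t => (dψ t).deriv
    rw [this]
    exact contDiff_const.mul sv.neg.exp
  set R : ℝ → ℝ := fun t => exp (v t / 2) / √om with hR
  have hRpos : ∀ t, 0 < R t := fun t => by simp only [hR]; positivity
  have hR2 : ∀ t, R t ^ 2 * om = exp (v t) := by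
    intro t
    simp only [hR]
    rw [div_pow, hsom2, ← exp_nat_mul]
    push_cast
    have : 2 * (v t / 2) = v t := by ring
    rw [this]; field_simp
  have sR : ContDiff ℝ ∞ R := (sv.div_const 2).exp.div_const _
  have dR : ∀ t, HasDerivAt R (R t * (u t * exp (-v t))) t := by
    intro t
    refine (((dv t).div_const 2).exp.div_const (√om)).congr_deriv ?_
    simp only [hR]; ring
  set S : ℝ → ℝ := fun t => R t * exp (-v t) with hS
  have dS : ∀ t, HasDerivAt S (-(S t * (u t * exp (-v t)))) t := by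
    intro t
    refine ((dR t).mul (dv t).neg.exp).congr_deriv ?_
    simp only [hS, Pi.neg_apply]; ring
  set γ : ℝ → ℝ × ℝ := fun t => (R t * cos (ψ t), R t * sin (ψ t)) with hγ
  have sγ : ContDiff ℝ ∞ γ := (sR.mul sψ.cos).prodMk (sR.mul sψ.sin)
  set x1 : ℝ → ℝ := fun t => S t * (u t * cos (ψ t) - om * sin (ψ t)) with hx1
  set y1 : ℝ → ℝ := fun t => S t * (u t * sin (ψ t) + om * cos (ψ t)) with hy1
  have dx : ∀ t, HasDerivAt (fun t => R t * cos (ψ t)) (x1 t) t := by
    intro t
    refine ((dR t).mul (dψ t).cos).congr_deriv ?_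
    simp only [hx1, hS]; ring
  have dy : ∀ t, HasDerivAt (fun t => R t * sin (ψ t)) (y1 t) t := by
    intro t
    refine ((dR t).mul (dψ t).sin).congr_deriv ?_
    simp only [hy1, hS]; ring
  have dγ : deriv γ = fun t => (x1 t, y1 t) := funext fun t => ((dx t).prodMk (dy t)).deriv
  have hkey : ∀ t, u t ^ 2 + om ^ 2 + n1 c (v t) = exp (c * v t) := by
    intro t
    rw [← n_identity hc1, hom2, ← hen t]; ring
  have hP : ∀ t, exp ((c - 2) * v t) = exp (c * v t) * exp (-v t) * exp (-v t) := by
    intro t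
    rw [← exp_add, ← exp_add]; congr 1; ring
  have dx1 : ∀ t, HasDerivAt x1 (-(exp ((c - 2) * v t) * (R t * cos (ψ t)))) t := by
    intro t
    refine ((dS t).mul (((du t).mul (dψ t).cos).sub ((dψ t).sin.const_mul om))).congr_deriv ?_
    rw [hP, ← hkey]
    simp only [hS, Pi.mul_apply, Pi.sub_apply]; ring
  have dy1 : ∀ t, HasDerivAt y1 (-(exp ((c - 2) * v t) * (R t * sin (ψ t)))) t := by
    intro t
    refine ((dS t).mul (((du t).mul (dψ t).sin).add ((dψ t).cos.const_mul om))).congr_deriv ?_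
    rw [hP, ← hkey]
    simp only [hS, Pi.mul_apply, Pi.add_apply]; ring
  have ddγ : ∀ t, deriv (deriv γ) t = (-(exp ((c - 2) * v t) * (R t * cos (ψ t))),
      -(exp ((c - 2) * v t) * (R t * sin (ψ t)))) := by
    intro t
    rw [dγ]
    exact ((dx1 t).prodMk (dy1 t)).deriv
  have hwr : ∀ t, det2 (γ t) (deriv γ t) = 1 := by
    intro t
    rw [dγ]
    simp only [det2, hγ, hx1, hy1, hS]
    have h1 := sin_sq_add_cos_sq (ψ t)
    have h2 := hR2 t
    have h3 : exp (v t) * exp (-v t) = 1 := by rw [← exp_add]; simp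
    linear_combination (R t ^ 2 * exp (-v t) * om) * h1 + exp (-v t) * h2 + h3
  have hcurv : curv γ = fun t => exp ((c - 2) * v t) := by
    funext t
    unfold curv
    rw [ddγ]
    have h1 := hwr t
    simp only [det2, hγ] at h1 ⊢
    linear_combination (exp ((c - 2) * v t)) * h1
  have hpot : potF a γ = fun t => exp (v t) := by
    funext t
    unfold potF
    rw [hcurv]
    simp only
    rw [← exp_mul]
    congr 1
    linear_combination (v t) * hc
  have d1 : ∀ t, HasDerivAt (fun t => exp (v t)) (2 * u t) t := by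
    intro t
    refine (dv t).exp.congr_deriv ?_
    have h3 : exp (v t) * exp (-v t) = 1 := by rw [← exp_add]; simp
    linear_combination (2 * u t) * h3
  have d2 : ∀ t, HasDerivAt (fun t => 2 * u t) (-(2 * (n1 c (v t) * exp (-v t)))) t := by
    intro t
    refine ((du t).const_mul 2).congr_deriv ?_
    ring
  have hc1' : c - 1 ≠ 0 := sub_ne_zero.2 hc1
  have hn12 : ∀ t, n2 c (v t) - n1 c (v t) = c * exp (c * v t) := by
    intro t
    unfold n1 n2
    field_simp
    ring
  have d3 : ∀ t, HasDerivAt (fun t => -(2 * (n1 c (v t) * exp (-v t))))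
      (-(4 * c * u t * exp ((c - 2) * v t))) t := by
    intro t
    refine ((((hasDerivAt_n1 (v t)).comp t (dv t)).mul (dv t).neg.exp).const_mul
      2).neg.congr_deriv ?_
    rw [hP]
    have h1 := hn12 t
    simp only [Function.comp, Pi.neg_apply]
    linear_combination (-(4 * u t * exp (-v t) * exp (-v t))) * h1
  have d4 : ∀ t, HasDerivAt (fun t => exp ((c - 2) * v t))
      (exp ((c - 2) * v t) * ((c - 2) * (2 * u t * exp (-v t)))) t := fun t =>
    ((dv t).const_mul (c - 2)).exp
  refine ⟨hT, sγ, ?_, hwr, ?_, ?_⟩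
  · intro t
    simp only [hγ, hR, hvT, hψT, cos_add_nat_mul_two_pi, sin_add_nat_mul_two_pi]
  · intro t
    rw [hcurv]; positivity
  · intro t
    rw [hcurv, hpot]
    have e1 : deriv (fun t => exp (v t)) = fun t => 2 * u t := funext fun t => (d1 t).deriv
    have e2 : deriv (fun t => 2 * u t) = fun t => -(2 * (n1 c (v t) * exp (-v t))) :=
      funext fun t => (d2 t).deriv
    rw [e1, e2, (d3 t).deriv, (d4 t).deriv]
    have h3 : exp (-v t) * exp (v t) = 1 := by rw [← exp_add]; simp
    linear_combination (exp ((c - 2) * v t) * (c - 2) * 2 * u t) * h3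

/-- If `k = j n` lies strictly between `n √x` and `n min(2,x)` then `j ≥ 3`. -/
lemma three_le_of_between {x : ℝ} (hx : 0 < x) {n k j : ℕ} (hn : 1 ≤ n)
    (hk : (k : ℝ) ∈ Ioo (min (n * √x) (n * min 2 x)) (max (n * √x) (n * min 2 x)))
    (hkj : k = j * n) : 3 ≤ j := by
  have hnR : (0 : ℝ) < n := by exact_mod_cast hn
  have hm : 0 < min 2 x := lt_min two_pos hx
  have hs : 0 < √x := sqrt_pos.2 hx
  have hs2 : √x ^ 2 = x := sq_sqrt hx.le
  rw [hkj] at hk
  push_cast at hk
  rw [mul_comm (j : ℝ) n, ← mul_min_of_nonneg _ _ hnR.le, ← mul_max_of_nonneg _ _ hnR.le] at hk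
  have h1 := lt_of_mul_lt_mul_left hk.1 hnR.le
  have h2 := lt_of_mul_lt_mul_left hk.2 hnR.le
  by_contra hcon
  have hj : j = 0 ∨ j = 1 ∨ j = 2 := by omega
  rcases hj with rfl | rfl | rfl
  · have : 0 < min (√x) (min 2 x) := lt_min hs hm
    simp only [Nat.cast_zero] at h1
    linarith
  · simp only [Nat.cast_one] at h1 h2
    rcases lt_or_ge 1 x with h | h
    · have h3 : 1 < √x := by
        rw [← sqrt_one]; exact sqrt_lt_sqrt zero_le_one h
      have : 1 < min (√x) (min 2 x) := lt_min h3 (lt_min (by norm_num) h)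
      linarith
    · have h3 : √x ≤ 1 := by
        rw [← sqrt_one]; exact sqrt_le_sqrt h
      have : max (√x) (min 2 x) ≤ 1 := max_le h3 ((min_le_right _ _).trans h)
      linarith
  · simp only [Nat.cast_ofNat] at h1 h2
    have h3 : 2 < √x := by
      rcases lt_max_iff.1 h2 with h | h
      · exact h
      · exact absurd h (not_lt.2 (min_le_left _ _))
    have h4 : 4 < x := by nlinarith
    have h5 : min 2 x = 2 := min_eq_left (by linarith)
    rw [h5, min_eq_right h3.le] at h1
    exact lt_irrefl _ h1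

theorem sufficiency {a : ℝ} (ha0 : a ≠ 0) (haI : a ∉ Icc (1 / 2 : ℝ) 1) {n k : ℕ} (hn : 1 ≤ n)
    (hk : (k : ℝ) ∈ Ioo (min (n * √(2 * cpar a)) (n * min 2 (2 * cpar a)))
        (max (n * √(2 * cpar a)) (n * min 2 (2 * cpar a)))) :
    IsNontrivialRotation a n := by
  have ha1 : a ≠ 1 := by rintro rfl; exact haI ⟨by norm_num, le_rfl⟩
  have ha1' : a - 1 ≠ 0 := sub_ne_zero.2 ha1
  set c := cpar a with hcdef
  have hc : (c - 2) * (a - 1) = 1 := by
    rw [hcdef]; unfold cpar; field_simp; ring
  have hc0 : 0 < c := by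
    rw [hcdef]; unfold cpar
    rcases lt_or_gt_of_ne ha1 with h | h
    · have : a < 1 / 2 := by
        by_contra h2
        exact haI ⟨not_lt.1 h2, h.le⟩
      exact div_pos_of_neg_of_neg (by linarith) (by linarith)
    · exact div_pos (by linarith) (by linarith)
  have hc1 : c ≠ 1 := by
    intro h
    rw [h] at hc
    apply ha0; linarith
  have hnR : (0 : ℝ) < n := by exact_mod_cast hn
  have hX : 0 < √(2 * c) := sqrt_pos.2 (by linarith)
  have hY : 0 < min 2 (2 * c) := lt_min two_pos (by linarith)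
  have hj3 : ∀ j : ℕ, k = j * n → 3 ≤ j := fun j hkj =>
    three_le_of_between (by linarith) hn hk hkj
  have hkR : (0 : ℝ) < k := by
    refine lt_trans ?_ hk.1
    exact lt_min (mul_pos hnR hX) (mul_pos hnR hY)
  have hk1 : 1 ≤ k := by exact_mod_cast hkR
  have hΘ : 2 * π * n / k ∈ Ioo (min (2 * π / √(2 * c)) (2 * π / min 2 (2 * c)))
      (max (2 * π / √(2 * c)) (2 * π / min 2 (2 * c))) := by
    have h2π : 0 < 2 * π := by positivity
    have lt1 : ∀ Z : ℝ, 0 < Z → n * Z < k → 2 * π * n / k < 2 * π / Z := by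
      intro Z hZ h
      rw [div_lt_div_iff₀ hkR hZ]
      calc 2 * π * n * Z = 2 * π * (n * Z) := by ring
        _ < 2 * π * k := mul_lt_mul_of_pos_left h h2π
    have lt2 : ∀ Z : ℝ, 0 < Z → (k : ℝ) < n * Z → 2 * π / Z < 2 * π * n / k := by
      intro Z hZ h
      rw [div_lt_div_iff₀ hZ hkR]
      calc 2 * π * k < 2 * π * (n * Z) := mul_lt_mul_of_pos_left h h2π
        _ = 2 * π * n * Z := by ring
    obtain ⟨hk1', hk2'⟩ := hk
    constructor
    · rcases lt_max_iff.1 hk2' with h | h
      · exact (min_le_left _ _).trans_lt (lt2 _ hX h)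
      · exact (min_le_right _ _).trans_lt (lt2 _ hY h)
    · rcases min_lt_iff.1 hk1' with h | h
      · exact (lt1 _ hX h).trans_le (le_max_left _ _)
      · exact (lt1 _ hY h).trans_le (le_max_right _ _)
  obtain ⟨E, hE, hJ⟩ := exists_energy hc0 hc1 hΘ
  obtain ⟨v, u, ψ, T1, t0, hT1, dv, du, dψ, hen, hvT, huT, hψT, ht0, hψs, hune⟩ :=
    exists_solution hc0 hc1 hE
  rw [hJ] at hψT
  have hT : 0 < k * T1 := mul_pos hkR hT1
  have hvkT : ∀ t, v (t + k * T1) = v t := by
    have hp : Function.Periodic v T1 := hvT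
    exact hp.nat_mul k
  have hψkT : ∀ t, ψ (t + k * T1) = ψ t + n * (2 * π) := by
    have hg : Function.Periodic (fun t => ψ t - (2 * π * n / k) / T1 * t) T1 := by
      intro t
      simp only
      rw [hψT]
      field_simp
      ring
    intro t
    have h3 := hg.nat_mul k t
    have h4 : (2 * π * n / k) / T1 * (t + k * T1) = (2 * π * n / k) / T1 * t
      + n * (2 * π) := by field_simp
    linarith
  have hext := curve_of_solution hc hc1 hE.2 hT dv du dψ hen hvkT hψkT
  set r : ℝ → ℝ := fun t => exp (v t / 2) / √√(1 - E) with hr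
  have hr0 : 0 < √√(1 - E) := sqrt_pos.2 (sqrt_pos.2 (by linarith [hE.2]))
  have hrpos : ∀ t, 0 < r t := fun t => by simp only [hr]; positivity
  have hrv : ∀ t t', r t = r t' → v t = v t' := by
    intro t t' h
    simp only [hr] at h
    rw [div_left_inj' hr0.ne', exp_eq_exp] at h
    linarith
  refine ⟨k * T1, _, hext, ?_, r, ψ, ?_, hrpos, fun t => rfl, ?_⟩
  · refine not_isEllipse (r := r) (ψ := ψ) (T1 := T1) (t0 := t0) (n := n) (k := k) hrpos
      (fun t => rfl) hψs hn hk1 ?_ hψT ?_ hj3 ?_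
    · intro t; simp only [hr, hvT]
    · intro t ht; exact ht0 t (hrv _ _ ht)
    · intro hconst
      obtain ⟨t, ht⟩ := hune
      apply ht
      have h1 : v = fun _ => v 0 := funext fun t => hrv _ _ (hconst t)
      have h2 := dv t
      rw [h1] at h2
      have h3 := h2.unique (hasDerivAt_const _ _)
      simp only at h3
      rcases mul_eq_zero.1 h3 with h4 | h4
      · linarith
      · exact absurd h4 (exp_pos _).ne'
  · exact continuous_iff_continuousAt.2 fun t => (dψ t).continuousAt
  · have := hψkT 0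
    rw [zero_add] at this
    rw [this]; ring

end Pool.Agent.H98.CA
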