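import Pool.Agent.H98.CAKepler

/-!
# The necessary condition
-/

namespace Pool.Agent.H98.CA

open Set Real Filter Topology
open scoped ContDiff

lemma cpar_eq {a : ℝ} (ha : a ≠ 1) : (cpar a - 2) * (a - 1) = 1 := by
  have : a - 1 ≠ 0 := sub_ne_zero.2 ha
  unfold cpar
  field_simp
  ring

lemma const_of_deriv_zero {g g' : ℝ → ℝ} (hg : ∀ t, HasDerivAt g (g' t) t) (h0 : ∀ t, g' t = 0) :
    ∀ t, g t = g 0 := fun t =>
  is_const_of_deriv_eq_zero (fun t => (hg t).differentiableAt)
    (fun t => by rw [(hg t).deriv, h0]) t 0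

theorem necessity {a T : ℝ} {γ : ℝ → ℝ × ℝ} {n : ℕ} (ha0 : a ≠ 0) (H : IsExtremal a T γ)
    (hne : ¬ IsEllipse (range γ)) (hrot : HasRotationNumber T γ n) :
    a ∉ Icc (1 / 2) 1 ∧ 1 ≤ n ∧ ∃ k : ℕ, (k : ℝ) ∈
      Ioo (min (n * √(2 * cpar a)) (n * min 2 (2 * cpar a)))
        (max (n * √(2 * cpar a)) (n * min 2 (2 * cpar a))) := by
  obtain ⟨x, y, x1, y1, p, F, F1, F2, F3, C⟩ := coord_of_extremal H
  have hT := H.period_pos
  have ha1 : a ≠ 1 := by
    rintro rfl
    apply hne
    have hF : F = fun _ => (1 : ℝ) := by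
      funext t; rw [C.Fdef]; simp
    have hF1 : F1 = fun _ => (0 : ℝ) := by
      funext t
      have := C.dF t
      rw [hF] at this
      exact this.unique (hasDerivAt_const _ _)
    have hF2 : F2 = fun _ => (0 : ℝ) := by
      funext t
      have := C.dF1 t
      rw [hF1] at this
      exact this.unique (hasDerivAt_const _ _)
    have hF3 : ∀ t, F3 t = 0 := by
      intro t
      have := C.dF2 t
      rw [hF2] at this
      exact this.unique (hasDerivAt_const _ _)
    obtain ⟨p', dp, hO⟩ := C.dp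
    have hp' : ∀ t, p' t = 0 := by
      intro t
      have := hO t
      rw [hF3, hF1, hF] at this
      simpa using this
    exact C.ellipse_of_const (P := p 0) (const_of_deriv_zero dp hp')
  set c := cpar a with hcdef
  have hc := cpar_eq ha1
  rw [← hcdef] at hc
  have ha1' : a - 1 ≠ 0 := sub_ne_zero.2 ha1
  have hc1 : c ≠ 1 := by
    intro h
    rw [h] at hc
    apply ha0; linarith
  have hc2 : c ≠ 2 := by
    intro h
    rw [h] at hc
    norm_num at hc
  obtain ⟨c1, c2, A, B, D, hO, hA, hdet, hQ⟩ := C.osc hT hc hc1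
  have hnc : ∃ t, F1 t ≠ 0 := by
    by_contra h
    push Not at h
    apply hne
    have hF := const_of_deriv_zero C.dF h
    refine C.ellipse_of_const (P := p 0) (fun t => ?_)
    rw [C.p_eq hc t, C.p_eq hc 0, hF t]
  have hc0 : 0 < c := by
    by_contra h
    rw [not_lt] at h
    obtain ⟨t, ht⟩ := hnc
    exact ht (hO.const_of_nonpos h hT C.Fper t)
  have haI : a ∉ Icc (1 / 2 : ℝ) 1 := by
    rintro ⟨h1, h2⟩
    have h3 : a - 1 < 0 := lt_of_le_of_ne (by linarith) ha1'
    have : c * (a - 1) = 2 * a - 1 := by linarith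
    have h4 : c * (a - 1) < 0 := mul_neg_of_pos_of_neg hc0 h3
    linarith
  obtain ⟨ψ, dψ, hψ⟩ := C.angle hO.c1_pos hA hdet hQ hrot
  have hω : 0 < √c1 := sqrt_pos.2 hO.c1_pos
  have hn : 1 ≤ n := by
    have hmono := strictMono_of_rate dψ (fun t => div_pos hω (hO.pos t))
    have h1 : 0 < ψ T - ψ 0 := sub_pos.2 (hmono hT)
    rw [hψ] at h1
    rcases Nat.eq_zero_or_pos n with h | h
    · rw [h] at h1; simp at h1
    · exact h
  have hch : c ≠ 1 / 2 := by
    intro h
    apply hne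
    rw [h] at hc hO
    exact C.kepler hc hO hA hdet hQ hn hrot
  obtain ⟨-, hk⟩ := hO.count hc0 hc2 hch hT C.Fper hnc dψ hψ
  exact ⟨haI, hn, hk⟩

end Pool.Agent.H98.CA
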