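import Pool.Agent.H98.CAExist
import Pool.Agent.H98.CANecessity

/-!
# The least rotation number
-/

namespace Pool.Agent.H98.CA

open Set Real Filter Topology

theorem rotation_iff {a : ℝ} (ha : a ≠ 0) (n : ℕ) :
    IsNontrivialRotation a n ↔ a ∉ Icc (1 / 2 : ℝ) 1 ∧ 1 ≤ n ∧ ∃ k : ℕ, (k : ℝ) ∈
      Ioo (min (n * √(2 * cpar a)) (n * min 2 (2 * cpar a)))
        (max (n * √(2 * cpar a)) (n * min 2 (2 * cpar a))) := by
  constructor
  · rintro ⟨T, γ, H, hne, hrot⟩
    exact necessity ha H hne hrot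
  · rintro ⟨haI, hn, k, hk⟩
    exact sufficiency ha haI hn hk

lemma minRotation_eq_top_iff (a : ℝ) : minRotation a = ⊤ ↔ ∀ n, ¬ IsNontrivialRotation a n := by
  unfold minRotation
  simp only [iInf_eq_top, ENat.natCast_ne_top, imp_false]

lemma minRotation_eq {a : ℝ} {m : ℕ} (h : ∀ n, IsNontrivialRotation a n ↔ m ≤ n) :
    minRotation a = (m : ℕ∞) := by
  unfold minRotation
  apply le_antisymm
  · exact iInf₂_le m ((h m).2 le_rfl)
  · refine le_iInf₂ fun n hn => ?_
    exact_mod_cast (h n).1 hn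

/-- The least rotation number is attained. -/
lemma minRotation_isLeast {a : ℝ} (h : ∃ n, IsNontrivialRotation a n) :
    ∃ m : ℕ, minRotation a = (m : ℕ∞) ∧ IsLeast {n | IsNontrivialRotation a n} m := by
  classical
  refine ⟨Nat.find h, ?_, Nat.find_spec h, fun n hn => Nat.find_min' h hn⟩
  unfold minRotation
  apply le_antisymm
  · exact iInf₂_le _ (Nat.find_spec h)
  · refine le_iInf₂ fun n hn => ?_
    exact_mod_cast Nat.find_min' h hn

lemma cpar_pos {a : ℝ} (haI : a ∉ Icc (1 / 2 : ℝ) 1) : 0 < cpar a := by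
  have ha1 : a ≠ 1 := by rintro rfl; exact haI ⟨by norm_num, le_rfl⟩
  unfold cpar
  rcases lt_or_gt_of_ne ha1 with h | h
  · have : a < 1 / 2 := by
      by_contra h2
      exact haI ⟨not_lt.1 h2, h.le⟩
    exact div_pos_of_neg_of_neg (by linarith) (by linarith)
  · exact div_pos (by linarith) (by linarith)

/-- If the two end points differ there are rotation numbers. -/
lemma exists_rotation {a : ℝ} (ha : a ≠ 0) (haI : a ∉ Icc (1 / 2 : ℝ) 1) (h3 : a ≠ 1 / 3) :
    ∃ n, IsNontrivialRotation a n := by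
  have ha1 : a ≠ 1 := by rintro rfl; exact haI ⟨by norm_num, le_rfl⟩
  have hc := cpar_eq ha1
  have hc0 := cpar_pos haI
  set c := cpar a with hcdef
  have hX : 0 < √(2 * c) := sqrt_pos.2 (by linarith)
  have hX2 : √(2 * c) ^ 2 = 2 * c := sq_sqrt (by linarith)
  have hne : √(2 * c) ≠ min 2 (2 * c) := by
    intro h
    rcases min_choice 2 (2 * c) with hm | hm
    · rw [hm] at h
      rw [h] at hX2
      have h2 : c = 2 := by linarith
      rw [h2] at hc; norm_num at hc
    · rw [hm] at h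
      rw [h] at hX2
      have h2 : 2 * c = 1 := by
        have h5 : (2 * c) * (2 * c - 1) = 0 := by linear_combination hX2
        rcases mul_eq_zero.1 h5 with h4 | h4
        · linarith
        · linarith
      have h4 : c = 1 / 2 := by linarith
      rw [h4] at hc
      apply h3; linarith
  set x := min (√(2 * c)) (min 2 (2 * c)) with hx
  set y := max (√(2 * c)) (min 2 (2 * c)) with hy
  have hxy : x < y := by
    rw [hx, hy]; exact min_lt_max.2 hne
  have hx0 : 0 < x := lt_min hX (lt_min two_pos (by linarith))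
  obtain ⟨n, hn⟩ := exists_nat_gt (1 / (y - x))
  have hyx : 0 < y - x := sub_pos.2 hxy
  rw [div_lt_iff₀ hyx] at hn
  have hn0 : 1 ≤ n := by
    rcases Nat.eq_zero_or_pos n with h | h
    · rw [h] at hn; norm_num at hn
    · exact h
  have hnR : (0 : ℝ) < n := by exact_mod_cast hn0
  refine ⟨n, (rotation_iff ha n).2 ⟨haI, hn0, ⌊(n : ℝ) * x⌋₊ + 1, ?_⟩⟩
  rw [← mul_min_of_nonneg _ _ hnR.le, ← mul_max_of_nonneg _ _ hnR.le, ← hcdef, ← hx, ← hy]
  push_cast
  constructor
  · exact Nat.lt_floor_add_one _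
  · have := Nat.floor_le (mul_pos hnR hx0).le
    nlinarith

theorem minRotation_eq_top {a : ℝ} (ha : a ≠ 0) :
    minRotation a = ⊤ ↔ a ∈ Icc (1 / 2 : ℝ) 1 ∨ a = 1 / 3 := by
  rw [minRotation_eq_top_iff]
  constructor
  · intro h
    by_contra hcon
    push Not at hcon
    obtain ⟨n, hn⟩ := exists_rotation ha hcon.1 hcon.2
    exact h n hn
  · rintro (h | h) n hn
    · exact ((rotation_iff ha n).1 hn).1 h
    · obtain ⟨-, -, k, hk⟩ := (rotation_iff ha n).1 hn
      have hc : cpar a = 1 / 2 := by rw [h]; unfold cpar; norm_num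
      rw [hc] at hk
      norm_num at hk

/-- `a > 1`. -/
theorem rotation_iff_of_gt {a : ℝ} (ha : 1 < a) (n : ℕ) : IsNontrivialRotation a n ↔
    ⌊(a - 1) + √((a - 1) ^ 2 + (a - 1) / 2)⌋₊ + 1 ≤ n := by
  set s := a - 1 with hs
  have hs0 : 0 < s := by linarith
  set D := √(s ^ 2 + s / 2) with hD
  have hDpos : 0 < D := sqrt_pos.2 (by positivity)
  have hD2 : D ^ 2 = s ^ 2 + s / 2 := sq_sqrt (by positivity)
  have hDs : s < D := by nlinarith
  have hc : 2 * cpar a = 4 + 2 / s := by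
    unfold cpar; rw [← hs]; field_simp; rw [hs]; ring
  have hcgt : 4 < 2 * cpar a := by rw [hc]; have : 0 < 2 / s := by positivity
                                   linarith
  have hmin : min 2 (2 * cpar a) = 2 := min_eq_left (by linarith)
  have hX2 : √(2 * cpar a) ^ 2 = 2 * cpar a := sq_sqrt (by linarith)
  have hX : 2 < √(2 * cpar a) := by
    have : √(2 * cpar a) ≥ 0 := sqrt_nonneg _
    nlinarith
  have haI : a ∉ Icc (1 / 2 : ℝ) 1 := fun h => by linarith [h.2]
  have hfl : ⌊s + D⌋₊ + 1 ≤ n ↔ s + D < n := by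
    rw [Nat.add_one_le_iff, Nat.floor_lt (by positivity)]
  rw [rotation_iff (by linarith) n, hfl, hmin]
  constructor
  · rintro ⟨-, hn, k, hk⟩
    have hnR : (1 : ℝ) ≤ n := by exact_mod_cast hn
    rw [min_eq_right (by nlinarith), max_eq_left (by nlinarith)] at hk
    have h1 : 2 * n + 1 ≤ k := by
      have : ((n * 2 : ℕ) : ℝ) < k := by push_cast; exact hk.1
      have : n * 2 < k := by exact_mod_cast this
      omega
    have h1R : (2 * n + 1 : ℝ) ≤ k := by exact_mod_cast h1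
    have h2 : (2 * n + 1 : ℝ) < n * √(2 * cpar a) := h1R.trans_lt hk.2
    have h3 : (2 * n + 1 : ℝ) ^ 2 < (n * √(2 * cpar a)) ^ 2 :=
      pow_lt_pow_left₀ h2 (by positivity) two_ne_zero
    rw [mul_pow, hX2, hc] at h3
    have h4 : s * (2 * n + 1 : ℝ) ^ 2 < s * ((n : ℝ) ^ 2 * (4 + 2 / s)) :=
      mul_lt_mul_of_pos_left h3 hs0
    have h5 : s * ((n : ℝ) ^ 2 * (4 + 2 / s)) = 4 * s * n ^ 2 + 2 * n ^ 2 := by
      field_simp
    rw [h5] at h4
    have h6 : D ^ 2 < (n - s) ^ 2 := by rw [hD2]; nlinarith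
    have h7 : |D| < |(n : ℝ) - s| := sq_lt_sq.1 h6
    rw [abs_of_pos hDpos] at h7
    rcases lt_abs.1 h7 with h | h
    · linarith
    · linarith
  · intro h
    have hnR : (0 : ℝ) < n := by linarith
    have hn : 1 ≤ n := by exact_mod_cast hnR
    refine ⟨haI, hn, 2 * n + 1, ?_⟩
    rw [min_eq_right (by nlinarith), max_eq_left (by nlinarith)]
    push_cast
    constructor
    · linarith
    · apply lt_of_pow_lt_pow_left₀ 2 (by positivity)
      rw [mul_pow, hX2, hc]
      have h6 : D ^ 2 < (n - s) ^ 2 := by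
        apply pow_lt_pow_left₀ _ hDpos.le two_ne_zero
        linarith
      rw [hD2] at h6
      have h5 : s * ((n : ℝ) ^ 2 * (4 + 2 / s)) = 4 * s * n ^ 2 + 2 * n ^ 2 := by
        field_simp
      have h4 : s * (2 * n + 1 : ℝ) ^ 2 < s * ((n : ℝ) ^ 2 * (4 + 2 / s)) := by
        rw [h5]; nlinarith
      exact lt_of_mul_lt_mul_left h4 hs0.le

/-- `a < 0`. -/
theorem rotation_iff_of_neg {a : ℝ} (ha : a < 0) (n : ℕ) : IsNontrivialRotation a n ↔
    ⌊(1 - a) + √((1 - a) ^ 2 - (1 - a) / 2)⌋₊ + 1 ≤ n := by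
  set s := 1 - a with hs
  have hs0 : 1 < s := by linarith
  have hpos : 0 < s ^ 2 - s / 2 := by nlinarith
  set D := √(s ^ 2 - s / 2) with hD
  have hDpos : 0 < D := sqrt_pos.2 hpos
  have hD2 : D ^ 2 = s ^ 2 - s / 2 := sq_sqrt hpos.le
  have hDs : s - 1 < D := by nlinarith
  have hs' : 0 < s := by linarith
  have hc : 2 * cpar a = 4 - 2 / s := by
    unfold cpar
    have e : a - 1 = -s := by rw [hs]; ring
    rw [e]; field_simp; rw [hs]; ring
  have h2s : 2 / s < 2 := by rw [div_lt_iff₀ hs']; linarith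
  have h2s' : 0 < 2 / s := by positivity
  have hcgt : 2 < 2 * cpar a := by rw [hc]; linarith
  have hclt : 2 * cpar a < 4 := by rw [hc]; linarith
  have hmin : min 2 (2 * cpar a) = 2 := min_eq_left (by linarith)
  have hX2 : √(2 * cpar a) ^ 2 = 2 * cpar a := sq_sqrt (by linarith)
  have hX0 : 0 ≤ √(2 * cpar a) := sqrt_nonneg _
  have hX : √(2 * cpar a) < 2 := by nlinarith
  have haI : a ∉ Icc (1 / 2 : ℝ) 1 := fun h => by linarith [h.1]
  have hfl : ⌊s + D⌋₊ + 1 ≤ n ↔ s + D < n := by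
    rw [Nat.add_one_le_iff, Nat.floor_lt (by positivity)]
  rw [rotation_iff (by linarith) n, hfl, hmin]
  constructor
  · rintro ⟨-, hn, k, hk⟩
    have hnR : (1 : ℝ) ≤ n := by exact_mod_cast hn
    rw [min_eq_left (by nlinarith), max_eq_right (by nlinarith)] at hk
    have h1 : k ≤ 2 * n - 1 := by
      have : (k : ℝ) < ((n * 2 : ℕ) : ℝ) := by push_cast; exact hk.2
      have : k < n * 2 := by exact_mod_cast this
      omega
    have h1R : (k : ℝ) ≤ 2 * n - 1 := by
      have : k + 1 ≤ 2 * n := by omega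
      have : ((k + 1 : ℕ) : ℝ) ≤ ((2 * n : ℕ) : ℝ) := by exact_mod_cast this
      push_cast at this
      linarith
    have h2 : n * √(2 * cpar a) < (2 * n - 1 : ℝ) := hk.1.trans_le h1R
    have h3 : (n * √(2 * cpar a)) ^ 2 < (2 * n - 1 : ℝ) ^ 2 :=
      pow_lt_pow_left₀ h2 (by positivity) two_ne_zero
    rw [mul_pow, hX2, hc] at h3
    have h4 : s * ((n : ℝ) ^ 2 * (4 - 2 / s)) < s * (2 * n - 1 : ℝ) ^ 2 :=
      mul_lt_mul_of_pos_left h3 hs'
    have h5 : s * ((n : ℝ) ^ 2 * (4 - 2 / s)) = 4 * s * n ^ 2 - 2 * n ^ 2 := by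
      field_simp
    rw [h5] at h4
    have h6 : D ^ 2 < (n - s) ^ 2 := by rw [hD2]; nlinarith
    have h7 : |D| < |(n : ℝ) - s| := sq_lt_sq.1 h6
    rw [abs_of_pos hDpos] at h7
    rcases lt_abs.1 h7 with h | h
    · linarith
    · linarith
  · intro h
    have hnR : (0 : ℝ) < n := by linarith
    have hn : 1 ≤ n := by exact_mod_cast hnR
    have hnR1 : (1 : ℝ) ≤ n := by exact_mod_cast hn
    refine ⟨haI, hn, 2 * n - 1, ?_⟩
    rw [min_eq_left (by nlinarith), max_eq_right (by nlinarith)]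
    have e : ((2 * n - 1 : ℕ) : ℝ) = 2 * n - 1 := by
      rw [Nat.cast_sub (by omega)]; push_cast; ring
    rw [e]
    constructor
    · apply lt_of_pow_lt_pow_left₀ 2 (by linarith)
      rw [mul_pow, hX2, hc]
      have h6 : D ^ 2 < (n - s) ^ 2 := by
        apply pow_lt_pow_left₀ _ hDpos.le two_ne_zero
        linarith
      rw [hD2] at h6
      have h5 : s * ((n : ℝ) ^ 2 * (4 - 2 / s)) = 4 * s * n ^ 2 - 2 * n ^ 2 := by
        field_simp
      have h4 : s * ((n : ℝ) ^ 2 * (4 - 2 / s)) < s * (2 * n - 1 : ℝ) ^ 2 := by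
        rw [h5]; nlinarith
      exact lt_of_mul_lt_mul_left h4 hs'.le
    · linarith

theorem minRotation_of_gt {a : ℝ} (ha : 1 < a) : minRotation a =
    ((⌊(a - 1) + √((a - 1) ^ 2 + (a - 1) / 2)⌋₊ + 1 : ℕ) : ℕ∞) :=
  minRotation_eq (rotation_iff_of_gt ha)

theorem minRotation_of_neg {a : ℝ} (ha : a < 0) : minRotation a =
    ((⌊(1 - a) + √((1 - a) ^ 2 - (1 - a) / 2)⌋₊ + 1 : ℕ) : ℕ∞) :=
  minRotation_eq (rotation_iff_of_neg ha)

theorem tendsto_minRotation : Tendsto minRotation atTop (𝓝 ⊤) := by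
  rw [ENat.tendsto_nhds_top_iff_natCast_lt]
  intro N
  filter_upwards [eventually_gt_atTop ((N : ℝ) + 1)] with a ha
  have hN : (0 : ℝ) ≤ N := Nat.cast_nonneg N
  have ha1 : 1 < a := by linarith
  rw [minRotation_of_gt ha1]
  have h1 : N ≤ ⌊(a - 1) + √((a - 1) ^ 2 + (a - 1) / 2)⌋₊ := by
    apply Nat.le_floor
    have := sqrt_nonneg ((a - 1) ^ 2 + (a - 1) / 2)
    linarith
  exact_mod_cast Nat.lt_succ_of_le h1

end Pool.Agent.H98.CA
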