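import Pool.Agent.H98.CAWell

/-!
# The apsidal angle as a function of the energy
-/

namespace Pool.Agent.H98.CA

open Set Real Filter Topology MeasureTheory
open scoped Interval

/-- `w` as a function of the parameter `α`, at energy `E`. -/
noncomputable def ws (E α : ℝ) : ℝ := √E * sin α / √(1 - E * cos α ^ 2)

/-- The complementary coordinate. -/
noncomputable def us (E α : ℝ) : ℝ := √E * √(1 - E) * cos α / √(1 - E * cos α ^ 2)

lemma den_nonneg {E : ℝ} (h1 : E ≤ 1) (h0 : 0 ≤ E) (α : ℝ) : 0 ≤ 1 - E * cos α ^ 2 := by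
  have h2 := cos_sq_le_one α
  nlinarith [sq_nonneg (cos α)]

lemma den_pos {E : ℝ} (h1 : E < 1) (h0 : 0 ≤ E) (α : ℝ) : 0 < 1 - E * cos α ^ 2 := by
  have h2 := cos_sq_le_one α
  nlinarith [sq_nonneg (cos α)]

lemma ws_sq_add {E : ℝ} (h1 : E < 1) (h0 : 0 ≤ E) (α : ℝ) : ws E α ^ 2 + us E α ^ 2 = E := by
  have hd := den_pos h1 h0 α
  have hs := sq_sqrt hd.le
  have hE := sq_sqrt h0
  have hω := sq_sqrt (show (0 : ℝ) ≤ 1 - E by linarith)
  have hsc := sin_sq_add_cos_sq α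
  unfold ws us
  rw [div_pow, div_pow, hs, mul_pow, mul_pow, mul_pow, hE, hω, ← add_div, div_eq_iff hd.ne']
  have : sin α ^ 2 = 1 - cos α ^ 2 := by linarith
  rw [this]; ring

lemma ws_mem {E : ℝ} (h1 : E ≤ 1) (h0 : 0 ≤ E) (α : ℝ) : ws E α ∈ Icc (-1 : ℝ) 1 := by
  have hd := den_nonneg h1 h0 α
  rw [mem_Icc, ← abs_le]
  unfold ws
  rw [abs_div, abs_of_nonneg (sqrt_nonneg (1 - E * cos α ^ 2))]
  apply div_le_one_of_le₀ _ (sqrt_nonneg _)
  apply abs_le_of_sq_le_sq _ (sqrt_nonneg _)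
  rw [mul_pow, sq_sqrt h0, sq_sqrt hd]
  have hsc := sin_sq_add_cos_sq α
  nlinarith [sq_nonneg (sin α)]

lemma ws_mem_Ioo {E : ℝ} (h1 : E < 1) (h0 : 0 ≤ E) (α : ℝ) : ws E α ∈ Ioo (-1 : ℝ) 1 := by
  have h := ws_sq_add h1 h0 α
  rw [mem_Ioo, ← abs_lt]
  apply abs_lt_of_sq_lt_sq _ zero_le_one
  nlinarith [sq_nonneg (us E α)]

/-- `g` extended continuously to the whole line. -/
noncomputable def ge (c : ℝ) : ℝ → ℝ := IccExtend (by norm_num : (-1 : ℝ) ≤ 1)
  ((Icc (-1 : ℝ) 1).domRestrict (gb c))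

lemma continuous_ge {c : ℝ} (hc0 : 0 < c) (hc1 : c ≠ 1) : Continuous (ge c) :=
  (continuousOn_gb hc0 hc1).domRestrict.Icc_extend'

lemma ge_eq {c y : ℝ} (hy : y ∈ Icc (-1 : ℝ) 1) : ge c y = gb c y := by
  unfold ge
  rw [IccExtend_of_mem _ _ hy]
  rfl

lemma ge_bdd {c : ℝ} (hc0 : 0 < c) (hc1 : c ≠ 1) : ∃ M, ∀ y, ‖ge c y‖ ≤ M := by
  obtain ⟨M, hM⟩ := isCompact_Icc.exists_bound_of_continuousOn (continuousOn_gb hc0 hc1)
  refine ⟨M, fun y => ?_⟩
  unfold ge IccExtend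
  exact hM _ (projIcc (-1 : ℝ) 1 _ y).2

/-- The apsidal angle. -/
noncomputable def JJ (c E : ℝ) : ℝ := 1 / 2 * ∫ α in (-π)..π, ge c (ws E α)

lemma measurable_ws (E : ℝ) : Measurable (ws E) := by
  unfold ws
  fun_prop

lemma ae_sin_ne : ∀ᵐ α : ℝ, sin α ≠ 0 := by
  have h : (range fun n : ℤ => (n : ℝ) * π).Countable := countable_range _
  filter_upwards [h.ae_notMem volume] with α hα h0
  obtain ⟨n, hn⟩ := sin_eq_zero_iff.1 h0
  exact hα ⟨n, hn⟩

lemma continuous_JJ {c : ℝ} (hc0 : 0 < c) (hc1 : c ≠ 1) :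
    Continuous (fun E : Icc (0 : ℝ) 1 => JJ c E) := by
  obtain ⟨M, hM⟩ := ge_bdd hc0 hc1
  unfold JJ
  refine continuous_const.mul ?_
  refine intervalIntegral.continuous_of_dominated_interval (bound := fun _ => M) ?_ ?_
    intervalIntegrable_const ?_
  · intro E
    exact ((continuous_ge hc0 hc1).measurable.comp (measurable_ws E)).aestronglyMeasurable
  · intro E
    exact Eventually.of_forall fun α _ => hM _
  · filter_upwards [ae_sin_ne] with α hα _
    have hcos : cos α ^ 2 < 1 := by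
      have := sin_sq_add_cos_sq α
      have : 0 < sin α ^ 2 := by positivity
      linarith
    refine (continuous_ge hc0 hc1).comp ?_
    unfold ws
    have hE : Continuous fun E : Icc (0 : ℝ) 1 => (E : ℝ) := continuous_subtype_val
    refine ((hE.sqrt).mul continuous_const).div
      ((continuous_const.sub (hE.mul continuous_const)).sqrt) ?_
    intro E
    have h1 := E.2.1
    have h2 := E.2.2
    have : 0 < 1 - (E : ℝ) * cos α ^ 2 := by nlinarith [sq_nonneg (cos α)]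
    exact (sqrt_pos.2 this).ne'

lemma JJ_zero {c : ℝ} (hc0 : 0 < c) (hc1 : c ≠ 1) : JJ c 0 = 2 * π / √(2 * c) := by
  unfold JJ
  have h1 : ∀ α, ge c (ws 0 α) = 1 / √(c / 2) := by
    intro α
    have : ws 0 α = 0 := by simp [ws]
    rw [this, ge_eq (by norm_num), gb_zero hc0 hc1]
  simp only [h1]
  rw [intervalIntegral.integral_const]
  have h2 : √(2 * c) = 2 * √(c / 2) := by
    have : 2 * c = 2 ^ 2 * (c / 2) := by ring
    rw [this, sqrt_mul (by norm_num), sqrt_sq (by norm_num)]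
  have h3 : 0 < √(c / 2) := sqrt_pos.2 (by linarith)
  rw [h2, smul_eq_mul]
  field_simp
  ring

lemma ws_one_of_pos {α : ℝ} (h : 0 < sin α) : ws 1 α = 1 := by
  unfold ws
  have h1 : 1 - 1 * cos α ^ 2 = sin α ^ 2 := by
    have := sin_sq_add_cos_sq α; linarith
  rw [h1, sqrt_sq h.le, sqrt_one, one_mul, div_self h.ne']

lemma ws_one_of_neg {α : ℝ} (h : sin α < 0) : ws 1 α = -1 := by
  unfold ws
  have h1 : 1 - 1 * cos α ^ 2 = (-sin α) ^ 2 := by
    have := sin_sq_add_cos_sq α; linarith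
  rw [h1, sqrt_sq (by linarith), sqrt_one, one_mul, div_neg, div_self h.ne]

lemma JJ_one {c : ℝ} (hc0 : 0 < c) (hc1 : c ≠ 1) : JJ c 1 = 2 * π / min 2 (2 * c) := by
  have hm : 0 < min 1 c := lt_min one_pos hc0
  have h2m : min 2 (2 * c) = 2 * min 1 c := by
    rw [mul_min_of_nonneg _ _ (by norm_num : (0 : ℝ) ≤ 2), mul_one]
  have hint : IntervalIntegrable (fun α => ge c (ws 1 α)) volume (-π) 0 ∧
      IntervalIntegrable (fun α => ge c (ws 1 α)) volume 0 π := by
    obtain ⟨M, hM⟩ := ge_bdd hc0 hc1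
    have hmeas : Measurable fun α => ge c (ws 1 α) :=
      (continuous_ge hc0 hc1).measurable.comp (measurable_ws 1)
    constructor
    · refine (intervalIntegrable_const (c := M)).mono_fun hmeas.aestronglyMeasurable ?_
      exact Eventually.of_forall fun α => (hM _).trans (le_abs_self M)
    · refine (intervalIntegrable_const (c := M)).mono_fun hmeas.aestronglyMeasurable ?_
      exact Eventually.of_forall fun α => (hM _).trans (le_abs_self M)
  have hA : ∫ α in (-π)..0, ge c (ws 1 α) = ∫ α in (-π)..0, (2 / min 1 c : ℝ) := by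
    refine intervalIntegral.integral_congr_ae ?_
    filter_upwards [ae_sin_ne] with α hα hmem
    rw [uIoc_of_le (by linarith [pi_pos])] at hmem
    have hs : sin α < 0 := by
      refine lt_of_le_of_ne ?_ hα
      exact sin_nonpos_of_nonpos_of_neg_pi_le hmem.2 hmem.1.le
    rw [ws_one_of_neg hs, ge_eq (by norm_num), gb_neg_one]
  have hB : ∫ α in (0)..π, ge c (ws 1 α) = ∫ α in (0)..π, (0 : ℝ) := by
    refine intervalIntegral.integral_congr_ae ?_
    filter_upwards [ae_sin_ne] with α hα hmem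
    rw [uIoc_of_le pi_pos.le] at hmem
    have hs : 0 < sin α := by
      refine lt_of_le_of_ne ?_ hα.symm
      exact sin_nonneg_of_nonneg_of_le_pi hmem.1.le hmem.2
    rw [ws_one_of_pos hs, ge_eq (by norm_num), gb_one]
  unfold JJ
  rw [← intervalIntegral.integral_add_adjacent_intervals hint.1 hint.2, hA, hB, h2m,
    intervalIntegral.integral_const, intervalIntegral.integral_const]
  simp only [smul_eq_mul]
  field_simp
  ring

/-- Every value strictly between the two limits is attained. -/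
lemma exists_energy {c : ℝ} (hc0 : 0 < c) (hc1 : c ≠ 1) {Θ : ℝ}
    (hΘ : Θ ∈ Ioo (min (2 * π / √(2 * c)) (2 * π / min 2 (2 * c)))
      (max (2 * π / √(2 * c)) (2 * π / min 2 (2 * c)))) :
    ∃ E ∈ Ioo (0 : ℝ) 1, JJ c E = Θ := by
  have hcont := continuous_JJ hc0 hc1
  have h0 := JJ_zero hc0 hc1
  have h1 := JJ_one hc0 hc1
  have hpre : IsPreconnected (univ : Set (Icc (0 : ℝ) 1)) := by
    exact isPreconnected_univ
  have hr : Θ ∈ range fun E : Icc (0 : ℝ) 1 => JJ c E := by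
    set z : Icc (0 : ℝ) 1 := ⟨0, by norm_num⟩
    set o : Icc (0 : ℝ) 1 := ⟨1, by norm_num⟩
    rw [← h0, ← h1] at hΘ
    rcases le_total (JJ c 0) (JJ c 1) with h | h
    · rw [min_eq_left h, max_eq_right h] at hΘ
      exact mem_range_of_exists_le_of_exists_ge hcont ⟨z, hΘ.1.le⟩ ⟨o, hΘ.2.le⟩
    · rw [min_eq_right h, max_eq_left h] at hΘ
      exact mem_range_of_exists_le_of_exists_ge hcont ⟨o, hΘ.1.le⟩ ⟨z, hΘ.2.le⟩
  obtain ⟨⟨E, hE⟩, hJ⟩ := hr
  simp only at hJ
  refine ⟨E, ⟨lt_of_le_of_ne hE.1 ?_, lt_of_le_of_ne hE.2 ?_⟩, hJ⟩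
  · intro h
    rw [← h, h0] at hJ
    rw [← hJ] at hΘ
    rcases le_total (2 * π / √(2 * c)) (2 * π / min 2 (2 * c)) with h2 | h2
    · rw [min_eq_left h2] at hΘ; exact lt_irrefl _ hΘ.1
    · rw [max_eq_left h2] at hΘ; exact lt_irrefl _ hΘ.2
  · intro h
    rw [h, h1] at hJ
    rw [← hJ] at hΘ
    rcases le_total (2 * π / √(2 * c)) (2 * π / min 2 (2 * c)) with h2 | h2
    · rw [max_eq_right h2] at hΘ; exact lt_irrefl _ hΘ.2
    · rw [min_eq_right h2] at hΘ; exact lt_irrefl _ hΘ.1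

end Pool.Agent.H98.CA
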