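import Pool.Agent.H98.CANec2
import Pool.Agent.H98.CAEllipse

/-!
# The exponent `a = 1/3`: every closed extremal curve is an ellipse
-/

namespace Pool.Agent.H98.CA

open Set Real Filter Topology
open scoped ContDiff

section

variable {a T : ℝ} {γ : ℝ → ℝ × ℝ} {x y x1 y1 p F F1 F2 F3 : ℝ → ℝ}

/-- A curve with rotation number at least one meets every ray. -/
lemma meets_ray {n : ℕ} (hn : 1 ≤ n) {r θ : ℝ → ℝ} (hθ : Continuous θ)
    (hrθ : ∀ t, γ t = (r t * cos (θ t), r t * sin (θ t))) (hθn : θ T - θ 0 = 2 * π * n) (φ : ℝ) :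
    ∃ t, γ t = (r t * cos φ, r t * sin φ) := by
  have h2π : 0 < 2 * π := by positivity
  set i : ℤ := ⌈(θ 0 - φ) / (2 * π)⌉ with hi
  have h1 : (θ 0 - φ) / (2 * π) ≤ i := Int.le_ceil _
  have h2 : (i : ℝ) < (θ 0 - φ) / (2 * π) + 1 := Int.ceil_lt_add_one _
  rw [div_le_iff₀ h2π] at h1
  have h3 : (i : ℝ) * (2 * π) < θ 0 - φ + 2 * π := by
    have := mul_lt_mul_of_pos_right h2 h2π
    rwa [add_mul, one_mul, div_mul_cancel₀ _ h2π.ne'] at this
  have hn' : (1 : ℝ) ≤ n := by exact_mod_cast hn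
  obtain ⟨t, ht⟩ := mem_range_of_exists_le_of_exists_ge (c := φ + i * (2 * π)) hθ
    ⟨0, by linarith⟩ ⟨T, by nlinarith⟩
  refine ⟨t, ?_⟩
  rw [hrθ t, ht, cos_add_int_mul_two_pi, sin_add_int_mul_two_pi]

/-- The conic `Q(w) = (c1 + ℓ(w))²` with `Q > ℓ²` is an ellipse. -/
lemma kepler_conic {A B D α β c1 : ℝ} (hc1 : 0 < c1)
    (hPpos : ∀ φ : ℝ, 0 < (A * cos φ ^ 2 + 2 * B * cos φ * sin φ + D * sin φ ^ 2)
      - (α * cos φ + β * sin φ) ^ 2) :
    IsEllipse {w : ℝ × ℝ | A * w.1 ^ 2 + 2 * B * w.1 * w.2 + D * w.2 ^ 2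
        = (c1 + α * w.1 + β * w.2) ^ 2} := by
  -- positive definiteness of `Q - ℓ²`
  have hP11 : 0 < A - α ^ 2 := by
    have := hPpos 0
    simpa using this
  have hPdet : 0 < (A - α ^ 2) * (D - β ^ 2) - (B - α * β) ^ 2 := by
    obtain ⟨φ, h1, h2⟩ := exists_polar (-(B - α * β)) (A - α ^ 2)
    set N := √((-(B - α * β)) ^ 2 + (A - α ^ 2) ^ 2) with hN
    have hNpos : 0 < N ^ 2 * ((A * cos φ ^ 2 + 2 * B * cos φ * sin φ + D * sin φ ^ 2)
      - (α * cos φ + β * sin φ) ^ 2) := by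
      have : 0 < N := by rw [hN]; apply sqrt_pos.2; positivity
      have := hPpos φ
      positivity
    have h3 : N ^ 2 * ((A * cos φ ^ 2 + 2 * B * cos φ * sin φ + D * sin φ ^ 2)
      - (α * cos φ + β * sin φ) ^ 2) = (A - α ^ 2) * (N * cos φ) ^ 2
        + 2 * (B - α * β) * (N * cos φ) * (N * sin φ) + (D - β ^ 2) * (N * sin φ) ^ 2 := by
      ring
    rw [h3, ← h1, ← h2] at hNpos
    have h4 : (A - α ^ 2) * (-(B - α * β)) ^ 2 + 2 * (B - α * β) * (-(B - α * β)) * (A - α ^ 2)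
        + (D - β ^ 2) * (A - α ^ 2) ^ 2
        = (A - α ^ 2) * ((A - α ^ 2) * (D - β ^ 2) - (B - α * β) ^ 2) := by ring
    rw [h4] at hNpos
    exact (pos_iff_pos_of_mul_pos hNpos).1 hP11
  set P := A - α ^ 2 with hP
  set q := B - α * β with hq
  set S := D - β ^ 2 with hS
  set Δ := P * S - q ^ 2 with hΔ
  -- centre
  set z : ℝ × ℝ := (c1 * (S * α - q * β) / Δ, c1 * (P * β - q * α) / Δ) with hz
  have hz1 : P * z.1 + q * z.2 = c1 * α := by
    simp only [hz]; field_simp; rw [hΔ]; ring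
  have hz2 : q * z.1 + S * z.2 = c1 * β := by
    simp only [hz]; field_simp; rw [hΔ]; ring
  set K := c1 ^ 2 + (P * z.1 ^ 2 + 2 * q * z.1 * z.2 + S * z.2 ^ 2) with hK
  have hKpos : 0 < K := by
    have : 0 ≤ P * z.1 ^ 2 + 2 * q * z.1 * z.2 + S * z.2 ^ 2 := by
      have h1 : P * (P * z.1 ^ 2 + 2 * q * z.1 * z.2 + S * z.2 ^ 2)
        = (P * z.1 + q * z.2) ^ 2 + Δ * z.2 ^ 2 := by rw [hΔ]; ring
      have h2 : 0 ≤ P * (P * z.1 ^ 2 + 2 * q * z.1 * z.2 + S * z.2 ^ 2) := by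
        rw [h1]; positivity
      exact nonneg_of_mul_nonneg_right h2 hP11
    positivity
  have hexp : ∀ w : ℝ × ℝ, P * (w.1 - z.1) ^ 2 + 2 * q * (w.1 - z.1) * (w.2 - z.2)
      + S * (w.2 - z.2) ^ 2 = K ↔ A * w.1 ^ 2 + 2 * B * w.1 * w.2 + D * w.2 ^ 2
        = (c1 + α * w.1 + β * w.2) ^ 2 := by
    intro w
    have : P * (w.1 - z.1) ^ 2 + 2 * q * (w.1 - z.1) * (w.2 - z.2) + S * (w.2 - z.2) ^ 2 - K
      = A * w.1 ^ 2 + 2 * B * w.1 * w.2 + D * w.2 ^ 2 - (c1 + α * w.1 + β * w.2) ^ 2 := by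
      rw [hK]
      have e1 : P = A - α ^ 2 := rfl
      have e2 : q = B - α * β := rfl
      have e3 : S = D - β ^ 2 := rfl
      have h1 := hz1
      have h2 := hz2
      linear_combination (-2 * w.1) * h1 + (-2 * w.2) * h2 + (w.1 ^ 2) * e1
        + (2 * w.1 * w.2) * e2 + (w.2 ^ 2) * e3
    constructor
    · intro h; linarith
    · intro h; linarith
  have hell := isEllipse_conic z hP11 hPdet hKpos
  have hset : {w : ℝ × ℝ | A * w.1 ^ 2 + 2 * B * w.1 * w.2 + D * w.2 ^ 2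
        = (c1 + α * w.1 + β * w.2) ^ 2} = {w : ℝ × ℝ | P * (w.1 - z.1) ^ 2
      + 2 * q * (w.1 - z.1) * (w.2 - z.2) + S * (w.2 - z.2) ^ 2 = K} := by
    ext w
    exact (hexp w).symm
  rw [hset]
  exact hell

lemma Coord.kepler (C : Coord a T γ x y x1 y1 p F F1 F2 F3)
    (hc : ((1 / 2 : ℝ) - 2) * (a - 1) = 1) {c1 c2 A B D : ℝ} (H : Osc (1 / 2) c1 c2 F F1)
    (hA : 0 < A) (hdet : A * D - B ^ 2 = c1)
    (hQ : ∀ t, A * x t ^ 2 + 2 * B * x t * y t + D * y t ^ 2 = F t) {n : ℕ} (hn : 1 ≤ n)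
    (hrot : HasRotationNumber T γ n) : IsEllipse (range γ) := by
  have hF := C.Fpos
  have hc1 := H.c1_pos
  have hp := C.p_eq hc
  set R : ℝ → ℝ := fun t => √(F t) with hR
  have hRpos : ∀ t, 0 < R t := fun t => sqrt_pos.2 (hF t)
  have hR2 : ∀ t, R t ^ 2 = F t := fun t => sq_sqrt (hF t).le
  have hRr : ∀ t, F t ^ (1 / 2 : ℝ) = R t := fun t => (sqrt_eq_rpow (F t)).symm
  have hm1 : ∀ t, F t ^ ((1 / 2 : ℝ) - 1) = 1 / R t := by
    intro t
    rw [rpow_sub_one (hF t).ne', hRr, ← hR2]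
    have := hRpos t
    field_simp
  have hp3 : ∀ t, p t = 1 / R t ^ 3 := by
    intro t
    have e : ((1 / 2 : ℝ) - 2) = (1 / 2 - 1) - 1 := by norm_num
    rw [hp, e, rpow_sub_one (hF t).ne', hm1, ← hR2]
    have := hRpos t
    field_simp
  have dR : ∀ t, HasDerivAt R (F1 t / (2 * R t)) t := fun t =>
    (C.dF t).sqrt (hF t).ne'
  have dU1 : ∀ t, HasDerivAt (fun t => F1 t / (2 * R t)) (-(p t * (R t - c1))) t := by
    intro t
    have hRt := hRpos t
    refine ((H.dF1 t).div ((dR t).const_mul 2) (by positivity)).congr_deriv ?_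
    rw [hp3, hm1]
    have hE := H.energy t
    rw [hRr] at hE
    have hE' : F1 t * F1 t = 4 * (c2 * R t ^ 2 - R t / (1 / 2 - 1) - c1) := by
      rw [← sq, hE, hR2]
    field_simp
    linear_combination hE'
  obtain ⟨α, hα⟩ : ∃ α, ∀ t, (R t - c1) * y1 t - F1 t / (2 * R t) * y t = α := by
    refine const_exists (fun t => ?_)
    refine ((((dR t).sub_const c1).mul (C.dy1 t)).sub ((dU1 t).mul (C.dy t))).congr_deriv ?_
    ring
  obtain ⟨β, hβ⟩ : ∃ β, ∀ t, -((R t - c1) * x1 t - F1 t / (2 * R t) * x t) = β := by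
    refine const_exists (fun t => ?_)
    refine ((((dR t).sub_const c1).mul (C.dx1 t)).sub ((dU1 t).mul (C.dx t))).neg.congr_deriv ?_
    ring
  have hlin : ∀ t, R t = c1 + α * x t + β * y t := by
    intro t
    rw [← hα t, ← hβ t]
    have := C.wr t
    linear_combination (-(R t - c1)) * this
  obtain ⟨r, θ, hθ, hr, hrθ, hθn⟩ := hrot
  -- in every direction `e` we have `√Q(e) - ℓ(e) > 0`
  have hdir : ∀ φ : ℝ, ∃ t, ∃ ρ, 0 < ρ ∧ x t = ρ * cos φ ∧ y t = ρ * sin φ := by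
    intro φ
    obtain ⟨t, ht⟩ := meets_ray (γ := γ) hn hθ hrθ hθn φ
    refine ⟨t, r t, hr t, ?_, ?_⟩
    · have := C.gx t; rw [ht] at this; exact (congrArg Prod.fst this).symm
    · have := C.gx t; rw [ht] at this; exact (congrArg Prod.snd this).symm
  set Q : ℝ → ℝ := fun φ => A * cos φ ^ 2 + 2 * B * cos φ * sin φ + D * sin φ ^ 2 with hQd
  set l : ℝ → ℝ := fun φ => α * cos φ + β * sin φ with hl
  have hpoint : ∀ φ : ℝ, l φ < √(Q φ) ∧ 0 < Q φ := by
    intro φ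
    obtain ⟨t, ρ, hρ, hx, hy⟩ := hdir φ
    have h1 : F t = ρ ^ 2 * Q φ := by
      rw [← hQ t, hx, hy]; simp only [hQd]; ring
    have hQpos : 0 < Q φ := by
      have := hF t
      rw [h1] at this
      exact (pos_iff_pos_of_mul_pos this).1 (by positivity)
    have h2 : R t = ρ * √(Q φ) := by
      simp only [hR]
      rw [h1, sqrt_mul (by positivity), sqrt_sq hρ.le]
    have h3 := hlin t
    rw [h2, hx, hy] at h3
    have h4 : ρ * (√(Q φ) - l φ) = c1 := by simp only [hl]; linear_combination h3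
    refine ⟨?_, hQpos⟩
    have h5 : 0 < ρ * (√(Q φ) - l φ) := by rw [h4]; exact hc1
    have h6 := (pos_iff_pos_of_mul_pos h5).1 hρ
    linarith
  have hneg : ∀ φ : ℝ, -l φ < √(Q φ) := by
    intro φ
    have := (hpoint (φ + π)).1
    simp only [hl, hQd, cos_add_pi, sin_add_pi] at this
    have e1 : A * (-cos φ) ^ 2 + 2 * B * -cos φ * -sin φ + D * (-sin φ) ^ 2 = Q φ := by
      simp only [hQd]; ring
    have e2 : α * -cos φ + β * -sin φ = -l φ := by simp only [hl]; ring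
    rwa [e1, e2] at this
  have hPpos : ∀ φ : ℝ, 0 < Q φ - l φ ^ 2 := by
    intro φ
    have h1 := (hpoint φ).1
    have h2 := hneg φ
    have h3 : √(Q φ) ^ 2 = Q φ := sq_sqrt (hpoint φ).2.le
    nlinarith
  have hell := kepler_conic hc1 hPpos
  have hset : range γ = {w : ℝ × ℝ | A * w.1 ^ 2 + 2 * B * w.1 * w.2 + D * w.2 ^ 2
        = (c1 + α * w.1 + β * w.2) ^ 2} := by
    ext w
    simp only [mem_ofPred_eq, mem_range]
    constructor
    · rintro ⟨t, rfl⟩
      rw [C.gx t]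
      simp only
      rw [hQ t, ← hlin t, hR2]
    · intro hw
      obtain ⟨φ, hw1, hw2⟩ := exists_polar w.1 w.2
      set ρ := √(w.1 ^ 2 + w.2 ^ 2) with hρ
      have hρ0 : 0 < ρ := by
        rcases (sqrt_nonneg (w.1 ^ 2 + w.2 ^ 2)).eq_or_lt with h | h
        · exfalso
          rw [← hρ] at h
          rw [← h] at hw1 hw2
          simp only [zero_mul] at hw1 hw2
          rw [hw1, hw2] at hw
          have h9 : c1 ^ 2 = 0 := by linarith
          exact hc1.ne' (pow_eq_zero_iff two_ne_zero |>.1 h9)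
        · exact h
      obtain ⟨t, ρ', hρ', hx, hy⟩ := hdir φ
      have h1 : ρ' * (√(Q φ) - l φ) = c1 := by
        have h3 := hlin t
        have h4 : F t = ρ' ^ 2 * Q φ := by
          rw [← hQ t, hx, hy]; simp only [hQd]; ring
        have h2 : R t = ρ' * √(Q φ) := by
          simp only [hR]
          rw [h4, sqrt_mul (by positivity), sqrt_sq hρ'.le]
        rw [h2, hx, hy] at h3
        simp only [hl]; linear_combination h3
      have h2 : ρ * (√(Q φ) - l φ) = c1 := by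
        rw [hw1, hw2] at hw
        have h3 : √(Q φ) ^ 2 = Q φ := sq_sqrt (hpoint φ).2.le
        have h4 : (ρ * √(Q φ)) ^ 2 = (c1 + ρ * l φ) ^ 2 := by
          rw [mul_pow, h3]; simp only [hQd, hl]; linear_combination hw
        have h5 : (ρ * √(Q φ) - (c1 + ρ * l φ)) * (ρ * √(Q φ) + (c1 + ρ * l φ)) = 0 := by
          linear_combination h4
        rcases mul_eq_zero.1 h5 with h6 | h6
        · linear_combination h6
        · exfalso
          have h7 : 0 < ρ * (√(Q φ) - (-l φ)) := mul_pos hρ0 (by linarith [hneg φ])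
          have h8 : ρ * (√(Q φ) - (-l φ)) = -c1 := by linear_combination h6
          linarith
      have hpos : 0 < √(Q φ) - l φ := by linarith [(hpoint φ).1]
      have hρρ : ρ' = ρ := mul_right_cancel₀ hpos.ne' (h1.trans h2.symm)
      refine ⟨t, ?_⟩
      rw [C.gx t, hx, hy, hρρ, ← hw1, ← hw2]
  rw [hset]
  exact hell

end

end Pool.Agent.H98.CA
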