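import Pool.Agent.H98.CADefs
import Pool.Agent.H98.CABounds
import Pool.Agent.H98.CAPolar

/-!
# From an extremal curve to the reduced equation
-/

namespace Pool.Agent.H98.CA

open Set Real Filter Topology
open scoped ContDiff

lemma hasDerivAt_fst {γ : ℝ → ℝ × ℝ} {γ' : ℝ × ℝ} {t : ℝ} (h : HasDerivAt γ γ' t) :
    HasDerivAt (fun t => (γ t).1) γ'.1 t := by
  have := (ContinuousLinearMap.fst ℝ ℝ ℝ).hasFDerivAt.comp_hasDerivAt t h
  exact this

lemma hasDerivAt_snd {γ : ℝ → ℝ × ℝ} {γ' : ℝ × ℝ} {t : ℝ} (h : HasDerivAt γ γ' t) :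
    HasDerivAt (fun t => (γ t).2) γ'.2 t := by
  have := (ContinuousLinearMap.snd ℝ ℝ ℝ).hasFDerivAt.comp_hasDerivAt t h
  exact this

lemma const_exists {g : ℝ → ℝ} (hd : ∀ t, HasDerivAt g 0 t) : ∃ A, ∀ t, g t = A :=
  ⟨g 0, fun t => is_const_of_deriv_eq_zero (fun t => (hd t).differentiableAt)
    (fun t => (hd t).deriv) t 0⟩

/-- Coordinates of an extremal curve. -/
structure Coord (a T : ℝ) (γ : ℝ → ℝ × ℝ) (x y x1 y1 p F F1 F2 F3 : ℝ → ℝ) : Prop where
  gx : ∀ t, γ t = (x t, y t)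
  gx1 : ∀ t, deriv γ t = (x1 t, y1 t)
  dx : ∀ t, HasDerivAt x (x1 t) t
  dy : ∀ t, HasDerivAt y (y1 t) t
  dx1 : ∀ t, HasDerivAt x1 (-(p t * x t)) t
  dy1 : ∀ t, HasDerivAt y1 (-(p t * y t)) t
  wr : ∀ t, x t * y1 t - y t * x1 t = 1
  ppos : ∀ t, 0 < p t
  Fdef : ∀ t, F t = p t ^ (a - 1)
  dF : ∀ t, HasDerivAt F (F1 t) t
  dF1 : ∀ t, HasDerivAt F1 (F2 t) t
  dF2 : ∀ t, HasDerivAt F2 (F3 t) t
  dp : ∃ p' : ℝ → ℝ, (∀ t, HasDerivAt p (p' t) t) ∧
    ∀ t, 1 / 2 * F3 t + 2 * p t * F1 t + p' t * F t = 0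
  xper : ∀ t, x (t + T) = x t
  yper : ∀ t, y (t + T) = y t
  Fper : ∀ t, F (t + T) = F t

lemma coord_of_extremal {a T : ℝ} {γ : ℝ → ℝ × ℝ} (H : IsExtremal a T γ) :
    ∃ x y x1 y1 p F F1 F2 F3, Coord a T γ x y x1 y1 p F F1 F2 F3 := by
  have s0 := H.smooth
  have s1 : ContDiff ℝ ∞ (deriv γ) := (contDiff_infty_iff_deriv.1 s0).2
  have s2 : ContDiff ℝ ∞ (deriv (deriv γ)) := (contDiff_infty_iff_deriv.1 s1).2
  have d0 : ∀ t, HasDerivAt γ (deriv γ t) t := fun t =>
    ((contDiff_infty_iff_deriv.1 s0).1 t).hasDerivAt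
  have d1 : ∀ t, HasDerivAt (deriv γ) (deriv (deriv γ) t) t := fun t =>
    ((contDiff_infty_iff_deriv.1 s1).1 t).hasDerivAt
  have sp : ContDiff ℝ ∞ (curv γ) := by
    unfold curv det2
    exact (s1.fst.mul s2.snd).sub (s1.snd.mul s2.fst)
  have sF : ContDiff ℝ ∞ (potF a γ) := by
    unfold potF
    exact sp.rpow_const_of_ne (fun t => (H.curv_pos t).ne')
  have sF1 : ContDiff ℝ ∞ (deriv (potF a γ)) := (contDiff_infty_iff_deriv.1 sF).2
  have sF2 : ContDiff ℝ ∞ (deriv (deriv (potF a γ))) := (contDiff_infty_iff_deriv.1 sF1).2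
  have dx := fun t => hasDerivAt_fst (d0 t)
  have dy := fun t => hasDerivAt_snd (d0 t)
  have dx1 := fun t => hasDerivAt_fst (d1 t)
  have dy1 := fun t => hasDerivAt_snd (d1 t)
  have wr : ∀ t, (γ t).1 * (deriv γ t).2 - (γ t).2 * (deriv γ t).1 = 1 := fun t =>
    H.centroaffine t
  -- [γ,γ''] = 0
  have wr2 : ∀ t, (γ t).1 * (deriv (deriv γ) t).2 - (γ t).2 * (deriv (deriv γ) t).1 = 0 := by
    intro t
    have h1 := ((dx t).mul (dy1 t)).sub ((dy t).mul (dx1 t))
    have h2 : HasDerivAt (fun t => (γ t).1 * (deriv γ t).2 - (γ t).2 * (deriv γ t).1) 0 t := by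
      have : (fun t => (γ t).1 * (deriv γ t).2 - (γ t).2 * (deriv γ t).1) = fun _ => (1 : ℝ) :=
        funext wr
      rw [this]; exact hasDerivAt_const _ _
    have h3 := h1.unique h2
    linarith
  have hcurv : ∀ t, curv γ t = (deriv γ t).1 * (deriv (deriv γ) t).2
    - (deriv γ t).2 * (deriv (deriv γ) t).1 := fun t => rfl
  have gper1 : ∀ t, deriv γ (t + T) = deriv γ t := by
    intro t
    have h1 := (d0 (t + T)).comp_add_const t T
    have h2 : (fun t => γ (t + T)) = γ := funext H.periodic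
    rw [h2] at h1
    exact h1.unique (d0 t)
  have gper2 : ∀ t, deriv (deriv γ) (t + T) = deriv (deriv γ) t := by
    intro t
    have h1 := (d1 (t + T)).comp_add_const t T
    have h2 : (fun t => deriv γ (t + T)) = deriv γ := funext gper1
    rw [h2] at h1
    exact h1.unique (d1 t)
  refine ⟨fun t => (γ t).1, fun t => (γ t).2, fun t => (deriv γ t).1, fun t => (deriv γ t).2,
    curv γ, potF a γ, deriv (potF a γ), deriv (deriv (potF a γ)),
    deriv (deriv (deriv (potF a γ))), ?_⟩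
  refine ⟨fun t => rfl, fun t => rfl, dx, dy, ?_, ?_, wr, H.curv_pos, fun t => rfl, ?_, ?_, ?_,
    ⟨deriv (curv γ), ?_, H.euler⟩, ?_, ?_, ?_⟩
  · intro t
    refine (dx1 t).congr_deriv ?_
    rw [hcurv]
    have h1 := wr t
    have h2 := wr2 t
    linear_combination (-(deriv (deriv γ) t).1) * h1 + (deriv γ t).1 * h2
  · intro t
    refine (dy1 t).congr_deriv ?_
    rw [hcurv]
    have h1 := wr t
    have h2 := wr2 t
    linear_combination (-(deriv (deriv γ) t).2) * h1 + (deriv γ t).2 * h2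
  · exact fun t => ((contDiff_infty_iff_deriv.1 sF).1 t).hasDerivAt
  · exact fun t => ((contDiff_infty_iff_deriv.1 sF1).1 t).hasDerivAt
  · exact fun t => ((contDiff_infty_iff_deriv.1 sF2).1 t).hasDerivAt
  · exact fun t => ((contDiff_infty_iff_deriv.1 sp).1 t).hasDerivAt
  · intro t; simp only [H.periodic]
  · intro t; simp only [H.periodic]
  · intro t
    simp only [potF, curv, gper1, gper2]

section

variable {a T : ℝ} {γ : ℝ → ℝ × ℝ} {x y x1 y1 p F F1 F2 F3 : ℝ → ℝ}

lemma Coord.Fpos (C : Coord a T γ x y x1 y1 p F F1 F2 F3) (t : ℝ) : 0 < F t := by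
  rw [C.Fdef]; exact rpow_pos_of_pos (C.ppos t) _

/-- `p = F^(c-2)`. -/
lemma Coord.p_eq (C : Coord a T γ x y x1 y1 p F F1 F2 F3) {c : ℝ} (hc : (c - 2) * (a - 1) = 1)
    (t : ℝ) : p t = F t ^ (c - 2) := by
  rw [C.Fdef, ← rpow_mul (C.ppos t).le, mul_comm, hc, rpow_one]

/-- If the curvature is constant, the image is an ellipse. -/
lemma Coord.ellipse_of_const (C : Coord a T γ x y x1 y1 p F F1 F2 F3) {P : ℝ}
    (hP : ∀ t, p t = P) : IsEllipse (range γ) := by
  have hPpos : 0 < P := hP 0 ▸ C.ppos 0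
  set w := √P with hw
  have hwpos : 0 < w := sqrt_pos.2 hPpos
  have hw2 : P = w * w := (mul_self_sqrt hPpos.le).symm
  have sol : ∀ (u u1 : ℝ → ℝ), (∀ t, HasDerivAt u (u1 t) t) →
      (∀ t, HasDerivAt u1 (-(p t * u t)) t) →
      ∀ t, u t = cos (w * t) * u 0 + sin (w * t) * (u1 0 / w) := by
    intro u u1 hu hu1 t
    have dw : ∀ t, HasDerivAt (fun t => w * t) w t := fun t => by
      simpa using (hasDerivAt_id t).const_mul w
    have h1 : ∀ t, HasDerivAt (fun t => u t * cos (w * t) - u1 t / w * sin (w * t)) 0 t := by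
      intro t
      refine (((hu t).mul (dw t).cos).sub (((hu1 t).div_const w).mul (dw t).sin)).congr_deriv ?_
      rw [hP, hw2]
      field_simp
      ring
    have h2 : ∀ t, HasDerivAt (fun t => u t * sin (w * t) + u1 t / w * cos (w * t)) 0 t := by
      intro t
      refine (((hu t).mul (dw t).sin).add (((hu1 t).div_const w).mul (dw t).cos)).congr_deriv ?_
      rw [hP, hw2]
      field_simp
      ring
    have e1 := is_const_of_deriv_eq_zero (fun t => (h1 t).differentiableAt)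
      (fun t => (h1 t).deriv) t 0
    have e2 := is_const_of_deriv_eq_zero (fun t => (h2 t).differentiableAt)
      (fun t => (h2 t).deriv) t 0
    simp only [mul_zero, cos_zero, sin_zero, mul_one, sub_zero, zero_add] at e1 e2
    have hsc := sin_sq_add_cos_sq (w * t)
    linear_combination (cos (w * t)) * e1 + (sin (w * t)) * e2 - (u t) * hsc
  have hx := sol x x1 C.dx C.dx1
  have hy := sol y y1 C.dy C.dy1
  refine ⟨0, (x 0, y 0), (x1 0 / w, y1 0 / w), ?_, ?_⟩
  · unfold det2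
    simp only
    have : x 0 * (y1 0 / w) - y 0 * (x1 0 / w) = 1 / w := by
      rw [← C.wr 0]; ring
    rw [this]; positivity
  · ext q
    constructor
    · rintro ⟨t, rfl⟩
      refine ⟨w * t, ?_⟩
      rw [C.gx, hx t, hy t]
      simp
    · rintro ⟨s, rfl⟩
      refine ⟨s / w, ?_⟩
      rw [C.gx, hx (s / w), hy (s / w)]
      have : w * (s / w) = s := by field_simp
      rw [this]
      simp

/-- The reduced equation, together with the invariant quadratic form. -/
lemma Coord.osc (C : Coord a T γ x y x1 y1 p F F1 F2 F3) (hT : 0 < T) {c : ℝ}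
    (hc : (c - 2) * (a - 1) = 1) (hc1 : c ≠ 1) :
    ∃ c1 c2 A B D : ℝ, Osc c c1 c2 F F1 ∧ 0 < A ∧ A * D - B ^ 2 = c1 ∧
      (∀ t, A * x t ^ 2 + 2 * B * x t * y t + D * y t ^ 2 = F t) := by
  have hcne : c - 1 ≠ 0 := sub_ne_zero.2 hc1
  obtain ⟨p', dp, hODE⟩ := C.dp
  have hFpos := C.Fpos
  have hp := C.p_eq hc
  -- derivative of p
  have hp' : ∀ t, p' t = (c - 2) * F t ^ (c - 2) / F t * F1 t := by
    intro t
    have h1 := hasDerivAt_rpow' (c - 2) (C.dF t) (hFpos t)
    have h2 : (fun t => F t ^ (c - 2)) = p := funext fun t => (hp t).symm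
    rw [h2] at h1
    exact (dp t).unique h1
  have hS1 : ∀ t, F t ^ (c - 1) = F t ^ (c - 2) * F t := by
    intro t
    rw [← rpow_add_one (hFpos t).ne']; congr 1; ring
  have hS : ∀ t, F t ^ c = F t ^ (c - 2) * F t * F t := by
    intro t
    rw [← hS1, ← rpow_add_one (hFpos t).ne']; congr 1; ring
  have hF3 : ∀ t, F3 t = -2 * c * F t ^ (c - 2) * F1 t := by
    intro t
    have h1 := hODE t
    rw [hp' t, hp t] at h1
    have := (hFpos t).ne'
    field_simp at h1
    linarith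
  -- first constant
  obtain ⟨c2, hc2⟩ : ∃ c2, ∀ t, 1 / 2 * F2 t + c / (c - 1) * F t ^ (c - 1) = c2 := by
    refine ⟨1 / 2 * F2 0 + c / (c - 1) * F 0 ^ (c - 1), fun t => ?_⟩
    have hd : ∀ t, HasDerivAt (fun t => 1 / 2 * F2 t + c / (c - 1) * F t ^ (c - 1)) 0 t := by
      intro t
      refine (((C.dF2 t).const_mul (1 / 2)).add
        ((hasDerivAt_rpow' (c - 1) (C.dF t) (hFpos t)).const_mul (c / (c - 1)))).congr_deriv ?_
      rw [hF3, hS1]
      have := (hFpos t).ne'
      field_simp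
      ring
    exact is_const_of_deriv_eq_zero (fun t => (hd t).differentiableAt) (fun t => (hd t).deriv) t 0
  -- second constant
  set f1 : ℝ → ℝ := fun t => 1 / 2 * F t * F2 t - 1 / 4 * F1 t ^ 2 + p t * F t ^ 2 with hf1
  obtain ⟨c1, hc1'⟩ : ∃ c1, ∀ t, 1 / 2 * F t * F2 t - 1 / 4 * F1 t ^ 2 + p t * F t ^ 2 = c1 := by
    refine ⟨f1 0, fun t => ?_⟩
    have hd : ∀ t, HasDerivAt f1 0 t := by
      intro t
      refine (((((C.dF t).const_mul (1 / 2)).mul (C.dF1 t |> fun h => (C.dF2 t))).sub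
        (((C.dF1 t).pow 2).const_mul (1 / 4))).add ((dp t).mul ((C.dF t).pow 2))).congr_deriv ?_
      rw [hp' t, hp t, hF3]
      have := (hFpos t).ne'
      simp
      field_simp
      ring
    exact is_const_of_deriv_eq_zero (fun t => (hd t).differentiableAt) (fun t => (hd t).deriv) t 0
  -- positivity of c1
  have hc1pos : 0 < c1 := by
    have hFc : Continuous F := continuous_iff_continuousAt.2 fun t => (C.dF t).continuousAt
    have hP : Function.Periodic F T := C.Fper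
    have hcomp : IsCompact (range F) := hP.compact_of_continuous hT.ne' hFc
    obtain ⟨m, ⟨σ, rfl⟩, hm⟩ := hcomp.exists_isLeast (range_nonempty F)
    have hmin : ∀ t, F σ ≤ F t := fun t => hm ⟨t, rfl⟩
    have hloc : IsLocalMin F σ := Eventually.of_forall hmin
    have h1 : F1 σ = 0 := hloc.hasDerivAt_eq_zero (C.dF σ)
    have hdF : deriv F = F1 := funext fun t => (C.dF t).deriv
    have hdF1 : deriv F1 = F2 := funext fun t => (C.dF1 t).deriv
    have h2 : 0 ≤ F2 σ := by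
      by_contra hcon
      rw [not_le] at hcon
      have hmax : IsLocalMax F σ := by
        apply isLocalMax_of_deriv_deriv_neg
        · rw [hdF, hdF1]; exact hcon
        · rw [hdF]; exact h1
        · exact (C.dF σ).continuousAt
      have heq : F =ᶠ[𝓝 σ] fun _ => F σ := by
        filter_upwards [hmax] with t ht
        exact le_antisymm ht (hmin t)
      have h3 : deriv F =ᶠ[𝓝 σ] fun _ => (0 : ℝ) := by
        have := heq.deriv
        simpa using this
      have h4 : deriv (deriv F) σ = 0 := by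
        rw [h3.deriv_eq]; simp
      rw [hdF, hdF1] at h4
      linarith
    rw [← hc1' σ, h1]
    have := hFpos σ
    have := C.ppos σ
    have h5 : 0 < p σ * F σ ^ 2 := by positivity
    have h6 : 0 ≤ 1 / 2 * F σ * F2 σ := by positivity
    nlinarith
  have hF2 : ∀ t, F2 t = 2 * (c2 - c / (c - 1) * F t ^ (c - 1)) := by
    intro t; have := hc2 t; linarith
  have hOsc : Osc c c1 c2 F F1 := by
    refine ⟨hc1pos, hc1, hFpos, C.dF, ?_, ?_⟩
    · intro t
      exact (C.dF1 t).congr_deriv (hF2 t)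
    · intro t
      have h1 := hc1' t
      rw [hF2, hp t, hS1 t] at h1
      rw [hS t]
      field_simp
      field_simp at h1
      linear_combination (-1) * h1
  -- the quadratic form
  have hwr := C.wr
  obtain ⟨A, hA⟩ : ∃ A, ∀ t, y1 t ^ 2 * F t - y t * y1 t * F1 t
      + y t ^ 2 * (1 / 2 * F2 t + p t * F t) = A := by
    refine const_exists (fun t => ?_)
    refine (((((C.dy1 t).pow 2).mul (C.dF t)).sub (((C.dy t).mul (C.dy1 t)).mul (C.dF1 t))).add
      (((C.dy t).pow 2).mul (((C.dF2 t).const_mul (1 / 2)).add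
        ((dp t).mul (C.dF t))))).congr_deriv ?_
    have h1 := hODE t
    simp only [Pi.add_apply, Pi.mul_apply, Pi.pow_apply]
    simp
    linear_combination (y t ^ 2) * h1
  obtain ⟨B, hB⟩ : ∃ B, ∀ t, -(x1 t * y1 t * F t) + 1 / 2 * (x t * y1 t + x1 t * y t) * F1 t
      - x t * y t * (1 / 2 * F2 t + p t * F t) = B := by
    refine const_exists (fun t => ?_)
    refine (((((C.dx1 t).mul (C.dy1 t)).mul (C.dF t)).neg.add
      (((((C.dx t).mul (C.dy1 t)).add ((C.dx1 t).mul (C.dy t))).const_mul (1 / 2)).mul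
        (C.dF1 t))).sub
      (((C.dx t).mul (C.dy t)).mul (((C.dF2 t).const_mul (1 / 2)).add
        ((dp t).mul (C.dF t))))).congr_deriv ?_
    have h1 := hODE t
    simp only [Pi.add_apply, Pi.mul_apply, Pi.pow_apply]
    linear_combination (-(x t * y t)) * h1
  obtain ⟨D, hD⟩ : ∃ D, ∀ t, x1 t ^ 2 * F t - x t * x1 t * F1 t
      + x t ^ 2 * (1 / 2 * F2 t + p t * F t) = D := by
    refine const_exists (fun t => ?_)
    refine (((((C.dx1 t).pow 2).mul (C.dF t)).sub (((C.dx t).mul (C.dx1 t)).mul (C.dF1 t))).add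
      (((C.dx t).pow 2).mul (((C.dF2 t).const_mul (1 / 2)).add
        ((dp t).mul (C.dF t))))).congr_deriv ?_
    have h1 := hODE t
    simp only [Pi.add_apply, Pi.mul_apply, Pi.pow_apply]
    simp
    linear_combination (x t ^ 2) * h1
  have hQ : ∀ t, A * x t ^ 2 + 2 * B * x t * y t + D * y t ^ 2 = F t := by
    intro t
    rw [← hA t, ← hB t, ← hD t]
    have h1 := hwr t
    linear_combination (F t * (x t * y1 t - y t * x1 t + 1)) * h1
  have hdet : A * D - B ^ 2 = c1 := by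
    rw [← hc1' 0, ← hA 0, ← hB 0, ← hD 0]
    have h1 := hwr 0
    linear_combination ((F 0 * (1 / 2 * F2 0 + p 0 * F 0) - 1 / 4 * F1 0 ^ 2)
      * (x 0 * y1 0 - y 0 * x1 0 + 1)) * h1
  refine ⟨c1, c2, A, B, D, hOsc, ?_, hdet, hQ⟩
  -- A > 0
  have hAD : 0 < A * D := by nlinarith [sq_nonneg B]
  have hq := hQ 0
  by_contra hcon
  rw [not_lt] at hcon
  have hA0 : A ≠ 0 := by rintro rfl; simp at hAD
  have hAneg : A < 0 := lt_of_le_of_ne hcon hA0
  have h1 : A * F 0 = (A * x 0 + B * y 0) ^ 2 + c1 * y 0 ^ 2 := by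
    rw [← hq, ← hdet]; ring
  have h2 : A * F 0 < 0 := mul_neg_of_neg_of_pos hAneg (hFpos 0)
  have h3 : 0 ≤ (A * x 0 + B * y 0) ^ 2 + c1 * y 0 ^ 2 := by positivity
  linarith

end

end Pool.Agent.H98.CA
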