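import Pool.Agent.H98.CANec

/-!
# Necessary condition for the rotation number
-/

namespace Pool.Agent.H98.CA

open Set Real Filter Topology
open scoped ContDiff

section

variable {a T : ℝ} {γ : ℝ → ℝ × ℝ} {x y x1 y1 p F F1 F2 F3 : ℝ → ℝ}

/-- The rotation number in terms of `∫ ω / F`. -/
lemma Coord.angle (C : Coord a T γ x y x1 y1 p F F1 F2 F3) {c1 A B D : ℝ} (hc1 : 0 < c1)
    (hA : 0 < A) (hdet : A * D - B ^ 2 = c1)
    (hQ : ∀ t, A * x t ^ 2 + 2 * B * x t * y t + D * y t ^ 2 = F t) {n : ℕ}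
    (hrot : HasRotationNumber T γ n) :
    ∃ ψ : ℝ → ℝ, (∀ t, HasDerivAt ψ (√c1 / F t) t) ∧ ψ T - ψ 0 = 2 * π * n := by
  obtain ⟨r, θ, hθ, hr, hrθ, hθn⟩ := hrot
  have hω : 0 < √c1 := sqrt_pos.2 hc1
  have hω2 : √c1 ^ 2 = c1 := sq_sqrt hc1.le
  have hF := C.Fpos
  set z1 : ℝ → ℝ := fun t => A * x t + B * y t with hz1
  set z2 : ℝ → ℝ := fun t => √c1 * y t with hz2
  have dz1 : ∀ t, HasDerivAt z1 (A * x1 t + B * y1 t) t := fun t =>
    ((C.dx t).const_mul A).add ((C.dy t).const_mul B)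
  have dz2 : ∀ t, HasDerivAt z2 (√c1 * y1 t) t := fun t => (C.dy t).const_mul _
  have hR : ∀ t, z1 t ^ 2 + z2 t ^ 2 = A * F t := by
    intro t
    rw [← hQ t]
    simp only [hz1, hz2]
    rw [mul_pow, hω2, ← hdet]; ring
  have hRpos : ∀ t, 0 < z1 t ^ 2 + z2 t ^ 2 := fun t => by
    rw [hR]; exact mul_pos hA (hF t)
  obtain ⟨φ, hφ1, hφ2⟩ := exists_polar (z1 0) (z2 0)
  have hcont : Continuous (fun t => √c1 / F t) := by
    refine continuous_const.div ?_ (fun t => (hF t).ne')
    exact continuous_iff_continuousAt.2 fun t => (C.dF t).continuousAt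
  set ψ : ℝ → ℝ := fun t => φ + ∫ s in (0 : ℝ)..t, √c1 / F s with hψ
  have dψ : ∀ t, HasDerivAt ψ (√c1 / F t) t := fun t => by
    have := intervalIntegral.integral_hasDerivAt_right (hcont.intervalIntegrable 0 t)
      (hcont.stronglyMeasurableAtFilter _ _) hcont.continuousAt
    exact this.const_add φ
  have hψ0 : ψ 0 = φ := by simp [hψ]
  have hpol := polar_rep dz1 dz2 hRpos (ψ := ψ) (t₀ := 0) (fun t => by
    refine (dψ t).congr_deriv ?_
    rw [hR]
    have h1 := C.wr t
    have : (z1 t * (√c1 * y1 t) - z2 t * (A * x1 t + B * y1 t)) = √c1 * A := by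
      simp only [hz1, hz2]
      linear_combination (√c1 * A) * h1
    rw [this]
    have := (hF t).ne'
    field_simp) (by rw [hψ0]; exact hφ1) (by rw [hψ0]; exact hφ2)
  refine ⟨ψ, dψ, ?_⟩
  have hψc : Continuous ψ := continuous_iff_continuousAt.2 fun t => (dψ t).continuousAt
  -- the two angles are never opposite
  have hne : ∀ t, cos (ψ t - θ t) ≠ -1 := by
    intro t h
    have hs : sin (ψ t - θ t) = 0 := by
      have := sin_sq_add_cos_sq (ψ t - θ t)
      rw [h] at this
      have h2 : sin (ψ t - θ t) ^ 2 = 0 := by linarith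
      exact pow_eq_zero_iff two_ne_zero |>.1 h2
    have e1 : cos (ψ t) = -cos (θ t) := by
      have : ψ t = (ψ t - θ t) + θ t := by ring
      rw [this, cos_add, h, hs]; ring
    have e2 : sin (ψ t) = -sin (θ t) := by
      have : ψ t = (ψ t - θ t) + θ t := by ring
      rw [this, sin_add, h, hs]; ring
    obtain ⟨p1, p2⟩ := hpol t
    have hx : x t = r t * cos (θ t) := by
      have := C.gx t; rw [hrθ t] at this
      exact (congrArg Prod.fst this).symm
    have hy : y t = r t * sin (θ t) := by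
      have := C.gx t; rw [hrθ t] at this
      exact (congrArg Prod.snd this).symm
    have hsR := sqrt_pos.2 (hRpos t)
    rw [e2] at p2
    rw [e1] at p1
    have h3 : sin (θ t) = 0 := by
      have h4 : sin (θ t) * (√c1 * r t + √(z1 t ^ 2 + z2 t ^ 2)) = 0 := by
        have hz : z2 t = √c1 * (r t * sin (θ t)) := by simp only [hz2]; rw [hy]
        linear_combination p2 - hz
      rcases mul_eq_zero.1 h4 with h5 | h5
      · exact h5
      · have := mul_pos hω (hr t)
        linarith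
    have hy0 : y t = 0 := by rw [hy, h3, mul_zero]
    have h6 : cos (θ t) = 0 := by
      have h4 : cos (θ t) * (A * r t + √(z1 t ^ 2 + z2 t ^ 2)) = 0 := by
        have hz : z1 t = A * (r t * cos (θ t)) := by simp only [hz1]; rw [hy0, hx]; ring
        linear_combination p1 - hz
      rcases mul_eq_zero.1 h4 with h5 | h5
      · exact h5
      · have := mul_pos hA (hr t)
        linarith
    have := sin_sq_add_cos_sq (θ t)
    rw [h3, h6] at this
    norm_num at this
  obtain ⟨p1, p2⟩ := hpol T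
  obtain ⟨q1, q2⟩ := hpol 0
  have hxT : x T = x 0 := by have := C.xper 0; rwa [zero_add] at this
  have hyT : y T = y 0 := by have := C.yper 0; rwa [zero_add] at this
  have hz1T : z1 T = z1 0 := by simp only [hz1]; rw [hxT, hyT]
  have hz2T : z2 T = z2 0 := by simp only [hz2]; rw [hyT]
  have hsR := sqrt_pos.2 (hRpos 0)
  rw [hz1T, hz2T] at p1 p2
  have ec : cos (ψ T) = cos (ψ 0) := by
    have : √(z1 0 ^ 2 + z2 0 ^ 2) * cos (ψ T) = √(z1 0 ^ 2 + z2 0 ^ 2) * cos (ψ 0) := by
      rw [← p1, ← q1]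
    exact mul_left_cancel₀ hsR.ne' this
  have es : sin (ψ T) = sin (ψ 0) := by
    have : √(z1 0 ^ 2 + z2 0 ^ 2) * sin (ψ T) = √(z1 0 ^ 2 + z2 0 ^ 2) * sin (ψ 0) := by
      rw [← p2, ← q2]
    exact mul_left_cancel₀ hsR.ne' this
  obtain ⟨m, hm⟩ := exists_int_of_cos_sin ec es
  have hδ : (ψ T - θ T) - (ψ 0 - θ 0) = ((m - n : ℤ) : ℝ) * (2 * π) := by
    push_cast
    linarith
  have := lift_compare (δ := fun t => ψ t - θ t) (hψc.sub hθ) hne hδ
  have hmn : (m : ℝ) = n := by
    have : m = n := by omega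
    rw [this]; simp
  rw [hm, hmn]; ring

/-- No nonconstant solutions for `c ≤ 0`. -/
lemma Osc.const_of_nonpos {c c1 c2 : ℝ} (H : Osc c c1 c2 F F1) (hc0 : c ≤ 0) (hT : 0 < T)
    (hper : ∀ t, F (t + T) = F t) : ∀ t, F1 t = 0 := by
  by_contra hcon
  have hnc : ∃ t, F1 t ≠ 0 := by
    by_contra h; push Not at h; exact hcon h
  have hc1 := H.c1_pos
  have hω : 0 < √c1 := sqrt_pos.2 hc1
  have hcne : c - 1 ≠ 0 := sub_ne_zero.2 H.c_ne
  have hG : ∀ x > 0, HasDerivAt (fun x : ℝ => 2 * (c2 - c / (c - 1) * x ^ (c - 1)))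
      (2 * (-(c / (c - 1) * ((c - 1) * x ^ (c - 1 - 1))))) x := by
    intro x hx
    exact (((hasDerivAt_rpow_const (p := c - 1) (Or.inl hx.ne')).const_mul (c / (c - 1))).const_sub
      c2).const_mul 2
  have hG' : ContinuousOn (fun x : ℝ => 2 * (-(c / (c - 1) * ((c - 1) * x ^ (c - 1 - 1)))))
      (Ioi 0) := by
    refine continuousOn_const.mul ((continuousOn_const.mul (continuousOn_const.mul ?_)).neg)
    exact fun x hx => (continuousAt_rpow_const x _ (Or.inl (ne_of_gt hx))).continuousWithinAt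
  obtain ⟨τ, h, k, hh, hk, hTk, h0, h1, hneg, hr1, hr2⟩ :=
    half_period hG hG' H.dF H.dF1 H.pos hT hper hnc
  -- sign of c2
  have hF1c : ContinuousOn F1 (Icc τ (τ + h)) := fun t _ =>
    (H.dF1 t).continuousAt.continuousWithinAt
  obtain ⟨s, -, hs⟩ := exists_hasDerivAt_eq_zero (by linarith : τ < τ + h) hF1c
    (by rw [h0, h1]) (fun t _ => H.dF1 t)
  have hc1neg : c - 1 < 0 := by linarith
  have hc2 : 0 ≤ c2 := by
    have h3 : c2 = c / (c - 1) * F s ^ (c - 1) := by linarith
    rw [h3]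
    exact mul_nonneg (div_nonneg_of_nonpos hc0 hc1neg.le) (rpow_pos_of_pos (H.pos s) _).le
  have hcont : Continuous (fun t => √c1 / F t) := by
    refine continuous_const.div ?_ (fun t => (H.pos t).ne')
    exact continuous_iff_continuousAt.2 fun t => (H.dF t).continuousAt
  set ψ : ℝ → ℝ := fun t => ∫ s in (0 : ℝ)..t, √c1 / F s with hψ
  have dψ : ∀ t, HasDerivAt ψ (√c1 / F t) t := fun t =>
    intervalIntegral.integral_hasDerivAt_right (hcont.intervalIntegrable 0 t)
      (hcont.stronglyMeasurableAtFilter _ _) hcont.continuousAt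
  have hmono := strictMono_of_rate dψ (fun t => div_pos hω (H.pos t))
  have hΔpos : 0 < ψ (τ + h) - ψ τ := sub_pos.2 (hmono (by linarith))
  set Δ := ψ (τ + h) - ψ τ with hΔ
  have key : π / (π / Δ) < Δ := by
    refine H.delta_gt dψ hh h0 h1 hneg 0 (div_pos pi_pos hΔpos) ?_
    intro t _
    have h5 : 0 < (π / Δ) ^ 2 := by have := div_pos pi_pos hΔpos; positivity
    have h6 : kap c c1 c2 0 F t ≤ 0 := by
      unfold kap
      apply div_nonpos_of_nonpos_of_nonneg _ hc1.le
      have h7 : 0 ≤ c2 * F t := mul_nonneg hc2 (H.pos t).le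
      have h8 : 2 * c ^ 2 * F t ^ c / (c - 1) ≤ 0 := by
        apply div_nonpos_of_nonneg_of_nonpos _ hc1neg.le
        have := rpow_pos_of_pos (H.pos t) c
        positivity
      have e : 4 * (0 : ℝ) ^ 2 * c1 + (1 - 0) * (4 * 0 - 2) * c2 * F t
        + (c - 0) * (2 * c - 4 * 0) * F t ^ c / (c - 1)
        = -2 * (c2 * F t) + 2 * c ^ 2 * F t ^ c / (c - 1) := by ring
      rw [e]; linarith
    linarith
  have : π / (π / Δ) = Δ := by
    have := pi_pos
    field_simp
  rw [this] at key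
  exact lt_irrefl _ key

end

end Pool.Agent.H98.CA
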