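import Pool.Agent.H98.CAJ
import Pool.Agent.H98.CAPolar

/-!
# Construction of the periodic solution of given energy
-/

namespace Pool.Agent.H98.CA

open Set Real Filter Topology MeasureTheory
open scoped Interval

/-- Change of time. -/
lemma time_change {ρ : ℝ → ℝ} (hc : Continuous ρ) (hpos : ∀ α, 0 < ρ α)
    (hper : ∀ α, ρ (α + 2 * π) = ρ α) :
    ∃ (A : ℝ → ℝ) (T1 : ℝ), 0 < T1 ∧ (∀ t, HasDerivAt A (ρ (A t))⁻¹ t) ∧
      (∀ t, A (t + T1) = A t + 2 * π) ∧ (∀ α, ∃ t, A t = α) ∧ StrictMono A := by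
  set τ : ℝ → ℝ := fun α => ∫ s in (0 : ℝ)..α, ρ s with hτ
  have dτ : ∀ α, HasDerivAt τ (ρ α) α := fun α =>
    intervalIntegral.integral_hasDerivAt_right (hc.intervalIntegrable 0 α)
      (hc.stronglyMeasurableAtFilter _ _) hc.continuousAt
  have hmono : StrictMono τ := strictMono_of_deriv_pos (fun α => by rw [(dτ α).deriv]; exact hpos α)
  have hcont : Continuous τ := continuous_iff_continuousAt.2 fun t => (dτ t).continuousAt
  have hτ0 : τ 0 = 0 := by simp [hτ]
  have hP : Function.Periodic ρ (2 * π) := hper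
  set T1 := τ (2 * π) with hT1
  have hT1pos : 0 < T1 := by
    have := hmono (show (0 : ℝ) < 2 * π by positivity)
    rwa [hτ0] at this
  have hadd : ∀ α, τ (α + 2 * π) = τ α + T1 := by
    intro α
    have h1 : ∫ s in (0 : ℝ)..(α + 2 * π), ρ s = (∫ s in (0 : ℝ)..α, ρ s)
        + ∫ s in α..(α + 2 * π), ρ s :=
      (intervalIntegral.integral_add_adjacent_intervals (hc.intervalIntegrable _ _)
        (hc.intervalIntegrable _ _)).symm
    have h2 := hP.intervalIntegral_add_eq α 0
    rw [zero_add] at h2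
    simp only [hτ] at h1 ⊢
    rw [h1, h2]
  have hg : Function.Periodic (fun α => τ α - T1 / (2 * π) * α) (2 * π) := by
    intro α
    simp only
    rw [hadd]
    have := pi_pos
    field_simp
    ring
  have hint : ∀ j : ℤ, τ (j * (2 * π)) = j * T1 := by
    intro j
    have h1 := hg.int_mul j 0
    simp only [zero_add, hτ0, mul_zero, sub_zero] at h1
    have h2 : τ (j * (2 * π)) = T1 / (2 * π) * (j * (2 * π)) := by linarith
    rw [h2]
    have := pi_pos
    field_simp
  have hsurj : Function.Surjective τ := by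
    intro t
    obtain ⟨N, hN⟩ := exists_nat_gt (|t| / T1)
    rw [div_lt_iff₀ hT1pos] at hN
    have h1 := abs_lt.1 hN
    have h2 := hint N
    have h3 := hint (-N)
    push_cast at h2 h3
    exact mem_range_of_exists_le_of_exists_ge hcont ⟨_, h3.le.trans (by linarith)⟩
      ⟨_, (le_of_lt h1.2).trans h2.ge⟩
  set e := hmono.orderIsoOfSurjective τ hsurj with he
  have hright : ∀ t, τ (e.symm t) = t := fun t => hmono.orderIsoOfSurjective_self_symm_apply τ hsurj t
  refine ⟨e.symm, T1, hT1pos, ?_, ?_, ?_, e.symm.strictMono⟩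
  · intro t
    refine HasDerivAt.of_local_left_inverse e.symm.continuous.continuousAt (dτ _) (hpos _).ne' ?_
    exact Eventually.of_forall hright
  · intro t
    apply hmono.injective
    rw [hright, hadd, hright]
  · intro α
    exact ⟨τ α, hmono.injective (hright _)⟩

section

variable {E : ℝ}

lemma hasDerivAt_den (h1 : E < 1) (h0 : 0 ≤ E) (α : ℝ) :
    HasDerivAt (fun α => √(1 - E * cos α ^ 2)) (E * cos α * sin α / √(1 - E * cos α ^ 2)) α := by
  have hd := den_pos h1 h0 α
  have h2 : HasDerivAt (fun α => 1 - E * cos α ^ 2) (2 * E * cos α * sin α) α := by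
    refine ((((hasDerivAt_cos α).pow 2).const_mul E).const_sub 1).congr_deriv ?_
    simp; ring
  refine (h2.sqrt hd.ne').congr_deriv ?_
  have := sqrt_pos.2 hd
  field_simp

lemma hasDerivAt_ws (h1 : E < 1) (h0 : 0 ≤ E) (α : ℝ) :
    HasDerivAt (ws E) (us E α * √(1 - E) / (1 - E * cos α ^ 2)) α := by
  have hd := den_pos h1 h0 α
  have hs := sqrt_pos.2 hd
  have hs2 := sq_sqrt hd.le
  have hω2 := sq_sqrt (show (0 : ℝ) ≤ 1 - E by linarith)
  have hsc := sin_sq_add_cos_sq α
  refine (((hasDerivAt_sin α).const_mul (√E)).div (hasDerivAt_den h1 h0 α) hs.ne').congr_deriv ?_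
  unfold us
  set D := √(1 - E * cos α ^ 2) with hD
  rw [← hs2]
  field_simp
  rw [hs2, hω2]
  linear_combination (-E * √E * cos α) * hsc

lemma hasDerivAt_us (h1 : E < 1) (h0 : 0 ≤ E) (α : ℝ) :
    HasDerivAt (us E) (-(ws E α * √(1 - E) / (1 - E * cos α ^ 2))) α := by
  have hd := den_pos h1 h0 α
  have hs := sqrt_pos.2 hd
  have hs2 := sq_sqrt hd.le
  refine (((hasDerivAt_cos α).const_mul (√E * √(1 - E))).div
    (hasDerivAt_den h1 h0 α) hs.ne').congr_deriv ?_
  unfold ws
  set D := √(1 - E * cos α ^ 2) with hD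
  rw [← hs2]
  field_simp
  rw [hs2]
  ring

lemma one_sub_ws_sq (h1 : E < 1) (h0 : 0 ≤ E) (α : ℝ) :
    1 - ws E α ^ 2 = (1 - E) / (1 - E * cos α ^ 2) := by
  have hd := den_pos h1 h0 α
  have hsc := sin_sq_add_cos_sq α
  unfold ws
  rw [div_pow, mul_pow, sq_sqrt h0, sq_sqrt hd.le]
  field_simp
  linear_combination (-E) * hsc

end

/-- The solution of energy `E`. -/
theorem exists_solution {c E : ℝ} (hc0 : 0 < c) (hc1 : c ≠ 1) (hE : E ∈ Ioo (0 : ℝ) 1) :
    ∃ (v u ψ : ℝ → ℝ) (T1 t0 : ℝ), 0 < T1 ∧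
      (∀ t, HasDerivAt v (2 * u t * exp (-v t)) t) ∧
      (∀ t, HasDerivAt u (-(n1 c (v t) * exp (-v t))) t) ∧
      (∀ t, HasDerivAt ψ (√(1 - E) * exp (-v t)) t) ∧
      (∀ t, u t ^ 2 + nn c (v t) = E) ∧
      (∀ t, v (t + T1) = v t) ∧ (∀ t, u (t + T1) = u t) ∧
      (∀ t, ψ (t + T1) = ψ t + JJ c E) ∧
      (∀ t, v t = v t0 → ∃ j : ℤ, t = t0 + j * T1) ∧
      (∀ y : ℝ, ∃ t, ψ t = y) ∧ (∃ t, u t ≠ 0) := by
  have h0 : 0 ≤ E := hE.1.le
  have h1 : E < 1 := hE.2
  obtain ⟨V, hV⟩ := exists_ww_gt_one hc0 hc1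
  set ω := √(1 - E) with hω
  have hωpos : 0 < ω := sqrt_pos.2 (by linarith)
  have hω2 : ω ^ 2 = 1 - E := sq_sqrt (by linarith)
  -- the functions of the parameter `α`
  set va : ℝ → ℝ := fun α => LL c (ws E α) with hva
  have hmem := ws_mem_Ioo h1 h0
  have hww : ∀ α, ww c (va α) = ws E α := fun α =>
    ww_LL hc0 hc1 (hmem α).1 ((hmem α).2.trans hV)
  have hcw : Continuous (ws E) :=
    continuous_iff_continuousAt.2 fun α => (hasDerivAt_ws h1 h0 α).continuousAt
  have hcva : Continuous va := by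
    rw [continuous_iff_continuousAt]
    intro α
    exact ContinuousAt.comp (continuousAt_LL hc0 hc1 (hmem α).1 ((hmem α).2.trans hV))
      hcw.continuousAt
  have dva : ∀ α, HasDerivAt va ((kk c (va α))⁻¹ * (us E α * ω / (1 - E * cos α ^ 2))) α :=
    fun α => (hasDerivAt_LL hc0 hc1 (hmem α).1 ((hmem α).2.trans hV)).comp α
      (hasDerivAt_ws h1 h0 α)
  have hden := den_pos h1 h0
  have hk : ∀ α, 0 < kk c (va α) := fun α => kk_pos hc0 hc1 _
  have hcden : Continuous fun α => 1 - E * cos α ^ 2 := by fun_prop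
  set ρ : ℝ → ℝ := fun α => exp (va α) * ω / (2 * (1 - E * cos α ^ 2) * kk c (va α)) with hρ
  have hcρ : Continuous ρ := by
    refine (hcva.rexp.mul continuous_const).div
      ((continuous_const.mul hcden).mul ((continuous_kk hc0 hc1).comp hcva)) (fun α => ?_)
    have := hden α
    have := hk α
    positivity
  have hρpos : ∀ α, 0 < ρ α := fun α => by
    have := hden α
    have := hk α
    simp only [hρ]
    positivity
  have hwper : ∀ α, ws E (α + 2 * π) = ws E α := fun α => by
    simp only [ws, sin_add_two_pi, cos_add_two_pi]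
  have huper : ∀ α, us E (α + 2 * π) = us E α := fun α => by
    simp only [us, cos_add_two_pi]
  have hvper : ∀ α, va (α + 2 * π) = va α := fun α => by simp only [hva, hwper]
  have hρper : ∀ α, ρ (α + 2 * π) = ρ α := fun α => by
    simp only [hρ, hvper, cos_add_two_pi]
  obtain ⟨A, T1, hT1, dA, hA, hAs, hAm⟩ := time_change hcρ hρpos hρper
  -- the angle
  set Ψ : ℝ → ℝ := fun α => 1 / 2 * ∫ s in (0 : ℝ)..α, ge c (ws E s) with hΨ
  have hcg : Continuous fun s => ge c (ws E s) := (continuous_ge hc0 hc1).comp hcw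
  have dΨ : ∀ α, HasDerivAt Ψ (1 / 2 * ((1 - E) / (1 - E * cos α ^ 2) / kk c (va α))) α := by
    intro α
    have h2 := (intervalIntegral.integral_hasDerivAt_right (hcg.intervalIntegrable 0 α)
      (hcg.stronglyMeasurableAtFilter _ _) hcg.continuousAt).const_mul (1 / 2)
    refine h2.congr_deriv ?_
    rw [ge_eq ⟨(hmem α).1.le, (hmem α).2.le⟩]
    unfold gb
    rw [if_neg (not_le.2 (hmem α).1), one_sub_ws_sq h1 h0]
  have hΨadd : ∀ α, Ψ (α + 2 * π) = Ψ α + JJ c E := by
    intro α
    have hP : Function.Periodic (fun s => ge c (ws E s)) (2 * π) := fun s => by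
      simp only [hwper]
    have h2 : ∫ s in (0 : ℝ)..(α + 2 * π), ge c (ws E s) = (∫ s in (0 : ℝ)..α, ge c (ws E s))
        + ∫ s in α..(α + 2 * π), ge c (ws E s) :=
      (intervalIntegral.integral_add_adjacent_intervals (hcg.intervalIntegrable _ _)
        (hcg.intervalIntegrable _ _)).symm
    have h3 := hP.intervalIntegral_add_eq α (-π)
    have e : -π + 2 * π = π := by ring
    rw [e] at h3
    simp only [hΨ, JJ]
    rw [h2, h3]; ring
  obtain ⟨t0, ht0⟩ := hAs (π / 2)
  have hws0 : ws E (π / 2) = √E := by simp [ws]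
  have hcosin : ∀ α, ws E α = √E → ∃ j : ℤ, α - π / 2 = j * (2 * π) := by
    intro α hα
    have h2 := ws_sq_add h1 h0 α
    rw [hα, sq_sqrt h0] at h2
    have h3 : us E α = 0 := by
      have : us E α ^ 2 = 0 := by linarith
      exact pow_eq_zero_iff two_ne_zero |>.1 this
    have h4 : cos α = 0 := by
      unfold us at h3
      rw [div_eq_zero_iff] at h3
      rcases h3 with h3 | h3
      · have h5 : √E * √(1 - E) ≠ 0 := mul_ne_zero (sqrt_pos.2 hE.1).ne' hωpos.ne'
        exact (mul_eq_zero.1 h3).resolve_left h5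
      · exact absurd h3 (sqrt_pos.2 (hden α)).ne'
    have h5 : sin α = 1 := by
      unfold ws at hα
      rw [h4] at hα
      simp only [ne_eq, OfNat.ofNat_ne_zero, not_false_eq_true, zero_pow, mul_zero, sub_zero,
        sqrt_one, div_one] at hα
      have h6 : √E * sin α = √E * 1 := by rw [hα, mul_one]
      exact mul_left_cancel₀ (sqrt_pos.2 hE.1).ne' h6
    exact exists_int_of_cos_sin (by rw [h4, cos_pi_div_two]) (by rw [h5, sin_pi_div_two])
  refine ⟨fun t => va (A t), fun t => us E (A t), fun t => Ψ (A t), T1, t0, hT1, ?_, ?_, ?_, ?_,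
    ?_, ?_, ?_, ?_, ?_, ?_⟩
  · intro t
    refine ((dva (A t)).comp t (dA t)).congr_deriv ?_
    simp only [hρ]
    have h2 := hden (A t)
    have h3 := hk (A t)
    have h4 := exp_pos (va (A t))
    rw [exp_neg]
    field_simp
  · intro t
    refine ((hasDerivAt_us h1 h0 (A t)).comp t (dA t)).congr_deriv ?_
    simp only [hρ]
    have h2 := hden (A t)
    have h3 := hk (A t)
    have h4 := exp_pos (va (A t))
    rw [exp_neg, ← two_ww_kk hc0 hc1, hww, ← hω]
    field_simp
  · intro t
    refine ((dΨ (A t)).comp t (dA t)).congr_deriv ?_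
    simp only [hρ]
    have h2 := hden (A t)
    have h3 := hk (A t)
    have h4 := exp_pos (va (A t))
    rw [exp_neg, ← hω2]
    field_simp
  · intro t
    simp only
    rw [← ww_sq hc0 hc1, hww, add_comm]
    exact ws_sq_add h1 h0 _
  · intro t; simp only; rw [hA, hvper]
  · intro t; simp only; rw [hA, huper]
  · intro t; simp only; rw [hA, hΨadd]
  · intro t ht
    simp only at ht
    have h2 : ws E (A t) = √E := by
      rw [← hww, ht, hww, ht0, hws0]
    obtain ⟨j, hj⟩ := hcosin _ h2
    refine ⟨j, ?_⟩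
    apply hAm.injective
    have hg : Function.Periodic (fun t => A t - 2 * π / T1 * t) T1 := by
      intro t
      simp only
      rw [hA]
      field_simp
      ring
    have h3 := hg.int_mul j t0
    have h4 : A (t0 + j * T1) = A t0 + j * (2 * π) := by
      have : 2 * π / T1 * (t0 + j * T1) = 2 * π / T1 * t0 + j * (2 * π) := by field_simp
      linarith
    rw [h4, ht0]; linarith
  · intro y
    have hg : Function.Periodic (fun α => Ψ α - JJ c E / (2 * π) * α) (2 * π) := by
      intro α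
      simp only
      rw [hΨadd]
      have := pi_pos
      field_simp
      ring
    have hcΨ : Continuous Ψ := continuous_iff_continuousAt.2 fun t => (dΨ t).continuousAt
    have hΨm : StrictMono Ψ := strictMono_of_deriv_pos (fun α => by
      rw [(dΨ α).deriv]
      have h2 := hden α
      have h3 := hk α
      have h4 : 0 < 1 - E := by linarith
      positivity)
    have hΨ0 : Ψ 0 = 0 := by simp [hΨ]
    have hJ : 0 < JJ c E := by
      have h2 := hΨadd 0
      rw [hΨ0, zero_add, zero_add] at h2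
      rw [← h2, ← hΨ0]
      exact hΨm (by positivity)
    have hint : ∀ j : ℤ, Ψ (j * (2 * π)) = j * JJ c E := by
      intro j
      have h2 := hg.int_mul j 0
      simp only [zero_add, hΨ0, mul_zero, sub_zero] at h2
      have h3 : Ψ (j * (2 * π)) = JJ c E / (2 * π) * (j * (2 * π)) := by linarith
      rw [h3]
      have := pi_pos
      field_simp
    obtain ⟨N, hN⟩ := exists_nat_gt (|y| / JJ c E)
    rw [div_lt_iff₀ hJ] at hN
    have h5 := abs_lt.1 hN
    have h6 := hint N
    have h7 := hint (-N)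
    push_cast at h6 h7
    obtain ⟨α, hα⟩ := mem_range_of_exists_le_of_exists_ge (c := y) hcΨ
      ⟨_, h7.le.trans (by linarith)⟩ ⟨_, (le_of_lt h5.2).trans h6.ge⟩
    obtain ⟨t, ht⟩ := hAs α
    exact ⟨t, by simp only; rw [ht, hα]⟩
  · obtain ⟨t, ht⟩ := hAs 0
    refine ⟨t, ?_⟩
    simp only
    rw [ht]
    have h2 : us E 0 = √E := by
      simp only [us, cos_zero, one_pow, mul_one]
      rw [mul_div_assoc, div_self hωpos.ne', mul_one]
    rw [h2]
    exact (sqrt_pos.2 hE.1).ne'

end Pool.Agent.H98.CA
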