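import Mathlib

/-!
# Sturm comparison on one half-oscillation, and the symmetry of periodic solutions
-/

namespace Pool.Agent.H98.CA

open Set Real Filter Topology

/-- A function positive on `(α,β)` which vanishes at `β` has nonpositive derivative there. -/
lemma deriv_nonpos_of_pos_left {Y : ℝ → ℝ} {α β d : ℝ} (hαβ : α < β)
    (hpos : ∀ t ∈ Ioo α β, 0 < Y t) (hβ : Y β = 0) (hd : HasDerivAt Y d β) : d ≤ 0 := by
  have h1 : Tendsto (slope Y β) (𝓝[<] β) (𝓝 d) :=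
    (hasDerivAt_iff_tendsto_slope.1 hd).mono_left
      (nhdsWithin_mono _ (fun x hx => ne_of_lt hx))
  refine le_of_tendsto h1 ?_
  filter_upwards [Ioo_mem_nhdsLT hαβ] with t ht
  rw [slope_def_field, hβ, sub_zero]
  exact div_nonpos_of_nonneg_of_nonpos (hpos t ht).le (by linarith [ht.2])

section Sturm

variable {ψ ρ Y Y1 κ : ℝ → ℝ} {α β μ : ℝ}

/-- Derivative of the Wronskian with `sin (μ (ψ - ψ α))`. -/
lemma wronskian_deriv (hψ : ∀ t, HasDerivAt ψ (ρ t) t)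
    (hY : ∀ t, HasDerivAt Y (ρ t * Y1 t) t)
    (hY1 : ∀ t, HasDerivAt Y1 (-(ρ t * κ t * Y t)) t) (μ s t : ℝ) :
    HasDerivAt (fun t => Y1 t * sin (μ * (ψ t - s)) - μ * Y t * cos (μ * (ψ t - s)))
      (ρ t * (μ ^ 2 - κ t) * Y t * sin (μ * (ψ t - s))) t := by
  have ha : HasDerivAt (fun t => μ * (ψ t - s)) (μ * ρ t) t := ((hψ t).sub_const s).const_mul μ
  have h1 := (hY1 t).mul ha.sin
  have h2 := ((hY t).const_mul μ).mul ha.cos
  refine (h1.sub h2).congr_deriv ?_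
  ring

lemma strictMono_of_rate (hψ : ∀ t, HasDerivAt ψ (ρ t) t) (hρ : ∀ t, 0 < ρ t) : StrictMono ψ :=
  strictMono_of_deriv_pos (fun t => by rw [(hψ t).deriv]; exact hρ t)

/-- Sturm comparison, upper bound: if `κ > μ²` then the half-oscillation is shorter than `π/μ`. -/
lemma sturm_lt (hμ : 0 < μ) (hαβ : α < β) (hρ : ∀ t, 0 < ρ t)
    (hψ : ∀ t, HasDerivAt ψ (ρ t) t)
    (hY : ∀ t, HasDerivAt Y (ρ t * Y1 t) t)
    (hY1 : ∀ t, HasDerivAt Y1 (-(ρ t * κ t * Y t)) t)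
    (hpos : ∀ t ∈ Ioo α β, 0 < Y t) (hYα : Y α = 0)
    (hκ : ∀ t ∈ Ioo α β, μ ^ 2 < κ t) (hYβ : Y β = 0) : ψ β - ψ α < π / μ := by
  by_contra hcon
  rw [not_lt] at hcon
  have hmono := strictMono_of_rate hψ hρ
  have hcont : Continuous ψ := continuous_iff_continuousAt.2 fun t => (hψ t).continuousAt
  have hπμ : 0 < π / μ := div_pos pi_pos hμ
  obtain ⟨β', hβ'mem, hβ'⟩ : ∃ x ∈ Icc α β, ψ x = ψ α + π / μ := by
    have := intermediate_value_Icc hαβ.le hcont.continuousOn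
    exact this ⟨by linarith, by linarith⟩
  have hαβ' : α < β' := by
    rcases hβ'mem.1.eq_or_lt with h | h
    · rw [← h] at hβ'; linarith
    · exact h
  set W : ℝ → ℝ := fun t => Y1 t * sin (μ * (ψ t - ψ α)) - μ * Y t * cos (μ * (ψ t - ψ α)) with hW
  have hWd := wronskian_deriv hψ hY hY1 μ (ψ α)
  have hanti : StrictAntiOn W (Icc α β') := by
    refine strictAntiOn_of_deriv_neg (convex_Icc _ _)
      (fun t _ => (hWd t).continuousAt.continuousWithinAt) ?_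
    intro t ht
    rw [interior_Icc] at ht
    rw [(hWd t).deriv]
    have ht' : t ∈ Ioo α β := ⟨ht.1, ht.2.trans_le hβ'mem.2⟩
    have h1 : 0 < ψ t - ψ α := sub_pos.2 (hmono ht.1)
    have h2 : ψ t - ψ α < π / μ := by have := hmono ht.2; linarith
    have hs : 0 < sin (μ * (ψ t - ψ α)) := by
      apply sin_pos_of_pos_of_lt_pi (mul_pos hμ h1)
      calc μ * (ψ t - ψ α) < μ * (π / μ) := mul_lt_mul_of_pos_left h2 hμ
        _ = π := by field_simp
    have h3 : ρ t * (μ ^ 2 - κ t) < 0 := mul_neg_of_pos_of_neg (hρ t) (by linarith [hκ t ht'])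
    exact mul_neg_of_neg_of_pos (mul_neg_of_neg_of_pos h3 (hpos t ht')) hs
  have hlt := hanti (left_mem_Icc.2 hαβ'.le) (right_mem_Icc.2 hαβ'.le) hαβ'
  have hWα : W α = 0 := by simp [hW, hYα]
  have hWβ : W β' = μ * Y β' := by
    have : μ * (ψ β' - ψ α) = π := by rw [hβ']; field_simp; ring
    simp only [hW, this, sin_pi, cos_pi]; ring
  have hYβ' : 0 ≤ Y β' := by
    rcases hβ'mem.2.eq_or_lt with h | h
    · rw [h, hYβ]
    · exact (hpos β' ⟨hαβ', h⟩).le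
  rw [hWα, hWβ] at hlt
  exact absurd hlt (not_lt.2 (mul_nonneg hμ.le hYβ'))

/-- Sturm comparison, lower bound: if `κ < μ²` then the half-oscillation is longer than `π/μ`. -/
lemma sturm_gt (hμ : 0 < μ) (hαβ : α < β) (hρ : ∀ t, 0 < ρ t)
    (hψ : ∀ t, HasDerivAt ψ (ρ t) t)
    (hY : ∀ t, HasDerivAt Y (ρ t * Y1 t) t)
    (hY1 : ∀ t, HasDerivAt Y1 (-(ρ t * κ t * Y t)) t)
    (hpos : ∀ t ∈ Ioo α β, 0 < Y t) (hYα : Y α = 0)
    (hκ : ∀ t ∈ Ioo α β, κ t < μ ^ 2) (hYβ : Y β = 0) : π / μ < ψ β - ψ α := by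
  by_contra hcon
  rw [not_lt] at hcon
  have hmono := strictMono_of_rate hψ hρ
  have hπμ : 0 < π / μ := div_pos pi_pos hμ
  set W : ℝ → ℝ := fun t => Y1 t * sin (μ * (ψ t - ψ α)) - μ * Y t * cos (μ * (ψ t - ψ α)) with hW
  have hWd := wronskian_deriv hψ hY hY1 μ (ψ α)
  have hstr : StrictMonoOn W (Icc α β) := by
    refine strictMonoOn_of_deriv_pos (convex_Icc _ _)
      (fun t _ => (hWd t).continuousAt.continuousWithinAt) ?_
    intro t ht
    rw [interior_Icc] at ht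
    rw [(hWd t).deriv]
    have h1 : 0 < ψ t - ψ α := sub_pos.2 (hmono ht.1)
    have h2 : ψ t - ψ α < π / μ := by have := hmono ht.2; linarith
    have hs : 0 < sin (μ * (ψ t - ψ α)) := by
      apply sin_pos_of_pos_of_lt_pi (mul_pos hμ h1)
      calc μ * (ψ t - ψ α) < μ * (π / μ) := mul_lt_mul_of_pos_left h2 hμ
        _ = π := by field_simp
    have h3 : 0 < ρ t * (μ ^ 2 - κ t) := mul_pos (hρ t) (by linarith [hκ t ht])
    exact mul_pos (mul_pos h3 (hpos t ht)) hs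
  have hlt := hstr (left_mem_Icc.2 hαβ.le) (right_mem_Icc.2 hαβ.le) hαβ
  have hWα : W α = 0 := by simp [hW, hYα]
  have hWβ : W β = Y1 β * sin (μ * (ψ β - ψ α)) := by
    simp only [hW, hYβ]; ring
  have hY1β : Y1 β ≤ 0 := by
    have := deriv_nonpos_of_pos_left hαβ hpos hYβ (hY β)
    by_contra h
    rw [not_le] at h
    exact absurd this (not_le.2 (mul_pos (hρ β) h))
  have hsin : 0 ≤ sin (μ * (ψ β - ψ α)) := by
    apply sin_nonneg_of_nonneg_of_le_pi
    · exact mul_nonneg hμ.le (sub_nonneg.2 (hmono hαβ).le)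
    · calc μ * (ψ β - ψ α) ≤ μ * (π / μ) := mul_le_mul_of_nonneg_left hcon hμ.le
        _ = π := by field_simp
  rw [hWα, hWβ] at hlt
  exact absurd hlt (not_lt.2 (mul_nonpos_of_nonpos_of_nonneg hY1β hsin))

end Sturm

end Pool.Agent.H98.CA
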