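import Mathlib

/-!
# The potential well and its square-root coordinate
-/

namespace Pool.Agent.H98.CA

open Set Real Filter Topology

/-- The well `n(v) = 1 - (c e^v - e^{cv})/(c-1)`. -/
noncomputable def nn (c v : ℝ) : ℝ := 1 - (c * exp v - exp (c * v)) / (c - 1)

/-- its derivative -/
noncomputable def n1 (c v : ℝ) : ℝ := c * (exp (c * v) - exp v) / (c - 1)

/-- its second derivative -/
noncomputable def n2 (c v : ℝ) : ℝ := c * (c * exp (c * v) - exp v) / (c - 1)

section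

variable {c : ℝ}

lemma hasDerivAt_nn (v : ℝ) : HasDerivAt (nn c) (n1 c v) v := by
  have hlin : HasDerivAt (fun v : ℝ => c * v) c v := by
    simpa using (hasDerivAt_id v).const_mul c
  have h1 := (((hasDerivAt_exp v).const_mul c).sub hlin.exp).div_const (c - 1)
  refine (h1.const_sub 1).congr_deriv ?_
  unfold n1
  ring

lemma hasDerivAt_n1 (v : ℝ) : HasDerivAt (n1 c) (n2 c v) v := by
  have hlin : HasDerivAt (fun v : ℝ => c * v) c v := by
    simpa using (hasDerivAt_id v).const_mul c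
  have h1 := ((hlin.exp.sub (hasDerivAt_exp v)).const_mul c).div_const (c - 1)
  refine h1.congr_deriv ?_
  unfold n2
  ring

lemma n2_zero (hc1 : c ≠ 1) : n2 c 0 = c := by
  have : c - 1 ≠ 0 := sub_ne_zero.2 hc1
  unfold n2
  simp
  field_simp

lemma nn_zero (hc1 : c ≠ 1) : nn c 0 = 0 := by
  have : c - 1 ≠ 0 := sub_ne_zero.2 hc1
  unfold nn
  simp [div_self this]

lemma n1_zero : n1 c 0 = 0 := by unfold n1; simp

lemma n1_pos (hc0 : 0 < c) (hc1 : c ≠ 1) {v : ℝ} (hv : 0 < v) : 0 < n1 c v := by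
  unfold n1
  rcases lt_or_gt_of_ne hc1 with h | h
  · have h1 : c * v < v := by nlinarith
    have h2 := exp_lt_exp.2 h1
    apply div_pos_of_neg_of_neg
    · exact mul_neg_of_pos_of_neg hc0 (by linarith)
    · linarith
  · have h1 : v < c * v := by nlinarith
    have h2 := exp_lt_exp.2 h1
    apply div_pos
    · exact mul_pos hc0 (by linarith)
    · linarith

lemma n1_neg (hc0 : 0 < c) (hc1 : c ≠ 1) {v : ℝ} (hv : v < 0) : n1 c v < 0 := by
  unfold n1
  rcases lt_or_gt_of_ne hc1 with h | h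
  · have h1 : v < c * v := by nlinarith
    have h2 := exp_lt_exp.2 h1
    apply div_neg_of_pos_of_neg
    · exact mul_pos hc0 (by linarith)
    · linarith
  · have h1 : c * v < v := by nlinarith
    have h2 := exp_lt_exp.2 h1
    apply div_neg_of_neg_of_pos
    · exact mul_neg_of_pos_of_neg hc0 (by linarith)
    · linarith

lemma continuous_nn : Continuous (nn c) :=
  continuous_iff_continuousAt.2 fun v => (hasDerivAt_nn v).continuousAt

lemma continuous_n1 : Continuous (n1 c) :=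
  continuous_iff_continuousAt.2 fun v => (hasDerivAt_n1 v).continuousAt

lemma nn_pos (hc0 : 0 < c) (hc1 : c ≠ 1) {v : ℝ} (hv : v ≠ 0) : 0 < nn c v := by
  rcases lt_or_gt_of_ne hv with h | h
  · have hanti : StrictAntiOn (nn c) (Iic 0) := by
      refine strictAntiOn_of_deriv_neg (convex_Iic 0) continuous_nn.continuousOn ?_
      intro x hx
      rw [interior_Iic] at hx
      rw [(hasDerivAt_nn x).deriv]; exact n1_neg hc0 hc1 hx
    have := hanti h.le (mem_Iic.2 le_rfl) h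
    rwa [nn_zero hc1] at this
  · have hmono : StrictMonoOn (nn c) (Ici 0) := by
      refine strictMonoOn_of_deriv_pos (convex_Ici 0) continuous_nn.continuousOn ?_
      intro x hx
      rw [interior_Ici] at hx
      rw [(hasDerivAt_nn x).deriv]; exact n1_pos hc0 hc1 hx
    have := hmono (mem_Ici.2 le_rfl) h.le h
    rwa [nn_zero hc1] at this

/-- The square-root coordinate `w(v) = sgn(v) √n(v)`. -/
noncomputable def ww (c v : ℝ) : ℝ := if 0 ≤ v then √(nn c v) else -√(nn c v)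

lemma ww_sq (hc0 : 0 < c) (hc1 : c ≠ 1) (v : ℝ) : ww c v ^ 2 = nn c v := by
  have h : 0 ≤ nn c v := by
    rcases eq_or_ne v 0 with rfl | hv
    · rw [nn_zero hc1]
    · exact (nn_pos hc0 hc1 hv).le
  unfold ww
  split_ifs
  · exact sq_sqrt h
  · rw [neg_sq]; exact sq_sqrt h

lemma ww_zero (hc1 : c ≠ 1) : ww c 0 = 0 := by simp [ww, nn_zero hc1]

lemma ww_pos (hc0 : 0 < c) (hc1 : c ≠ 1) {v : ℝ} (hv : 0 < v) : 0 < ww c v := by
  unfold ww; rw [if_pos hv.le]; exact sqrt_pos.2 (nn_pos hc0 hc1 hv.ne')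

lemma ww_neg (hc0 : 0 < c) (hc1 : c ≠ 1) {v : ℝ} (hv : v < 0) : ww c v < 0 := by
  unfold ww; rw [if_neg (not_le.2 hv)]
  have := sqrt_pos.2 (nn_pos hc0 hc1 hv.ne)
  linarith

/-- The derivative of `w`. -/
noncomputable def kk (c v : ℝ) : ℝ := if v = 0 then √(c / 2) else n1 c v / (2 * ww c v)

lemma kk_pos (hc0 : 0 < c) (hc1 : c ≠ 1) (v : ℝ) : 0 < kk c v := by
  unfold kk
  split_ifs with h
  · exact sqrt_pos.2 (by linarith)
  · rcases lt_or_gt_of_ne h with h | h
    · exact div_pos_of_neg_of_neg (n1_neg hc0 hc1 h) (by linarith [ww_neg hc0 hc1 h])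
    · exact div_pos (n1_pos hc0 hc1 h) (by linarith [ww_pos hc0 hc1 h])

/-- `2 w k = n'`. -/
lemma two_ww_kk (hc0 : 0 < c) (hc1 : c ≠ 1) (v : ℝ) : 2 * ww c v * kk c v = n1 c v := by
  unfold kk
  split_ifs with h
  · rw [h, ww_zero hc1, n1_zero]; ring
  · have : ww c v ≠ 0 := by
      rcases lt_or_gt_of_ne h with h | h
      · exact (ww_neg hc0 hc1 h).ne
      · exact (ww_pos hc0 hc1 h).ne'
    field_simp

lemma hasDerivAt_ww_of_ne (hc0 : 0 < c) (hc1 : c ≠ 1) {v : ℝ} (hv : v ≠ 0) :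
    HasDerivAt (ww c) (kk c v) v := by
  have hn := nn_pos hc0 hc1 hv
  have h1 := (hasDerivAt_nn (c := c) v).sqrt hn.ne'
  unfold kk
  rw [if_neg hv]
  rcases lt_or_gt_of_ne hv with h | h
  · have h2 : ww c =ᶠ[𝓝 v] fun v => -√(nn c v) := by
      filter_upwards [Iio_mem_nhds h] with x hx
      unfold ww; rw [if_neg (not_le.2 hx)]
    have h3 : ww c v = -√(nn c v) := h2.self_of_nhds
    refine (h1.neg.congr_of_eventuallyEq h2).congr_deriv ?_
    rw [h3]; ring
  · have h2 : ww c =ᶠ[𝓝 v] fun v => √(nn c v) := by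
      filter_upwards [Ioi_mem_nhds h] with x hx
      unfold ww; rw [if_pos (le_of_lt hx)]
    have h3 : ww c v = √(nn c v) := h2.self_of_nhds
    refine (h1.congr_of_eventuallyEq h2).congr_deriv ?_
    rw [h3]

lemma continuousAt_ww_zero (hc0 : 0 < c) (hc1 : c ≠ 1) : ContinuousAt (ww c) 0 := by
  have h1 : Tendsto (fun v => √(nn c v)) (𝓝 0) (𝓝 0) := by
    have := (continuous_nn (c := c)).sqrt.tendsto 0
    rwa [nn_zero hc1, sqrt_zero] at this
  rw [ContinuousAt, ww_zero hc1]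
  refine squeeze_zero_norm' (Eventually.of_forall fun v => ?_) h1
  unfold ww
  split_ifs <;> simp [abs_of_nonneg (sqrt_nonneg _)]

/-- l'Hôpital: `n'^2/(4n) → c/2` at `0`. -/
lemma tendsto_kk_sq (hc0 : 0 < c) (hc1 : c ≠ 1) :
    Tendsto (fun v => n1 c v ^ 2 / (4 * nn c v)) (𝓝[≠] 0) (𝓝 (c / 2)) := by
  refine HasDerivAt.lhopital_zero_nhdsNE (f' := fun v => 2 * n1 c v * n2 c v)
    (g' := fun v => 4 * n1 c v) (Eventually.of_forall fun v => ?_)
    (Eventually.of_forall fun v => (hasDerivAt_nn v).const_mul 4) ?_ ?_ ?_ ?_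
  · refine ((hasDerivAt_n1 v).pow 2).congr_deriv ?_
    simp
  · filter_upwards [self_mem_nhdsWithin] with v hv
    rcases lt_or_gt_of_ne hv with h | h
    · have := n1_neg hc0 hc1 h; intro h0; linarith
    · have := n1_pos hc0 hc1 h; intro h0; linarith
  · have := (continuous_n1 (c := c)).tendsto 0
    rw [n1_zero] at this
    have h2 := (this.pow 2).mono_left (nhdsWithin_le_nhds (s := {0}ᶜ))
    simpa using h2
  · have := (continuous_nn (c := c)).tendsto 0
    rw [nn_zero hc1] at this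
    have h2 := (this.const_mul 4).mono_left (nhdsWithin_le_nhds (s := {0}ᶜ))
    simpa using h2
  · have hcont : Continuous (n2 c) := by
      unfold n2; fun_prop
    have h1 : Tendsto (fun v => n2 c v / 2) (𝓝[≠] 0) (𝓝 (c / 2)) := by
      have := (hcont.tendsto 0).div_const 2
      rw [n2_zero hc1] at this
      exact this.mono_left nhdsWithin_le_nhds
    refine h1.congr' ?_
    filter_upwards [self_mem_nhdsWithin] with v hv
    have : n1 c v ≠ 0 := by
      rcases lt_or_gt_of_ne hv with h | h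
      · exact (n1_neg hc0 hc1 h).ne
      · exact (n1_pos hc0 hc1 h).ne'
    field_simp
    ring

lemma continuousAt_kk_zero (hc0 : 0 < c) (hc1 : c ≠ 1) : ContinuousAt (kk c) 0 := by
  rw [continuousAt_iff_punctured_nhds]
  have h0 : kk c 0 = √(c / 2) := by simp [kk]
  rw [h0]
  have h1 := (continuous_sqrt.tendsto (c / 2)).comp (tendsto_kk_sq hc0 hc1)
  refine h1.congr' ?_
  filter_upwards [self_mem_nhdsWithin] with v hv
  have hk := kk_pos hc0 hc1 v
  have h2 : n1 c v ^ 2 / (4 * nn c v) = kk c v ^ 2 := by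
    rw [← two_ww_kk hc0 hc1 v, ← ww_sq hc0 hc1 v]
    have : ww c v ≠ 0 := by
      rcases lt_or_gt_of_ne hv with h | h
      · exact (ww_neg hc0 hc1 h).ne
      · exact (ww_pos hc0 hc1 h).ne'
    field_simp
    ring
  simp only [Function.comp, h2, sqrt_sq hk.le]

lemma hasDerivAt_ww (hc0 : 0 < c) (hc1 : c ≠ 1) (v : ℝ) : HasDerivAt (ww c) (kk c v) v :=
  hasDerivAt_of_hasDerivAt_of_ne' (x := 0) (fun _ hy => hasDerivAt_ww_of_ne hc0 hc1 hy)
    (continuousAt_ww_zero hc0 hc1) (continuousAt_kk_zero hc0 hc1) v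

lemma continuous_ww (hc0 : 0 < c) (hc1 : c ≠ 1) : Continuous (ww c) :=
  continuous_iff_continuousAt.2 fun v => (hasDerivAt_ww hc0 hc1 v).continuousAt

lemma strictMono_ww (hc0 : 0 < c) (hc1 : c ≠ 1) : StrictMono (ww c) :=
  strictMono_of_deriv_pos (fun v => by
    rw [(hasDerivAt_ww hc0 hc1 v).deriv]; exact kk_pos hc0 hc1 v)

lemma continuous_kk (hc0 : 0 < c) (hc1 : c ≠ 1) : Continuous (kk c) := by
  rw [continuous_iff_continuousAt]
  intro v
  rcases eq_or_ne v 0 with rfl | hv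
  · exact continuousAt_kk_zero hc0 hc1
  · have hw : ww c v ≠ 0 := by
      rcases lt_or_gt_of_ne hv with h | h
      · exact (ww_neg hc0 hc1 h).ne
      · exact (ww_pos hc0 hc1 h).ne'
    have h1 : ContinuousAt (fun v => n1 c v / (2 * ww c v)) v :=
      continuous_n1.continuousAt.div (continuousAt_const.mul (continuous_ww hc0 hc1).continuousAt)
        (by simpa using hw)
    refine h1.congr ?_
    filter_upwards [isOpen_ne.mem_nhds hv] with x hx
    unfold kk; rw [if_neg hx]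

/-- `1 - n`. -/
lemma one_sub_nn (v : ℝ) : 1 - nn c v = (c * exp v - exp (c * v)) / (c - 1) := by
  unfold nn; ring

/-- The ratio `(1-n)/n'` at `-∞`. -/
lemma tendsto_ratio (hc0 : 0 < c) (hc1 : c ≠ 1) :
    Tendsto (fun v => (1 - nn c v) / n1 c v) atBot (𝓝 (-(1 / min 1 c))) := by
  have hcne : c - 1 ≠ 0 := sub_ne_zero.2 hc1
  rcases lt_or_gt_of_ne hc1 with h | h
  · -- c < 1
    have hm : min 1 c = c := min_eq_right h.le
    rw [hm]
    have hlin : Tendsto (fun v : ℝ => (1 - c) * v) atBot atBot :=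
      tendsto_id.const_mul_atBot (by linarith)
    have he := tendsto_exp_atBot.comp hlin
    have h1 : Tendsto (fun v : ℝ => (c * exp ((1 - c) * v) - 1) / (c * (1 - exp ((1 - c) * v))))
        atBot (𝓝 ((c * 0 - 1) / (c * (1 - 0)))) := by
      refine Tendsto.div ((he.const_mul c).sub_const 1) ((he.const_sub 1).const_mul c) ?_
      simpa using hc0.ne'
    have e : (c * 0 - 1) / (c * (1 - 0)) = -(1 / c) := by field_simp; ring
    rw [e] at h1
    refine h1.congr' ?_
    filter_upwards [Iio_mem_atBot (0 : ℝ)] with v hv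
    have hv' : v < 0 := hv
    rw [one_sub_nn]
    unfold n1
    have h2 : exp v = exp ((1 - c) * v) * exp (c * v) := by rw [← exp_add]; congr 1; ring
    have h3 : exp ((1 - c) * v) < 1 := by
      rw [exp_lt_one_iff]; nlinarith
    have h4 : 1 - exp ((1 - c) * v) ≠ 0 := by linarith
    have h5 := exp_pos (c * v)
    rw [h2]
    have h6 : exp (c * v) - exp ((1 - c) * v) * exp (c * v)
      = exp (c * v) * (1 - exp ((1 - c) * v)) := by ring
    rw [h6]
    field_simp
  · -- c > 1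
    have hm : min 1 c = 1 := min_eq_left h.le
    rw [hm]
    have hlin : Tendsto (fun v : ℝ => (c - 1) * v) atBot atBot :=
      tendsto_id.const_mul_atBot (by linarith)
    have he := tendsto_exp_atBot.comp hlin
    have h1 : Tendsto (fun v : ℝ => (c - exp ((c - 1) * v)) / (c * (exp ((c - 1) * v) - 1)))
        atBot (𝓝 ((c - 0) / (c * (0 - 1)))) := by
      refine Tendsto.div (he.const_sub c) ((he.sub_const 1).const_mul c) ?_
      simpa using hc0.ne'
    have e : (c - 0) / (c * (0 - 1)) = -(1 / 1) := by field_simp; ring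
    rw [e] at h1
    refine h1.congr' ?_
    filter_upwards [Iio_mem_atBot (0 : ℝ)] with v hv
    have hv' : v < 0 := hv
    rw [one_sub_nn]
    unfold n1
    have h2 : exp (c * v) = exp ((c - 1) * v) * exp v := by rw [← exp_add]; congr 1; ring
    have h3 : exp ((c - 1) * v) < 1 := by
      rw [exp_lt_one_iff]; nlinarith
    have h4 : exp ((c - 1) * v) - 1 ≠ 0 := by linarith
    have h5 := exp_pos v
    rw [h2]
    have h6 : exp ((c - 1) * v) * exp v - exp v = exp v * (exp ((c - 1) * v) - 1) := by ring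
    rw [h6]
    field_simp

lemma tendsto_nn_atBot (hc0 : 0 < c) : Tendsto (nn c) atBot (𝓝 1) := by
  have hlin : Tendsto (fun v : ℝ => c * v) atBot atBot := tendsto_id.const_mul_atBot hc0
  have he := tendsto_exp_atBot.comp hlin
  have h1 : Tendsto (fun v : ℝ => 1 - (c * exp v - exp (c * v)) / (c - 1)) atBot
      (𝓝 (1 - (c * 0 - 0) / (c - 1))) :=
    (((tendsto_exp_atBot.const_mul c).sub he).div_const (c - 1)).const_sub 1
  simp only [mul_zero, sub_zero, zero_div] at h1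
  exact h1

lemma tendsto_ww_atBot (hc0 : 0 < c) : Tendsto (ww c) atBot (𝓝 (-1)) := by
  have h1 : Tendsto (fun v => -√(nn c v)) atBot (𝓝 (-√1)) :=
    ((continuous_sqrt.tendsto 1).comp (tendsto_nn_atBot hc0)).neg
  rw [sqrt_one] at h1
  refine h1.congr' ?_
  filter_upwards [Iio_mem_atBot (0 : ℝ)] with v hv
  unfold ww; rw [if_neg (not_le.2 hv)]

lemma ww_gt (hc0 : 0 < c) (hc1 : c ≠ 1) (v : ℝ) : -1 < ww c v := by
  have hmono := strictMono_ww hc0 hc1
  have h1 : -1 ≤ ww c (v - 1) := by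
    refine le_of_tendsto (tendsto_ww_atBot hc0) ?_
    filter_upwards [Iic_mem_atBot (v - 1)] with x hx
    exact hmono.monotone hx
  exact h1.trans_lt (hmono (by linarith))

/-- The point with `n = 1`. -/
lemma exists_ww_one (hc0 : 0 < c) (hc1 : c ≠ 1) : ∃ V, ww c V = 1 := by
  have hcne : c - 1 ≠ 0 := sub_ne_zero.2 hc1
  set V := log c / (c - 1) with hV
  have hVpos : 0 < V := by
    rcases lt_or_gt_of_ne hc1 with h | h
    · exact div_pos_of_neg_of_neg (log_neg hc0 h) (by linarith)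
    · exact div_pos (log_pos h) (by linarith)
  refine ⟨V, ?_⟩
  have h1 : exp ((c - 1) * V) = c := by
    have : (c - 1) * V = log c := by rw [hV]; field_simp
    rw [this, exp_log hc0]
  have h2 : exp (c * V) = c * exp V := by
    have : c * V = (c - 1) * V + V := by ring
    rw [this, exp_add, h1]
  have h3 : nn c V = 1 := by unfold nn; rw [h2]; simp
  unfold ww
  rw [if_pos hVpos.le, h3, sqrt_one]

/-- A point with `w > 1`. -/
lemma exists_ww_gt_one (hc0 : 0 < c) (hc1 : c ≠ 1) : ∃ V, 1 < ww c V := by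
  obtain ⟨V, hV⟩ := exists_ww_one hc0 hc1
  exact ⟨V + 1, by rw [← hV]; exact strictMono_ww hc0 hc1 (by linarith)⟩

/-- The inverse coordinate. -/
noncomputable def LL (c y : ℝ) : ℝ := Function.invFun (ww c) y

lemma LL_ww (hc0 : 0 < c) (hc1 : c ≠ 1) (v : ℝ) : LL c (ww c v) = v :=
  Function.leftInverse_invFun (strictMono_ww hc0 hc1).injective v

lemma ww_surj (hc0 : 0 < c) (hc1 : c ≠ 1) {y V : ℝ} (h1 : -1 < y) (h2 : y < ww c V) :
    ∃ v, ww c v = y := by
  have h3 : ∀ᶠ v in atBot, ww c v < y := (tendsto_ww_atBot hc0).eventually (gt_mem_nhds h1)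
  obtain ⟨v0, hv0⟩ := h3.exists
  exact mem_range_of_exists_le_of_exists_ge (continuous_ww hc0 hc1) ⟨v0, hv0.le⟩ ⟨V, h2.le⟩

lemma ww_LL (hc0 : 0 < c) (hc1 : c ≠ 1) {y V : ℝ} (h1 : -1 < y) (h2 : y < ww c V) :
    ww c (LL c y) = y := by
  obtain ⟨v, rfl⟩ := ww_surj hc0 hc1 h1 h2
  rw [LL_ww hc0 hc1]

lemma continuousAt_LL (hc0 : 0 < c) (hc1 : c ≠ 1) {y V : ℝ} (h1 : -1 < y) (h2 : y < ww c V) :
    ContinuousAt (LL c) y := by
  have hmono := strictMono_ww hc0 hc1
  have hLmono : StrictMonoOn (LL c) (Ioo (-1) (ww c V)) := by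
    intro a ha b hb hab
    rw [← hmono.lt_iff_lt, ww_LL hc0 hc1 ha.1 ha.2, ww_LL hc0 hc1 hb.1 hb.2]
    exact hab
  refine hLmono.continuousAt_of_image_mem_nhds (Ioo_mem_nhds h1 h2) ?_
  have h3 : LL c '' Ioo (-1) (ww c V) = Iio V := by
    ext v
    constructor
    · rintro ⟨y, hy, rfl⟩
      rw [mem_Iio, ← hmono.lt_iff_lt, ww_LL hc0 hc1 hy.1 hy.2]
      exact hy.2
    · intro hv
      exact ⟨ww c v, ⟨ww_gt hc0 hc1 v, hmono hv⟩, LL_ww hc0 hc1 v⟩
  rw [h3]
  apply Iio_mem_nhds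
  rw [← hmono.lt_iff_lt, ww_LL hc0 hc1 h1 h2]
  exact h2

lemma hasDerivAt_LL (hc0 : 0 < c) (hc1 : c ≠ 1) {y V : ℝ} (h1 : -1 < y) (h2 : y < ww c V) :
    HasDerivAt (LL c) (kk c (LL c y))⁻¹ y := by
  refine HasDerivAt.of_local_left_inverse (continuousAt_LL hc0 hc1 h1 h2)
    (hasDerivAt_ww hc0 hc1 _) (kk_pos hc0 hc1 _).ne' ?_
  filter_upwards [Ioo_mem_nhds h1 h2] with x hx
  exact ww_LL hc0 hc1 hx.1 hx.2

lemma tendsto_LL (hc0 : 0 < c) (hc1 : c ≠ 1) : Tendsto (LL c) (𝓝[>] (-1)) atBot := by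
  have hmono := strictMono_ww hc0 hc1
  rw [tendsto_atBot]
  intro b
  have h1 : -1 < ww c b := ww_gt hc0 hc1 b
  filter_upwards [Ioo_mem_nhdsGT h1] with y hy
  rw [← hmono.le_iff_le, ww_LL hc0 hc1 hy.1 hy.2]
  exact hy.2.le

/-- The density `g(y) = (1 - y²) L'(y)`, continuously extended to `y = -1`. -/
noncomputable def gb (c y : ℝ) : ℝ := if y ≤ -1 then 2 / min 1 c else (1 - y ^ 2) / kk c (LL c y)

lemma gb_neg_one : gb c (-1) = 2 / min 1 c := by simp [gb]

lemma gb_one : gb c 1 = 0 := by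
  unfold gb
  rw [if_neg (by norm_num)]
  simp

lemma gb_zero (hc0 : 0 < c) (hc1 : c ≠ 1) : gb c 0 = 1 / √(c / 2) := by
  unfold gb
  rw [if_neg (by norm_num)]
  have : LL c 0 = 0 := by
    have := LL_ww hc0 hc1 0
    rwa [ww_zero hc1] at this
  rw [this]
  simp [kk]

lemma gb_pos (hc0 : 0 < c) (hc1 : c ≠ 1) {y : ℝ} (h1 : -1 < y) (h2 : y < 1) : 0 < gb c y := by
  unfold gb
  rw [if_neg (not_le.2 h1)]
  exact div_pos (by nlinarith) (kk_pos hc0 hc1 _)

lemma continuousAt_gb (hc0 : 0 < c) (hc1 : c ≠ 1) {y : ℝ} (h1 : -1 < y) (h2 : y ≤ 1) :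
    ContinuousAt (gb c) y := by
  obtain ⟨V, hV⟩ := exists_ww_gt_one hc0 hc1
  have h3 : ContinuousAt (fun y => (1 - y ^ 2) / kk c (LL c y)) y := by
    refine ContinuousAt.div (by fun_prop) ?_ (kk_pos hc0 hc1 _).ne'
    exact (continuous_kk hc0 hc1).continuousAt.comp (continuousAt_LL hc0 hc1 h1 (h2.trans_lt hV))
  refine h3.congr ?_
  filter_upwards [Ioi_mem_nhds h1] with x hx
  unfold gb; rw [if_neg (not_le.2 hx)]

lemma tendsto_gb (hc0 : 0 < c) (hc1 : c ≠ 1) :
    Tendsto (gb c) (𝓝[>] (-1)) (𝓝 (gb c (-1))) := by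
  rw [gb_neg_one]
  have hL := tendsto_LL hc0 hc1
  have h1 := (tendsto_ratio hc0 hc1).comp hL
  have h2 := (tendsto_ww_atBot hc0).comp hL
  have h3 := (h2.const_mul 2).mul h1
  have e : 2 * (-1) * -(1 / min 1 c) = 2 / min 1 c := by ring
  rw [e] at h3
  refine h3.congr' ?_
  have hmem : Ioo (-1 : ℝ) 0 ∈ 𝓝[>] (-1 : ℝ) := Ioo_mem_nhdsGT (by norm_num)
  filter_upwards [hmem] with y hy
  have h0 : y < ww c 0 := by rw [ww_zero hc1]; exact hy.2
  have hw := ww_LL hc0 hc1 hy.1 h0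
  have hLneg : LL c y < 0 := by
    rw [← (strictMono_ww hc0 hc1).lt_iff_lt, hw]; exact h0
  have hk := two_ww_kk hc0 hc1 (LL c y)
  have hkpos := kk_pos hc0 hc1 (LL c y)
  have hn := n1_neg hc0 hc1 hLneg
  unfold gb
  rw [if_neg (not_le.2 hy.1)]
  simp only [Function.comp]
  rw [← hk, ← ww_sq hc0 hc1, hw]
  have : y ≠ 0 := hy.2.ne
  field_simp

lemma continuousOn_gb (hc0 : 0 < c) (hc1 : c ≠ 1) : ContinuousOn (gb c) (Icc (-1) 1) := by
  intro y hy
  rcases hy.1.eq_or_lt with h | h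
  · rw [← h]
    have h1 : ContinuousWithinAt (gb c) (Ioi (-1)) (-1) := tendsto_gb hc0 hc1
    have h2 : ContinuousWithinAt (gb c) (Ici (-1)) (-1) := by
      rwa [← Ioi_insert, continuousWithinAt_insert_self]
    exact h2.mono Icc_subset_Ici_self
  · exact (continuousAt_gb hc0 hc1 h hy.2).continuousWithinAt

end

end Pool.Agent.H98.CA
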