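import Mathlib

/-!
# Definitions: matroid matching property and generic rigidity matroids
-/

open Finset

namespace Pool.Agent.H98.MatroidMatching

/-! ## Matroid matching

A matroid on the finite set `E` is given by its rank function `r : Set E → ℕ`. -/

/-- `Z` is a flat (closed set) of the matroid with rank function `r`: adding an element outside `Z`
changes the rank. -/
def IsFlat {E : Type*} (r : Set E → ℕ) (Z : Set E) : Prop :=
  ∀ e, e ∉ Z → r (insert e Z) ≠ r Z

/-- The union of the members of a finite family of finite sets. -/
def pairUnion {E : Type*} (H : Finset (Finset E)) : Set E := ⋃ q ∈ H, (q : Set E)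

/-- `H` (a family of pairs) is a matroid matching: the union of its pairs has rank `2|H|`. -/
def IsMatching {E : Type*} (r : Set E → ℕ) (H : Finset (Finset E)) : Prop :=
  r (pairUnion H) = 2 * H.card

/-- `ν(𝓗)`, the largest size of a matroid matching contained in `𝓗`. -/
noncomputable def matchingNumber {E : Type*} (r : Set E → ℕ) (𝓗 : Finset (Finset E)) : ℕ :=
  sSup {m | ∃ H ⊆ 𝓗, IsMatching r H ∧ H.card = m}

/-- The value `r(Z) + ∑ᵢ ⌊(r(Z ∪ ⋃_{q ∈ 𝓗ᵢ} q) - r(Z)) / 2⌋` of the right hand side of `(*)` for the
set `Z` and the partition `π` of `𝓗` into the classes `𝓗ᵢ`. -/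
noncomputable def partitionBound {E : Type*} [DecidableEq E] (r : Set E → ℕ)
    {𝓗 : Finset (Finset E)} (Z : Set E) (π : Finpartition 𝓗) : ℕ :=
  r Z + ∑ P ∈ π.parts, (r (Z ∪ pairUnion P) - r Z) / 2

/-- The matroid matching property: for every family `𝓗` of two-element subsets of `E`, the matching
number `ν(𝓗)` is the minimum of `partitionBound r Z π` over all flats `Z` and partitions `π`. -/
def HasMatchingProperty {E : Type*} [DecidableEq E] (r : Set E → ℕ) : Prop :=
  ∀ 𝓗 : Finset (Finset E), (∀ q ∈ 𝓗, q.card = 2) →
    IsLeast {m | ∃ (Z : Set E) (π : Finpartition 𝓗), IsFlat r Z ∧ m = partitionBound r Z π}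
      (matchingNumber r 𝓗)

/-! ## The rigidity matroid -/

/-- The edge set of the complete graph on the vertex set `α`: all unordered pairs of distinct
vertices. -/
abbrev Edge (α : Type*) : Type _ := {e : Sym2 α // ¬ e.IsDiag}

/-- The row of the rigidity matrix `R(K_α, p)` belonging to the edge `e = uv`, as a vector indexed by
the columns `(x, c)` (vertex `x`, coordinate `c`): it is `p u - p v` in the columns of `u`,
`p v - p u` in the columns of `v` and `0` elsewhere. -/
def rigidityRow {α : Type*} [DecidableEq α] {d : ℕ} (p : α → Fin d → ℝ) (e : Edge α) :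
    α × Fin d → ℝ :=
  Sym2.lift ⟨fun u v x => (if x.1 = u then p u x.2 - p v x.2 else 0) +
    (if x.1 = v then p v x.2 - p u x.2 else 0), by
      intro u v
      funext x
      ring⟩ e.1

/-- The rank function of the row matroid of a configuration of vectors `f : E → V`: the dimension
of the linear span. -/
noncomputable def rk {E V : Type*} [AddCommGroup V] [Module ℝ V] (f : E → V) (S : Set E) : ℕ :=
  Module.finrank ℝ (Submodule.span ℝ (f '' S))

/-- The placement `p` is generic: its coordinates are algebraically independent over `ℚ`. -/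
def Generic {α : Type*} {d : ℕ} (p : α → Fin d → ℝ) : Prop :=
  AlgebraicIndependent ℚ (fun x : α × Fin d => p x.1 x.2)

end Pool.Agent.H98.MatroidMatching
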