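import Pool.Agent.H98.MMDefs

/-!
# Matroid matching fails in the generic rigidity matroids of odd dimension at least five

Let `d = 2k+1 ≥ 5`. In `R_d(K_n)` the edge set `D` of the complete bipartite graph `K_{d+2,d+3}` has
rank `|D| - 2`, and its circuits are the `d+3` copies of `K_{d+2,d+2}` obtained by deleting a
vertex of the larger side (Bolker and Roth). The star of a vertex of the larger side has `d + 2`
elements, an odd number. We pair the left over edge of each star with a new edge (a coloop) to one
of two new vertices. The resulting family of `T = (d+3)²/2` pairs has no matching with more than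
`T - 2` pairs, while every flat and partition give a bound at least `T - 1`.
-/

set_option linter.unusedSectionVars false
set_option linter.unusedSimpArgs false

open Finset

namespace Pool.Agent.H98.MatroidMatching

/-! ## Proof: matroid part -/

section Matroid
variable {E : Type*}

/-- the rank axioms used -/
structure RankLike (r : Set E → ℕ) : Prop where
  empty : r ∅ = 0
  mono : ∀ A B, A ⊆ B → r A ≤ r B
  submod : ∀ A B, r (A ∪ B) + r (A ∩ B) ≤ r A + r B
  insert_le : ∀ e A, r (insert e A) ≤ r A + 1

variable {r : Set E → ℕ}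

lemma RankLike.union_le (hr : RankLike r) (A : Set E) (B : Finset E) :
    r (A ∪ B) ≤ r A + B.card := by
  classical
  induction B using Finset.induction_on with
  | empty => simp
  | insert e B he ih =>
    rw [Finset.coe_insert, Set.union_insert, Finset.card_insert_of_notMem he]
    have := hr.insert_le e (A ∪ B)
    omega

lemma RankLike.card_le (hr : RankLike r) (B : Finset E) : r B ≤ B.card := by
  have := hr.union_le ∅ B
  rw [hr.empty, Set.empty_union] at this
  omega

lemma RankLike.union_two (hr : RankLike r) (Z A B : Set E) :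
    r (Z ∪ A ∪ B) + r Z ≤ r (Z ∪ A) + r (Z ∪ B) := by
  have h := hr.submod (Z ∪ A) (Z ∪ B)
  have h2 : Z ∪ A ∪ (Z ∪ B) = Z ∪ A ∪ B := by
    ext x; simp; tauto
  rw [h2] at h
  have h3 : r Z ≤ r ((Z ∪ A) ∩ (Z ∪ B)) :=
    hr.mono _ _ (Set.subset_inter Set.subset_union_left Set.subset_union_left)
  omega

lemma RankLike.family (hr : RankLike r) {ι : Type*} (Z : Set E) (s : Finset ι) (U : ι → Set E) :
    r (Z ∪ ⋃ i ∈ s, U i) ≤ r Z + ∑ i ∈ s, (r (Z ∪ U i) - r Z) := by
  classical
  induction s using Finset.induction_on with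
  | empty => simp
  | insert a s ha ih =>
    rw [Finset.sum_insert ha]
    have h1 : Z ∪ ⋃ i ∈ insert a s, U i = Z ∪ (⋃ i ∈ s, U i) ∪ U a := by
      rw [Finset.set_biUnion_insert, Set.union_comm (U a), Set.union_assoc]
    rw [h1]
    have h2 := hr.union_two Z (⋃ i ∈ s, U i) (U a)
    have h3 : r Z ≤ r (Z ∪ U a) := hr.mono _ _ Set.subset_union_left
    omega


/-- Data of the counterexample. -/
theorem abstract_main [Fintype E] [DecidableEq E] (hr : RankLike r)
    {J T : Type*} [Fintype J] [DecidableEq J] [Fintype T] [DecidableEq T]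
    (el : J × T × Bool → E) (hinj : Function.Injective el)
    (inD : J × T × Bool → Prop)
    (h1 : r (Set.range el) + 2 = 2 * (Fintype.card J * Fintype.card T))
    (h2 : IsFlat r (Set.range el))
    (h4 : ∀ S : Finset E, (S : Set E) ⊆ Set.range el → r S < S.card →
      ∃ j0, ∀ x, inD x → el x ∉ S → x.1 = j0)
    (h5 : ∀ j t, ∀ S : Finset E, el (j, t, false) ∉ S → el (j, t, true) ∉ S →
      (∀ x, el x ∉ S → x = (j, t, false) ∨ x = (j, t, true)) → r S < S.card)
    (h6 : ∀ x, inD x → r (Set.range el \ {el x}) = r (Set.range el))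
    (h7 : ∃ t0, ∀ j b, inD (j, t0, b))
    (h8 : 3 ≤ Fintype.card J) : ¬ HasMatchingProperty r := by
  classical
  intro hprop
  -- the pairs
  set pr : J × T → Finset E := fun y => {el (y.1, y.2, false), el (y.1, y.2, true)} with hpr
  have hmem : ∀ y e, e ∈ pr y ↔ e = el (y.1, y.2, false) ∨ e = el (y.1, y.2, true) := by
    intro y e; simp [hpr]
  have hmemel : ∀ y x, el x ∈ pr y ↔ (x.1, x.2.1) = y := by
    rintro ⟨j, t⟩ ⟨j', t', b⟩
    rw [hmem, hinj.eq_iff, hinj.eq_iff]
    cases b <;> simp
  have hprcard : ∀ y, (pr y).card = 2 := by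
    intro y
    rw [hpr]
    apply Finset.card_pair
    intro h
    have := hinj h
    simp at this
  have hprinj : Function.Injective pr := by
    rintro y y' h
    have h' : el (y.1, y.2, false) ∈ pr y := by rw [hmemel]
    rw [h, hmemel] at h'
    exact h'
  set HH : Finset (Finset E) := Finset.univ.image pr with hHH
  have hHHcard : HH.card = Fintype.card J * Fintype.card T := by
    rw [hHH, Finset.card_image_of_injective _ hprinj, Finset.card_univ, Fintype.card_prod]
  set N := Fintype.card J * Fintype.card T with hN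
  -- union of sub-families
  have hdisj : ∀ q ∈ HH, ∀ q' ∈ HH, q ≠ q' → Disjoint q q' := by
    intro q hq q' hq' hne
    rw [hHH, Finset.mem_image] at hq hq'
    obtain ⟨y, -, rfl⟩ := hq
    obtain ⟨y', -, rfl⟩ := hq'
    rw [Finset.disjoint_left]
    intro e he he'
    apply hne
    rcases (hmem y e).1 he with rfl | rfl <;>
    · rw [hmemel] at he'
      rw [← he']
  let U : Finset (Finset E) → Finset E := fun P => P.biUnion id
  have hU : ∀ P, (U P : Set E) = pairUnion P := by
    intro P; simp [U, pairUnion]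
  have hUcard : ∀ P ⊆ HH, (U P).card = 2 * P.card := by
    intro P hP
    rw [Finset.card_biUnion, Finset.sum_const_nat (m := 2), mul_comm]
    · intro q hq
      have := hP hq
      rw [hHH, Finset.mem_image] at this
      obtain ⟨y, -, rfl⟩ := this
      exact hprcard y
    · intro q hq q' hq' hne
      exact hdisj q (hP hq) q' (hP hq') hne
  have hUmem : ∀ P ⊆ HH, ∀ e, e ∈ U P ↔ ∃ x, el x = e ∧ pr (x.1, x.2.1) ∈ P := by
    intro P hP e
    simp only [U, Finset.mem_biUnion, id]
    constructor
    · rintro ⟨q, hq, he⟩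
      have := hP hq
      rw [hHH, Finset.mem_image] at this
      obtain ⟨y, -, rfl⟩ := this
      rcases (hmem y e).1 he with rfl | rfl
      · exact ⟨_, rfl, hq⟩
      · exact ⟨_, rfl, hq⟩
    · rintro ⟨x, rfl, hx⟩
      exact ⟨_, hx, by rw [hmemel]⟩
  have hUHH : (U HH : Set E) = Set.range el := by
    ext e
    rw [Finset.mem_coe, hUmem HH subset_rfl]
    constructor
    · rintro ⟨x, rfl, -⟩; exact ⟨x, rfl⟩
    · rintro ⟨x, rfl⟩; exact ⟨x, rfl, by simp [hHH]⟩
  have hrangecard : (U HH).card = 2 * N := by rw [hUcard HH subset_rfl, hHHcard]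
  -- matching number
  have hnu : ∀ H ⊆ HH, IsMatching r H → H.card + 2 ≤ N := by
    intro H hH hM
    by_contra hcon
    push Not at hcon
    unfold IsMatching at hM
    rw [← hU] at hM
    have hle : H.card ≤ N := by rw [← hHHcard]; exact Finset.card_le_card hH
    rcases Nat.lt_or_ge H.card N with hlt | hge
    · -- H misses exactly one pair
      have hcard : (HH \ H).card = 1 := by
        rw [Finset.card_sdiff_of_subset hH, hHHcard]; omega
      rw [Finset.card_eq_one] at hcard
      obtain ⟨q, hq⟩ := hcard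
      have hqH : q ∈ HH \ H := by rw [hq]; simp
      have hqHH : q ∈ HH := (Finset.mem_sdiff.1 hqH).1
      have hqHH' := hqHH
      rw [hHH, Finset.mem_image] at hqHH'
      obtain ⟨⟨j, t⟩, -, rfl⟩ := hqHH'
      have := h5 j t (U H) ?_ ?_ ?_
      · rw [hM, hUcard H hH] at this; omega
      · rw [hUmem H hH]
        rintro ⟨x, hx, hx2⟩
        rw [hinj hx] at hx2
        exact (Finset.mem_sdiff.1 hqH).2 hx2
      · rw [hUmem H hH]
        rintro ⟨x, hx, hx2⟩
        rw [hinj hx] at hx2
        exact (Finset.mem_sdiff.1 hqH).2 hx2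
      · rintro ⟨j', t', b⟩ hx
        rw [hUmem H hH] at hx
        have hnot : pr (j', t') ∉ H := fun h => hx ⟨_, rfl, h⟩
        have : pr (j', t') ∈ HH \ H := by
          rw [Finset.mem_sdiff]; exact ⟨by simp [hHH], hnot⟩
        rw [hq, Finset.mem_singleton] at this
        have := hprinj this
        simp only [Prod.mk.injEq] at this
        obtain ⟨rfl, rfl⟩ := this
        cases b <;> simp
    · have : H = HH := Finset.eq_of_subset_of_card_le hH (by rw [hHHcard]; exact hge)
      subst this
      rw [hUHH] at hM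
      omega
  have hNpos : 3 ≤ N := by
    obtain ⟨t0, -⟩ := h7
    have : 1 ≤ Fintype.card T := Fintype.card_pos_iff.2 ⟨t0⟩
    rw [hN]; nlinarith
  have hnule : matchingNumber r HH + 2 ≤ N := by
    have : matchingNumber r HH ≤ N - 2 := by
      apply csSup_le'
      rintro m ⟨H, hH, hM, rfl⟩
      have := hnu H hH hM
      omega
    omega
  obtain ⟨⟨Z, π, hZ, hbound⟩, -⟩ := hprop HH (by
    intro q hq
    rw [hHH, Finset.mem_image] at hq
    obtain ⟨y, -, rfl⟩ := hq
    exact hprcard y)
  rw [hbound] at hnule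
  unfold partitionBound at hnule
  clear hbound hprop
  set z := r Z with hz
  let a : Finset (Finset E) → ℕ := fun P => r (Z ∪ pairUnion P) - r Z
  change z + ∑ P ∈ π.parts, a P / 2 + 2 ≤ N at hnule
  have hPle : ∀ P ∈ π.parts, P ⊆ HH := fun P hP => π.le hP
  have hcls : ∀ x : J × T × Bool, ∃ P ∈ π.parts, pr (x.1, x.2.1) ∈ P := by
    intro x
    exact π.exists_mem (by simp [hHH])
  have hunion : (⋃ P ∈ π.parts, pairUnion P) = Set.range el := by
    ext e
    simp only [Set.mem_iUnion]
    constructor
    · rintro ⟨P, hP, he⟩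
      rw [← hU, Finset.mem_coe, hUmem P (hPle P hP)] at he
      obtain ⟨x, rfl, -⟩ := he
      exact ⟨x, rfl⟩
    · rintro ⟨x, rfl⟩
      obtain ⟨P, hP, hx⟩ := hcls x
      refine ⟨P, hP, ?_⟩
      rw [← hU, Finset.mem_coe, hUmem P (hPle P hP)]
      exact ⟨x, rfl, hx⟩
  have hsumcard : ∑ P ∈ π.parts, 2 * P.card = 2 * N := by
    rw [← Finset.mul_sum, π.sum_card_parts, hHHcard]
  have hfam : r (Z ∪ Set.range el) ≤ z + ∑ P ∈ π.parts, a P := by
    rw [← hunion]; exact hr.family Z π.parts pairUnion
  have hmonoR : r (Set.range el) ≤ r (Z ∪ Set.range el) :=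
    hr.mono _ _ Set.subset_union_right
  -- bound with the elements of `Z` removed
  have hout : ∀ F : Finset E, r (Z ∪ F) ≤ z + (F.filter (· ∉ Z)).card := by
    intro F
    have : Z ∪ (F : Set E) = Z ∪ ((F.filter (· ∉ Z) : Finset E) : Set E) := by
      ext e
      simp only [Set.mem_union, Finset.mem_coe, Finset.mem_filter]
      tauto
    rw [this]
    exact hr.union_le Z _
  let κ : Finset (Finset E) → ℕ := fun P => ((U P).filter (· ∈ Z)).card
  have hκ : ∀ F : Finset E, (F.filter (· ∈ Z)).card + (F.filter (· ∉ Z)).card = F.card := by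
    intro F; exact Finset.card_filter_add_card_filter_not _
  have haκ : ∀ P ∈ π.parts, a P + κ P ≤ 2 * P.card := by
    intro P hP
    have h3 := hout (U P)
    rw [hU] at h3
    have h5 := hκ (U P)
    rw [hUcard P (hPle P hP)] at h5
    change r (Z ∪ pairUnion P) - r Z + _ ≤ _
    change _ + ((U P).filter (· ∈ Z)).card ≤ _
    omega
  have hao : ∀ P ∈ π.parts, a P + a P % 2 ≤ 2 * P.card := by
    intro P hP
    have := haκ P hP
    omega
  have hsplit : ∑ P ∈ π.parts, a P = 2 * ∑ P ∈ π.parts, a P / 2 + ∑ P ∈ π.parts, a P % 2 := by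
    rw [Finset.mul_sum, ← Finset.sum_add_distrib]
    apply Finset.sum_congr rfl
    intro P _
    omega
  have hsumao : ∑ P ∈ π.parts, (a P + a P % 2) ≤ ∑ P ∈ π.parts, 2 * P.card :=
    Finset.sum_le_sum hao
  have hsumao' := hsumao
  rw [Finset.sum_add_distrib, hsumcard] at hsumao'
  have heqsum : ∑ P ∈ π.parts, (a P + a P % 2) = ∑ P ∈ π.parts, 2 * P.card := by
    rw [Finset.sum_add_distrib, hsumcard]; omega
  have heach := (Finset.sum_eq_sum_iff_of_le hao).1 heqsum
  have hsuma : z + ∑ P ∈ π.parts, a P = 2 * N - 2 := by omega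
  have hsumo : ∑ P ∈ π.parts, a P % 2 = z + 2 := by omega
  have hZR : r (Z ∪ Set.range el) = r (Set.range el) := by omega
  have hZsub : Z ⊆ Set.range el := by
    intro e he
    by_contra hne
    apply h2 e hne
    apply le_antisymm
    · rw [← hZR]
      apply hr.mono
      intro y hy
      rcases hy with rfl | hy
      · exact Or.inl he
      · exact Or.inr hy
    · exact hr.mono _ _ (Set.subset_insert _ _)
  have hκo : ∀ P ∈ π.parts, κ P ≤ a P % 2 := by
    intro P hP
    have e1 := haκ P hP
    have e2 := heach P hP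
    omega
  have hnopair : ∀ j t, ¬ (el (j, t, false) ∈ Z ∧ el (j, t, true) ∈ Z) := by
    rintro j t ⟨hf, ht⟩
    obtain ⟨P, hP, hx⟩ := hcls (j, t, false)
    have e1 := hκo P hP
    have e2 : 2 ≤ κ P := by
      rw [← hprcard (j, t)]
      apply Finset.card_le_card
      intro e he
      rw [Finset.mem_filter]
      constructor
      · simp only [U, Finset.mem_biUnion, id]
        exact ⟨_, hx, he⟩
      · rcases (hmem _ _).1 he with rfl | rfl
        · exact hf
        · exact ht
    omega
  obtain ⟨t0, ht0⟩ := h7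
  set Zf : Finset E := (U HH).filter (· ∈ Z) with hZf
  have hZfc : (Zf : Set E) = Z := by
    ext e
    rw [hZf, Finset.coe_filter]
    constructor
    · rintro ⟨-, h⟩; exact h
    · intro h
      refine ⟨?_, h⟩
      have := hZsub h
      rw [← hUHH] at this
      exact this
  have hZind : Zf.card ≤ z := by
    by_contra hcon
    push Not at hcon
    obtain ⟨j0, hj0⟩ := h4 Zf (by rw [hZfc]; exact hZsub) (by rw [hZfc]; exact hcon)
    obtain ⟨j, hj⟩ : ∃ j, j ≠ j0 := by
      have : 1 < Fintype.card J := by omega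
      exact Fintype.exists_ne_of_one_lt_card this j0
    apply hnopair j t0
    constructor
    · by_contra hc
      refine hj (hj0 (j, t0, false) (ht0 _ _) ?_)
      intro h; exact hc (by rw [← hZfc]; exact h)
    · by_contra hc
      refine hj (hj0 (j, t0, true) (ht0 _ _) ?_)
      intro h; exact hc (by rw [← hZfc]; exact h)
  have hZfle : Zf.card ≤ ∑ P ∈ π.parts, κ P := by
    refine le_trans (Finset.card_le_card ?_) Finset.card_biUnion_le
    intro e he
    have he2 : e ∈ Z := by rw [← hZfc]; exact he
    obtain ⟨x, rfl⟩ := hZsub he2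
    obtain ⟨P, hP, hx⟩ := hcls x
    rw [Finset.mem_biUnion]
    refine ⟨P, hP, ?_⟩
    rw [Finset.mem_filter]
    refine ⟨?_, he2⟩
    rw [hUmem P (hPle P hP)]
    exact ⟨x, rfl, hx⟩
  -- the exceptional classes
  set Q := π.parts.filter (fun P => κ P < a P % 2) with hQ
  have hQcard : Q.card ≤ 2 := by
    have e1 : ∑ P ∈ π.parts, (κ P + (if κ P < a P % 2 then 1 else 0)) ≤
        ∑ P ∈ π.parts, a P % 2 := by
      apply Finset.sum_le_sum
      intro P hP
      have := hκo P hP
      split_ifs <;> omega
    rw [Finset.sum_add_distrib, ← Finset.card_filter] at e1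
    change _ + Q.card ≤ _ at e1
    have e2 := hr.card_le Zf
    rw [hZfc] at e2
    omega
  have h8' : ∀ x, inD x → el x ∉ Z → ∀ P ∈ π.parts, pr (x.1, x.2.1) ∈ P → P ∈ Q := by
    intro x hxD hxZ P hP hxP
    by_contra hPQ
    have hκeq : κ P = a P % 2 := by
      have e1 := hκo P hP
      by_contra hne
      apply hPQ
      rw [hQ, Finset.mem_filter]
      exact ⟨hP, by omega⟩
    have hxU : el x ∈ U P := by
      rw [hUmem P (hPle P hP)]; exact ⟨x, rfl, hxP⟩
    let fam : Finset (Finset E) → Set E := fun P' =>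
      if P' = P then (((U P).erase (el x) : Finset E) : Set E) else pairUnion P'
    have e1 := hr.family Z π.parts fam
    have e2 : Set.range el \ {el x} ⊆ Z ∪ ⋃ P' ∈ π.parts, fam P' := by
      rintro e ⟨⟨y, rfl⟩, hy⟩
      right
      obtain ⟨P', hP', hy'⟩ := hcls y
      simp only [Set.mem_iUnion]
      refine ⟨P', hP', ?_⟩
      have hyU : el y ∈ U P' := by
        rw [hUmem P' (hPle P' hP')]; exact ⟨y, rfl, hy'⟩
      by_cases hPP : P' = P
      · simp only [fam, hPP, if_true, Finset.mem_coe, Finset.mem_erase]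
        refine ⟨hy, ?_⟩
        rw [← hPP]; exact hyU
      · simp only [fam, hPP, if_false]
        rw [← hU]; exact hyU
    have e3 := hr.mono _ _ e2
    rw [h6 x hxD] at e3
    rw [← Finset.add_sum_erase _ _ hP] at e1 hsuma
    have e4 : ∑ P' ∈ π.parts.erase P, (r (Z ∪ fam P') - r Z) =
        ∑ P' ∈ π.parts.erase P, a P' := by
      apply Finset.sum_congr rfl
      intro P' hP'
      have : P' ≠ P := (Finset.mem_erase.1 hP').1
      simp only [fam, this, if_false, a]
    rw [e4] at e1
    have e5 : r (Z ∪ fam P) ≤ z + (((U P).erase (el x)).filter (· ∉ Z)).card := by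
      simp only [fam, if_true]
      exact hout _
    have e6 : (((U P).erase (el x)).filter (· ∉ Z)).card + 1 = ((U P).filter (· ∉ Z)).card := by
      rw [Finset.filter_erase]
      rw [Finset.card_erase_add_one]
      rw [Finset.mem_filter]
      exact ⟨hxU, hxZ⟩
    have e7 := hκ (U P)
    rw [hUcard P (hPle P hP)] at e7
    have e8 := heach P hP
    change ((U P).filter (· ∈ Z)).card = _ at hκeq
    have e9 : r (Z ∪ fam P) - r Z + 1 ≤ a P := by omega
    omega
  have h9 : ∀ P ∈ Q, ∃ j0, ∀ x, inD x → el x ∈ U P → x.1 = j0 := by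
    intro P hPQ
    rw [hQ, Finset.mem_filter] at hPQ
    obtain ⟨hP, hlt⟩ := hPQ
    have e1 := hr.family Z (π.parts.erase P) pairUnion
    have e2 : ((U HH \ U P : Finset E) : Set E) ⊆
        Z ∪ ⋃ P' ∈ π.parts.erase P, pairUnion P' := by
      intro e he
      rw [Finset.coe_sdiff] at he
      obtain ⟨he1, he2⟩ := he
      rw [hUHH] at he1
      obtain ⟨x, rfl⟩ := he1
      right
      obtain ⟨P', hP', hx⟩ := hcls x
      have hxU : el x ∈ U P' := by
        rw [hUmem P' (hPle P' hP')]; exact ⟨x, rfl, hx⟩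
      simp only [Set.mem_iUnion]
      refine ⟨P', ?_, ?_⟩
      · rw [Finset.mem_erase]
        refine ⟨?_, hP'⟩
        rintro rfl
        exact he2 hxU
      · rw [← hU]; exact hxU
    have e3 := hr.mono _ _ e2
    have e4 : (U HH \ U P).card = 2 * N - 2 * P.card := by
      rw [Finset.card_sdiff_of_subset, hrangecard, hUcard P (hPle P hP)]
      intro e he
      rw [hUmem P (hPle P hP)] at he
      obtain ⟨x, rfl, -⟩ := he
      have : el x ∈ (U HH : Set E) := by rw [hUHH]; exact ⟨x, rfl⟩
      exact this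
    have e5 := heach P hP
    rw [← Finset.add_sum_erase _ _ hP] at hsuma
    change r (Z ∪ ⋃ P' ∈ π.parts.erase P, pairUnion P') ≤ z + ∑ P' ∈ π.parts.erase P, a P' at e1
    obtain ⟨j0, hj0⟩ := h4 (U HH \ U P) (by
      rw [Finset.coe_sdiff, hUHH]; exact Set.sdiff_subset) (by omega)
    refine ⟨j0, fun x hx hxU => hj0 x hx ?_⟩
    rw [Finset.mem_sdiff]
    rintro ⟨-, h⟩
    exact h hxU
  have : Nonempty J := Fintype.card_pos_iff.1 (by omega)
  choose! jP hjP using h9
  obtain ⟨j, hj⟩ : ∃ j, j ∉ Q.image jP := by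
    by_contra hcon
    push Not at hcon
    have : (Finset.univ : Finset J) ⊆ Q.image jP := fun j _ => hcon j
    have := Finset.card_le_card this
    have h10 : (Q.image jP).card ≤ Q.card := Finset.card_image_le
    rw [Finset.card_univ] at this
    omega
  have hfin : ∀ b, el (j, t0, b) ∈ Z := by
    intro b
    by_contra hc
    obtain ⟨P, hP, hx⟩ := hcls (j, t0, b)
    have hPQ := h8' (j, t0, b) (ht0 _ _) hc P hP hx
    apply hj
    rw [Finset.mem_image]
    refine ⟨P, hPQ, ?_⟩
    symm
    apply hjP P hPQ (j, t0, b) (ht0 _ _)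
    rw [hUmem P (hPle P hP)]
    exact ⟨_, rfl, hx⟩
  exact hnopair j t0 ⟨hfin false, hfin true⟩

end Matroid

section Linear

variable {E V : Type*} [AddCommGroup V] [Module ℝ V] [FiniteDimensional ℝ V]

lemma rankLike_rk (f : E → V) : RankLike (rk f) where
  empty := by simp [rk]
  mono A B h := Submodule.finrank_mono (Submodule.span_mono (Set.image_mono h))
  submod A B := by
    unfold rk
    rw [Set.image_union, Submodule.span_union]
    have h := Submodule.finrank_sup_add_finrank_inf_eq (Submodule.span ℝ (f '' A))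
      (Submodule.span ℝ (f '' B))
    have h2 : Submodule.span ℝ (f '' (A ∩ B)) ≤
        Submodule.span ℝ (f '' A) ⊓ Submodule.span ℝ (f '' B) :=
      le_inf (Submodule.span_mono (Set.image_mono Set.inter_subset_left))
        (Submodule.span_mono (Set.image_mono Set.inter_subset_right))
    have h3 := Submodule.finrank_mono h2
    omega
  insert_le e A := by
    unfold rk
    rw [Set.image_insert_eq, Submodule.span_insert]
    have h := Submodule.finrank_add_le_finrank_add_finrank (Submodule.span ℝ {f e})
      (Submodule.span ℝ (f '' A))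
    have h2 : Module.finrank ℝ (Submodule.span ℝ {f e}) ≤ 1 := by
      have := finrank_span_le_card (R := ℝ) ({f e} : Set V)
      simpa using this
    omega

variable [Fintype E]

/-- linear relations -/
def IsStress (f : E → V) (w : E → ℝ) : Prop := ∑ e, w e • f e = 0

lemma exists_stress_of_rk_lt (f : E → V) (S : Finset E) (h : rk f S < S.card) :
    ∃ w : E → ℝ, IsStress f w ∧ w ≠ 0 ∧ ∀ e, e ∉ S → w e = 0 := by
  classical
  have hli : ¬ LinearIndependent ℝ (fun e : S => f e) := by
    intro hli
    have := linearIndependent_iff_card_eq_finrank_span.1 hli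
    rw [Set.finrank] at this
    have h2 : Set.range (fun e : S => f e) = f '' S := by
      ext v; simp
    rw [h2] at this
    unfold rk at h
    rw [← this] at h
    simp at h
  rw [Fintype.not_linearIndependent_iff] at hli
  obtain ⟨g, hg, i, hi⟩ := hli
  refine ⟨fun e => if h : e ∈ S then g ⟨e, h⟩ else 0, ?_, ?_, ?_⟩
  · unfold IsStress
    rw [← hg, ← Finset.sum_subset (Finset.subset_univ S)]
    · rw [← Finset.sum_coe_sort S]
      apply Finset.sum_congr rfl
      intro e _
      simp
    · intro e _ he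
      simp [he]
  · intro h0
    have := congrFun h0 i
    simp at this
    exact hi this
  · intro e he
    simp [he]

lemma rk_lt_of_stress (f : E → V) (S : Finset E) (w : E → ℝ) (hw : IsStress f w)
    (h0 : w ≠ 0) (hS : ∀ e, e ∉ S → w e = 0) : rk f S < S.card := by
  classical
  refine lt_of_le_of_ne ((rankLike_rk f).card_le S) ?_
  intro heq
  have h2 : Set.range (fun e : S => f e) = f '' S := by
    ext v; simp
  have hli : LinearIndependent ℝ (fun e : S => f e) := by
    rw [linearIndependent_iff_card_eq_finrank_span, Set.finrank, h2]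
    unfold rk at heq
    rw [heq]; simp
  apply h0
  ext e
  by_cases he : e ∈ S
  · rw [Fintype.linearIndependent_iff] at hli
    have := hli (fun e => w e) ?_ ⟨e, he⟩
    · exact this
    · rw [Finset.sum_coe_sort S (fun e => w e • f e)]
      rw [Finset.sum_subset (Finset.subset_univ S)]
      · exact hw
      · intro e _ he
        rw [hS e he, zero_smul]
  · exact hS e he

lemma mem_span_of_stress (f : E → V) (S : Set E) (w : E → ℝ) (hw : IsStress f w) (x : E)
    (hx : w x ≠ 0) (hS : ∀ e, e ∉ S → e ≠ x → w e = 0) :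
    f x ∈ Submodule.span ℝ (f '' S) := by
  classical
  have h1 : w x • f x = - ∑ e ∈ Finset.univ.erase x, w e • f e := by
    have := Finset.add_sum_erase Finset.univ (fun e => w e • f e) (Finset.mem_univ x)
    unfold IsStress at hw
    rw [hw] at this
    exact eq_neg_of_add_eq_zero_left this
  have h2 : f x = (w x)⁻¹ • (w x • f x) := by
    rw [smul_smul, inv_mul_cancel₀ hx, one_smul]
  rw [h2, h1]
  apply Submodule.smul_mem
  apply Submodule.neg_mem
  apply Submodule.sum_mem
  intro e he
  by_cases heS : e ∈ S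
  · exact Submodule.smul_mem _ _ (Submodule.subset_span ⟨e, heS, rfl⟩)
  · rw [hS e heS (Finset.ne_of_mem_erase he), zero_smul]
    exact Submodule.zero_mem _

lemma rk_insert_eq (f : E → V) (S : Set E) (x : E) (h : f x ∈ Submodule.span ℝ (f '' S)) :
    rk f (insert x S) = rk f S := by
  unfold rk
  rw [Set.image_insert_eq, Submodule.span_insert_eq_span h]

lemma stress_of_rk_insert_eq (f : E → V) (S : Set E) (x : E) (hx : x ∉ S)
    (h : rk f (insert x S) = rk f S) :
    ∃ w : E → ℝ, IsStress f w ∧ w x ≠ 0 ∧ ∀ e, e ∉ S → e ≠ x → w e = 0 := by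
  classical
  have hmem : f x ∈ Submodule.span ℝ (f '' S) := by
    unfold rk at h
    have h2 : Submodule.span ℝ (f '' S) ≤ Submodule.span ℝ (f '' insert x S) :=
      Submodule.span_mono (Set.image_mono (Set.subset_insert _ _))
    have h3 := Submodule.eq_of_le_of_finrank_eq h2 h.symm
    rw [h3]
    exact Submodule.subset_span ⟨x, Set.mem_insert _ _, rfl⟩
  have hSf : f '' S = f '' (S.toFinset : Set E) := by simp
  rw [hSf, Submodule.mem_span_image_finset_iff_exists_fun'] at hmem
  obtain ⟨c, hc⟩ := hmem
  refine ⟨fun e => if e = x then -1 else if e ∈ S then c e else 0, ?_, by simp, ?_⟩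
  · unfold IsStress
    rw [← Finset.add_sum_erase _ _ (Finset.mem_univ x)]
    simp only [if_true, neg_smul, one_smul]
    rw [neg_add_eq_zero, ← hc]
    have hsub : ∑ e ∈ S.toFinset, (if e = x then (-1 : ℝ) else if e ∈ S then c e else 0) • f e =
        ∑ e ∈ Finset.univ.erase x,
          (if e = x then (-1 : ℝ) else if e ∈ S then c e else 0) • f e := by
      apply Finset.sum_subset
      · intro e he
        rw [Finset.mem_erase]
        refine ⟨?_, Finset.mem_univ _⟩
        rintro rfl
        exact hx (by simpa using he)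
      · intro e he he'
        have h1 : e ≠ x := Finset.ne_of_mem_erase he
        have h2 : e ∉ S := by simpa using he'
        simp [h1, h2]
    rw [← hsub]
    apply Finset.sum_congr rfl
    intro e he
    have he' : e ∈ S := by simpa using he
    have : e ≠ x := fun h => hx (h ▸ he')
    simp [this, he']
  · intro e he hex
    simp [he, hex]

theorem stress_main [DecidableEq E] (f : E → V)
    {J T : Type*} [Fintype J] [DecidableEq J] [Fintype T] [DecidableEq T]
    (el : J × T × Bool → E) (hinj : Function.Injective el)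
    (inD : J × T × Bool → Prop)
    (s1 : ∀ j, ∃ w : E → ℝ, IsStress f w ∧ (∀ x, inD x → x.1 ≠ j → w (el x) ≠ 0) ∧
      ∀ e, w e ≠ 0 → ∃ x, inD x ∧ x.1 ≠ j ∧ el x = e)
    (s2 : ∀ g, ∀ w : E → ℝ, IsStress f w → (∀ e, e ∉ Set.range el → e ≠ g → w e = 0) →
      (∀ e, w e ≠ 0 → ∃ x, inD x ∧ el x = e) ∧
      (∀ x y, inD x → inD y → x.1 ≠ y.1 → w (el x) = 0 → w (el y) = 0 → w = 0))
    (h7 : ∃ t0, ∀ j b, inD (j, t0, b))
    (h8 : 3 ≤ Fintype.card J) : ¬ HasMatchingProperty (rk f) := by
  classical
  have hr := rankLike_rk f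
  have hJ : Nonempty J := Fintype.card_pos_iff.1 (by omega)
  have hne : ∀ j : J, ∃ j', j' ≠ j := fun j =>
    Fintype.exists_ne_of_one_lt_card (by omega) j
  obtain ⟨t0, ht0⟩ := h7
  have s2' : ∀ w : E → ℝ, IsStress f w → (∀ e, e ∉ Set.range el → w e = 0) →
      (∀ x y, inD x → inD y → x.1 ≠ y.1 → w (el x) = 0 → w (el y) = 0 → w = 0) := by
    intro w hw hs
    exact (s2 (el (Classical.arbitrary J, t0, true)) w hw (fun e he _ => hs e he)).2
  have h4 : ∀ S : Finset E, (S : Set E) ⊆ Set.range el → rk f S < S.card →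
      ∃ j0, ∀ x, inD x → el x ∉ S → x.1 = j0 := by
    intro S hS hlt
    obtain ⟨w, hw, hw0, hws⟩ := exists_stress_of_rk_lt f S hlt
    by_cases hex : ∃ x0, inD x0 ∧ el x0 ∉ S
    · obtain ⟨x0, hx0, hx0S⟩ := hex
      refine ⟨x0.1, fun x hx hxS => ?_⟩
      by_contra hne
      apply hw0
      exact s2' w hw (fun e he => hws e (fun h => he (hS h))) x x0 hx hx0 hne
        (hws _ hxS) (hws _ hx0S)
    · push Not at hex
      exact ⟨Classical.arbitrary J, fun x hx hxS => absurd (hex x hx) hxS⟩
  have h6 : ∀ x, inD x → rk f (Set.range el \ {el x}) = rk f (Set.range el) := by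
    intro x hx
    obtain ⟨j, hj⟩ := hne x.1
    obtain ⟨w, hw, hw1, hw2⟩ := s1 j
    have h1 : f (el x) ∈ Submodule.span ℝ (f '' (Set.range el \ {el x})) := by
      apply mem_span_of_stress f _ w hw (el x) (hw1 x hx hj.symm)
      intro e he hex
      by_contra hne0
      obtain ⟨y, -, -, rfl⟩ := hw2 e hne0
      exact he ⟨⟨y, rfl⟩, hex⟩
    rw [← rk_insert_eq f _ _ h1, Set.insert_sdiff_singleton, Set.insert_eq_of_mem (Set.mem_range_self x)]
  refine abstract_main hr el hinj inD ?_ ?_ h4 ?_ h6 ⟨t0, ht0⟩ h8
  · -- the rank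
    obtain ⟨j1⟩ := hJ
    obtain ⟨j2, h21⟩ := hne j1
    set x1 : J × T × Bool := (j1, t0, false) with hx1
    set x2 : J × T × Bool := (j2, t0, false) with hx2
    have hx12 : el x1 ≠ el x2 := by
      intro h
      have := hinj h
      rw [hx1, hx2] at this
      exact h21 (congrArg Prod.fst this).symm
    set R : Finset E := Finset.univ.image el with hR
    have hRc : (R : Set E) = Set.range el := by simp [hR]
    set S : Finset E := (R.erase (el x1)).erase (el x2) with hS
    have hRcard : R.card = 2 * (Fintype.card J * Fintype.card T) := by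
      rw [hR, Finset.card_image_of_injective _ hinj, Finset.card_univ, Fintype.card_prod,
        Fintype.card_prod, Fintype.card_bool]
      ring
    have hx1R : el x1 ∈ R := by simp [hR]
    have hx2R : el x2 ∈ R := by simp [hR]
    have hScard : S.card + 2 = R.card := by
      have e1 := Finset.card_erase_add_one hx1R
      have e2 : el x2 ∈ R.erase (el x1) := Finset.mem_erase.2 ⟨hx12.symm, hx2R⟩
      have e3 := Finset.card_erase_add_one e2
      rw [hS]
      omega
    have hSr : rk f S = S.card := by
      refine le_antisymm (hr.card_le S) ?_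
      by_contra hlt
      push Not at hlt
      obtain ⟨w, hw, hw0, hws⟩ := exists_stress_of_rk_lt f S hlt
      apply hw0
      refine s2' w hw ?_ x1 x2 (ht0 _ _) (ht0 _ _) h21.symm (hws _ ?_) (hws _ ?_)
      · intro e he
        apply hws
        intro h
        apply he
        rw [← hRc]
        exact Finset.mem_of_mem_erase (Finset.mem_of_mem_erase h)
      · simp [hS]
      · simp [hS]
    have hin1 : f (el x1) ∈ Submodule.span ℝ (f '' S) := by
      obtain ⟨w, hw, hw1, hw2⟩ := s1 j2
      apply mem_span_of_stress f _ w hw (el x1) (hw1 x1 (ht0 _ _) h21.symm)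
      intro e he hex
      by_contra hne0
      obtain ⟨y, -, hy, rfl⟩ := hw2 e hne0
      apply he
      rw [hS, Finset.mem_coe, Finset.mem_erase, Finset.mem_erase]
      refine ⟨?_, hex, by simp [hR]⟩
      intro h
      apply hy
      rw [hinj h]
    have hin2 : f (el x2) ∈ Submodule.span ℝ (f '' S) := by
      obtain ⟨w, hw, hw1, hw2⟩ := s1 j1
      apply mem_span_of_stress f _ w hw (el x2) (hw1 x2 (ht0 _ _) h21)
      intro e he hex
      by_contra hne0
      obtain ⟨y, -, hy, rfl⟩ := hw2 e hne0
      apply he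
      rw [hS, Finset.mem_coe, Finset.mem_erase, Finset.mem_erase]
      refine ⟨hex, ?_, by simp [hR]⟩
      intro h
      apply hy
      rw [hinj h]
    have hrR : rk f (Set.range el) = rk f S := by
      have e1 : Set.range el = insert (el x1) (insert (el x2) (S : Set E)) := by
        rw [← hRc, hS]
        ext e
        simp only [Finset.coe_erase, Set.mem_insert_iff, Set.mem_sdiff, Set.mem_singleton_iff,
          Finset.mem_coe]
        constructor
        · intro h
          tauto
        · rintro (rfl | rfl | h)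
          · exact hx1R
          · exact hx2R
          · exact h.1.1
      rw [e1]
      rw [rk_insert_eq, rk_insert_eq _ _ _ hin2]
      exact Submodule.span_mono (Set.image_mono (Set.subset_insert _ _)) hin1
    rw [hrR, hSr, hScard, hRcard]
  · -- flat
    intro g hg heq
    obtain ⟨w, hw, hwg, hws⟩ := stress_of_rk_insert_eq f _ g hg heq
    obtain ⟨x, -, hx⟩ := (s2 g w hw hws).1 g hwg
    exact hg ⟨x, hx⟩
  · intro j t S hf ht hS
    obtain ⟨w, hw, hw1, hw2⟩ := s1 j
    obtain ⟨j', hj'⟩ := hne j
    refine rk_lt_of_stress f S w hw ?_ ?_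
    · intro h0
      apply hw1 (j', t0, false) (ht0 _ _) hj'
      rw [h0]; rfl
    · intro e he
      by_contra hne0
      obtain ⟨y, -, hy, rfl⟩ := hw2 e hne0
      rcases hS y he with rfl | rfl
      · exact hy rfl
      · exact hy rfl

end Linear

/-! ## Proof: stresses of placements -/

section Rigidity

variable {α : Type*} [Fintype α] [DecidableEq α] {d : ℕ}

/-- weights of a stress as a symmetric function -/
def Wf (w : Edge α → ℝ) (x y : α) : ℝ :=
  if h : x ≠ y then w ⟨s(x, y), by simpa using h⟩ else 0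

lemma Wf_symm (w : Edge α → ℝ) (x y : α) : Wf w x y = Wf w y x := by
  unfold Wf
  by_cases h : x = y
  · subst h; rfl
  · have h' : y ≠ x := Ne.symm h
    have h'' : x ≠ y := h
    simp only [dif_pos h', dif_pos h'']
    congr 2
    exact Sym2.eq_swap

lemma Wf_self (w : Edge α → ℝ) (x : α) : Wf w x x = 0 := by simp [Wf]

lemma sum_row (p : α → Fin d → ℝ) (w : Edge α → ℝ) (x : α) (c : Fin d) :
    (∑ e, w e • rigidityRow p e) (x, c) = ∑ y, Wf w x y * (p x c - p y c) := by
  rw [Finset.sum_apply]
  have h1 : ∑ y : {y // y ≠ x}, Wf w x y * (p x c - p y c) =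
      ∑ e : Edge α, (w e • rigidityRow p e) (x, c) := by
    apply Fintype.sum_of_injective
      (fun y : {y // y ≠ x} => (⟨s(x, y.1), by simpa using y.2.symm⟩ : Edge α))
    · intro y y' h
      simp only [Subtype.mk.injEq, Sym2.congr_right] at h
      exact Subtype.ext h
    · intro e he
      rcases e with ⟨e, hed⟩
      induction e with
      | _ u v =>
        have huv : u ≠ v := by simpa using hed
        have hxu : x ≠ u := by
          rintro rfl
          apply he
          exact ⟨⟨v, huv.symm⟩, rfl⟩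
        have hxv : x ≠ v := by
          rintro rfl
          apply he
          exact ⟨⟨u, huv⟩, Subtype.ext Sym2.eq_swap⟩
        simp [rigidityRow, hxu, hxv]
    · intro y
      have hy : x ≠ y.1 := y.2.symm
      simp [rigidityRow, Wf, hy]
  rw [← h1]
  apply Fintype.sum_of_injective (fun y : {y // y ≠ x} => y.1) Subtype.val_injective
  · intro y hy
    have : y = x := by
      by_contra h
      exact hy ⟨⟨y, h⟩, rfl⟩
    subst this
    simp
  · intro y; rfl

/-- homogeneous coordinates -/
def hp (p : α → Fin d → ℝ) (x : α) (o : Option (Fin d)) : ℝ := o.elim 1 (p x)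

lemma stress_iff (p : α → Fin d → ℝ) (w : Edge α → ℝ) :
    IsStress (rigidityRow p) w ↔
      ∀ x o, ∑ y, Wf w x y * (hp p x o - hp p y o) = 0 := by
  unfold IsStress
  constructor
  · intro h x o
    cases o with
    | none => simp [hp]
    | some c =>
      have := sum_row p w x c
      rw [h] at this
      simpa [hp] using this.symm
  · intro h
    ext ⟨x, c⟩
    rw [sum_row]
    have := h x (some c)
    simpa [hp] using this

/-- general position -/
def GP (p : α → Fin d → ℝ) : Prop :=
  ∀ S : Finset α, S.card ≤ d + 1 → ∀ c : α → ℝ, (∀ o, ∑ x ∈ S, c x * hp p x o = 0) →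
    ∀ x ∈ S, c x = 0

/-- Veronese independence -/
def VI (p : α → Fin d → ℝ) : Prop :=
  ∀ S : Finset α, S.card ≤ 2 * d + 5 → ∀ u ∈ S, ∀ v ∈ S, u ≠ v → ∀ (c : α → ℝ) (θ : ℝ),
    (∀ o o', ∑ x ∈ S, c x * (hp p x o * hp p x o') +
      θ * (hp p u o * hp p v o' + hp p v o * hp p u o') = 0) →
    (∀ x ∈ S, c x = 0) ∧ θ = 0

/-- transfer of linear independence from one point to generic points -/
theorem transfer {σ ι κ : Type*} [Fintype ι] [DecidableEq ι] [Fintype κ]
    (M : ι → κ → MvPolynomial σ ℚ) (p0 p : σ → ℝ) (hp : AlgebraicIndependent ℚ p)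
    (h0 : ∀ c : ι → ℝ, (∀ k, ∑ i, c i * MvPolynomial.aeval p0 (M i k) = 0) → c = 0)
    (c : ι → ℝ) (hc : ∀ k, ∑ i, c i * MvPolynomial.aeval p (M i k) = 0) : c = 0 := by
  classical
  let G : Matrix ι ι (MvPolynomial σ ℚ) := Matrix.of fun i j => ∑ k, M i k * M j k
  have hG : ∀ q : σ → ℝ, MvPolynomial.aeval q G.det =
      Matrix.det (Matrix.of fun i j =>
        ∑ k, MvPolynomial.aeval q (M i k) * MvPolynomial.aeval q (M j k)) := by
    intro q
    rw [AlgHom.map_det]
    congr 1
    ext i j
    rw [AlgHom.mapMatrix_apply, Matrix.map_apply]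
    simp [G]
  have hp0 : MvPolynomial.aeval p0 G.det ≠ 0 := by
    rw [hG]
    intro hdet
    obtain ⟨v, hv0, hv⟩ := Matrix.exists_mulVec_eq_zero_iff.2 hdet
    apply hv0
    apply h0
    have h1 : ∑ k, (∑ i, v i * MvPolynomial.aeval p0 (M i k)) ^ 2 = 0 := by
      have h2 : ∑ i, v i * (Matrix.mulVec (Matrix.of fun i j =>
          ∑ k, MvPolynomial.aeval p0 (M i k) * MvPolynomial.aeval p0 (M j k)) v) i = 0 := by
        rw [hv]; simp
      rw [← h2]
      simp only [Matrix.mulVec, dotProduct, sq, Finset.sum_mul, Finset.mul_sum, Matrix.of_apply]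
      rw [Finset.sum_comm]
      apply Finset.sum_congr rfl
      intro i _
      rw [Finset.sum_comm]
      apply Finset.sum_congr rfl
      intro j _
      apply Finset.sum_congr rfl
      intro k _
      ring
    intro k
    have h3 := (Finset.sum_eq_zero_iff_of_nonneg (fun k _ => sq_nonneg _)).1 h1 k
      (Finset.mem_univ k)
    exact pow_eq_zero_iff (two_ne_zero) |>.1 h3
  have hGne : G.det ≠ 0 := by
    intro h
    rw [h] at hp0
    simp at hp0
  have hpne : MvPolynomial.aeval p G.det ≠ 0 := by
    intro h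
    apply hGne
    apply hp
    rw [h]; simp
  by_contra hcne
  apply hpne
  rw [hG]
  apply Matrix.exists_mulVec_eq_zero_iff.1
  refine ⟨c, hcne, ?_⟩
  ext i
  simp only [Matrix.mulVec, dotProduct, Pi.zero_apply, Matrix.of_apply]
  have : ∀ j, (∑ k, MvPolynomial.aeval p (M i k) * MvPolynomial.aeval p (M j k)) * c j =
      ∑ k, MvPolynomial.aeval p (M i k) * (c j * MvPolynomial.aeval p (M j k)) := by
    intro j
    rw [Finset.sum_mul]
    apply Finset.sum_congr rfl
    intro k _
    ring
  simp_rw [this]
  rw [Finset.sum_comm]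
  simp_rw [← Finset.mul_sum, hc]
  simp

end Rigidity

section Generic

variable {α : Type*} [Fintype α] [DecidableEq α] {d : ℕ}

/-- polynomial homogeneous coordinates -/
noncomputable def hpol (x : α) (o : Option (Fin d)) : MvPolynomial (α × Fin d) ℚ :=
  o.elim 1 (fun c => MvPolynomial.X (x, c))

omit [Fintype α] [DecidableEq α] in
lemma aeval_hpol (q : α × Fin d → ℝ) (x : α) (o : Option (Fin d)) :
    MvPolynomial.aeval q (hpol x o) = hp (fun x c => q (x, c)) x o := by
  cases o <;> simp [hpol, hp]

theorem gp_of_generic (p : α → Fin d → ℝ)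
    (hgen : AlgebraicIndependent ℚ (fun x : α × Fin d => p x.1 x.2)) : GP p := by
  classical
  intro S hS c hc
  obtain ⟨φ⟩ : Nonempty (S ↪ Option (Fin d)) := by
    apply Function.Embedding.nonempty_of_card_le
    simpa using hS
  have h0 := transfer (M := fun (i : S) (o : Option (Fin d)) => hpol i.1 o)
    (p0 := fun x => if h : x.1 ∈ S then (if φ ⟨x.1, h⟩ = some x.2 then 1 else 0) else 0)
    (p := fun x : α × Fin d => p x.1 x.2) hgen ?_ (fun i => c i.1) ?_
  · intro x hx
    exact congrFun h0 ⟨x, hx⟩
  · intro c' hc'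
    have key : ∀ (i : S) (o : Option (Fin d)), MvPolynomial.aeval
        (fun x : α × Fin d => if h : x.1 ∈ S then
          (if φ ⟨x.1, h⟩ = some x.2 then (1 : ℝ) else 0) else 0) (hpol i.1 o) =
        if o = none then 1 else if φ i = o then 1 else 0 := by
      intro i o
      rw [aeval_hpol]
      cases o <;> simp [hp]
    simp_rw [key] at hc'
    have h1 : ∀ i, φ i ≠ none → c' i = 0 := by
      intro i hi
      have := hc' (φ i)
      simpa [hi] using this
    have h2 := hc' none
    simp only [if_true, mul_one] at h2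
    ext i
    by_cases hi : φ i = none
    · rw [Finset.sum_eq_single i] at h2
      · exact h2
      · intro j _ hji
        apply h1
        intro hj
        exact hji (φ.injective (hj.trans hi.symm))
      · simp
    · exact h1 i hi
  · intro o
    simp_rw [aeval_hpol]
    have := hc o
    rw [← Finset.sum_coe_sort S] at this
    exact this

/-- special positions for the Veronese argument -/
noncomputable def spos (hd : 5 ≤ d) : Fin d ⊕ Fin d ⊕ Fin 5 → Fin d → ℝ
  | .inl i => Pi.single i 1
  | .inr (.inl i) => Pi.single i (-1)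
  | .inr (.inr m) => ![0, Pi.single ⟨0, by omega⟩ 1 + Pi.single ⟨1, by omega⟩ 1,
      Pi.single ⟨0, by omega⟩ 1 + Pi.single ⟨2, by omega⟩ 1,
      Pi.single ⟨1, by omega⟩ 1 + Pi.single ⟨2, by omega⟩ 1,
      Pi.single ⟨0, by omega⟩ 1 + Pi.single ⟨3, by omega⟩ 1] m

theorem vi_special (hd : 5 ≤ d) (c : Fin d ⊕ Fin d ⊕ Fin 5 → ℝ) (θ : ℝ)
    (h : ∀ o o', ∑ x, c x * (hp (spos hd) x o * hp (spos hd) x o') +
      θ * (hp (spos hd) (.inl ⟨3, by omega⟩) o * hp (spos hd) (.inl ⟨4, by omega⟩) o' +
        hp (spos hd) (.inl ⟨4, by omega⟩) o * hp (spos hd) (.inl ⟨3, by omega⟩) o') = 0) :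
    c = 0 ∧ θ = 0 := by
  have hs : ∀ (a b : Fin d), a ≠ b →
      ∑ i, c (.inl i) * ((Pi.single i (1 : ℝ) : Fin d → ℝ) a * (Pi.single i (1:ℝ) : Fin d → ℝ) b) = 0 := by
    intro a b hab
    apply Finset.sum_eq_zero
    intro i _
    by_cases hia : i = a
    · subst hia
      have : (Pi.single i (1 : ℝ) : Fin d → ℝ) b = 0 := Pi.single_eq_of_ne hab.symm _
      rw [this]; ring
    · have : (Pi.single i (1 : ℝ) : Fin d → ℝ) a = 0 := Pi.single_eq_of_ne (Ne.symm hia) _
      rw [this]; ring
  have hs' : ∀ (a b : Fin d), a ≠ b →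
      ∑ i, c (.inr (.inl i)) * ((Pi.single i (-1 : ℝ) : Fin d → ℝ) a * (Pi.single i (-1:ℝ) : Fin d → ℝ) b) = 0 := by
    intro a b hab
    apply Finset.sum_eq_zero
    intro i _
    by_cases hia : i = a
    · subst hia
      have : (Pi.single i (-1 : ℝ) : Fin d → ℝ) b = 0 := Pi.single_eq_of_ne hab.symm _
      rw [this]; ring
    · have : (Pi.single i (-1 : ℝ) : Fin d → ℝ) a = 0 := Pi.single_eq_of_ne (Ne.symm hia) _
      rw [this]; ring
  have hoff : ∀ (a b : Fin d), a ≠ b → ∑ m : Fin 5, c (.inr (.inr m)) *
      (spos hd (.inr (.inr m)) a * spos hd (.inr (.inr m)) b) +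
      θ * (spos hd (.inl ⟨3, by omega⟩) a * spos hd (.inl ⟨4, by omega⟩) b +
        spos hd (.inl ⟨4, by omega⟩) a * spos hd (.inl ⟨3, by omega⟩) b) = 0 := by
    intro a b hab
    have h1 := h (some a) (some b)
    rw [Fintype.sum_sum_type, Fintype.sum_sum_type] at h1
    simp only [hp, Option.elim] at h1
    have e1 := hs a b hab
    have e2 := hs' a b hab
    simp only [spos] at h1 ⊢
    rw [e1, e2] at h1
    linarith
  have n01 : (⟨0, by omega⟩ : Fin d) ≠ ⟨1, by omega⟩ := by simp
  have n02 : (⟨0, by omega⟩ : Fin d) ≠ ⟨2, by omega⟩ := by simp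
  have n12 : (⟨1, by omega⟩ : Fin d) ≠ ⟨2, by omega⟩ := by simp
  have n03 : (⟨0, by omega⟩ : Fin d) ≠ ⟨3, by omega⟩ := by simp
  have n34 : (⟨3, by omega⟩ : Fin d) ≠ ⟨4, by omega⟩ := by simp
  have hθ : θ = 0 := by
    have := hoff _ _ n34
    simp [spos, Fin.sum_univ_five, Pi.single_apply] at this
    exact this
  subst hθ
  have c1 : c (.inr (.inr 1)) = 0 := by
    have := hoff _ _ n01
    simpa [spos, Fin.sum_univ_five, Pi.single_apply] using this
  have c2 : c (.inr (.inr 2)) = 0 := by
    have := hoff _ _ n02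
    simpa [spos, Fin.sum_univ_five, Pi.single_apply] using this
  have c3 : c (.inr (.inr 3)) = 0 := by
    have := hoff _ _ n12
    simpa [spos, Fin.sum_univ_five, Pi.single_apply] using this
  have c4 : c (.inr (.inr 4)) = 0 := by
    have := hoff _ _ n03
    simpa [spos, Fin.sum_univ_five, Pi.single_apply] using this
  have hpm : ∀ a : Fin d, c (.inl a) = 0 ∧ c (.inr (.inl a)) = 0 := by
    intro a
    have h1 := h (some a) (some a)
    have h2 := h (some a) none
    rw [Fintype.sum_sum_type, Fintype.sum_sum_type, Fin.sum_univ_five, c1, c2, c3, c4] at h1 h2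
    simp [hp, spos, Pi.single_apply] at h1 h2
    constructor <;> linarith
  have c0 : c (.inr (.inr 0)) = 0 := by
    have h2 := h none none
    rw [Fintype.sum_sum_type, Fintype.sum_sum_type, Fin.sum_univ_five, c1, c2, c3, c4] at h2
    simpa [hp, hpm] using h2
  refine ⟨?_, rfl⟩
  ext x
  rcases x with i | i | m
  · exact (hpm i).1
  · exact (hpm i).2
  · fin_cases m
    · exact c0
    · exact c1
    · exact c2
    · exact c3
    · exact c4

theorem vi_of_generic (hd : 5 ≤ d) (p : α → Fin d → ℝ)
    (hgen : AlgebraicIndependent ℚ (fun x : α × Fin d => p x.1 x.2)) : VI p := by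
  classical
  intro S hS u hu v hv huv c θ hc
  obtain ⟨φ, hφu, hφv⟩ : ∃ φ : S ↪ (Fin d ⊕ Fin d ⊕ Fin 5),
      φ ⟨u, hu⟩ = .inl ⟨3, by omega⟩ ∧ φ ⟨v, hv⟩ = .inl ⟨4, by omega⟩ := by
    obtain ⟨ψ⟩ : Nonempty (S ↪ (Fin d ⊕ Fin d ⊕ Fin 5)) := by
      apply Function.Embedding.nonempty_of_card_le
      simp only [Fintype.card_coe, Fintype.card_sum, Fintype.card_fin]
      omega
    let σ1 : Equiv.Perm (Fin d ⊕ Fin d ⊕ Fin 5) :=
      Equiv.swap (ψ ⟨u, hu⟩) (.inl ⟨3, by omega⟩)
    let σ2 : Equiv.Perm (Fin d ⊕ Fin d ⊕ Fin 5) :=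
      Equiv.swap (σ1 (ψ ⟨v, hv⟩)) (.inl ⟨4, by omega⟩)
    have e1 : σ1 (ψ ⟨u, hu⟩) = .inl ⟨3, by omega⟩ := Equiv.swap_apply_left _ _
    refine ⟨ψ.trans (σ1.trans σ2).toEmbedding, ?_, ?_⟩
    · change σ2 (σ1 (ψ ⟨u, hu⟩)) = _
      rw [e1]
      apply Equiv.swap_apply_of_ne_of_ne
      · rw [← e1]
        intro h
        have := ψ.injective (σ1.injective h)
        simp only [Subtype.mk.injEq] at this
        exact huv this
      · simp
    · change σ2 (σ1 (ψ ⟨v, hv⟩)) = _
      exact Equiv.swap_apply_left _ _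
  let M : Option S → (Option (Fin d) × Option (Fin d)) → MvPolynomial (α × Fin d) ℚ :=
    fun i oo => i.elim (hpol u oo.1 * hpol v oo.2 + hpol v oo.1 * hpol u oo.2)
      (fun x => hpol x.1 oo.1 * hpol x.1 oo.2)
  have h0 := transfer (M := M)
    (p0 := fun x => if h : x.1 ∈ S then spos hd (φ ⟨x.1, h⟩) x.2 else 0)
    (p := fun x : α × Fin d => p x.1 x.2) hgen ?_
    (fun i => i.elim θ (fun x => c x.1)) ?_
  · constructor
    · intro x hx
      exact congrFun h0 (some ⟨x, hx⟩)
    · exact congrFun h0 none
  · intro c' hc'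
    have key : ∀ (i : S) (o : Option (Fin d)), MvPolynomial.aeval
        (fun x : α × Fin d => if h : x.1 ∈ S then spos hd (φ ⟨x.1, h⟩) x.2 else 0)
        (hpol i.1 o) = hp (spos hd) (φ i) o := by
      intro i o
      rw [aeval_hpol]
      cases o <;> simp [hp]
    have h1 := vi_special hd (Function.extend φ (fun i => c' (some i)) 0) (c' none) ?_
    · ext i
      cases i with
      | none => exact h1.2
      | some i =>
        have := congrFun h1.1 (φ i)
        rw [φ.injective.extend_apply] at this
        exact this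
    · intro o o'
      have h2 := hc' (o, o')
      rw [Fintype.sum_option] at h2
      simp only [M, Option.elim, map_add, map_mul] at h2
      rw [key ⟨u, hu⟩, key ⟨u, hu⟩, key ⟨v, hv⟩, key ⟨v, hv⟩, hφu, hφv] at h2
      rw [← h2, add_comm]
      congr 1
      symm
      apply Fintype.sum_of_injective φ φ.injective
      · intro x hx
        rw [Function.extend_apply' _ _ _ (by simpa using hx)]
        simp
      · intro i
        rw [φ.injective.extend_apply, key, key]
  · rintro ⟨o, o'⟩
    rw [Fintype.sum_option]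
    simp only [M, Option.elim, map_add, map_mul, aeval_hpol]
    have := hc o o'
    rw [← Finset.sum_coe_sort S] at this
    rw [add_comm]
    exact this

end Generic

section Config

variable {α : Type*} [Fintype α] [DecidableEq α] {d : ℕ}

lemma star_zero (p : α → Fin d → ℝ) (hGP : GP p) (x : α) (W : α → ℝ)
    (hW : ∀ o, ∑ y, W y * (hp p x o - hp p y o) = 0) (hx : W x = 0)
    (hcard : (Finset.univ.filter (fun y => W y ≠ 0)).card ≤ d) : ∀ y, W y = 0 := by
  intro y
  by_contra hy
  set N := Finset.univ.filter (fun y => W y ≠ 0) with hN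
  have hxN : x ∉ N := by simp [hN, hx]
  have hyN : y ∈ N := by simp [hN, hy]
  have h := hGP (insert x N) (by rw [Finset.card_insert_of_notMem hxN]; omega)
    (fun z => if z = x then ∑ y, W y else - W z) ?_ y (Finset.mem_insert_of_mem hyN)
  · have hyx : y ≠ x := fun h => hxN (h ▸ hyN)
    simp only [hyx, if_false, neg_eq_zero] at h
    exact hy h
  · intro o
    rw [Finset.sum_insert hxN]
    simp only [if_true]
    have e1 : ∑ z ∈ N, (if z = x then ∑ y, W y else - W z) * hp p z o =
        ∑ z, - W z * hp p z o := by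
      have e2 : ∑ z ∈ N, - W z * hp p z o = ∑ z, - W z * hp p z o := by
        apply Finset.sum_subset (Finset.subset_univ N)
        intro z _ hz
        have : W z = 0 := by
          by_contra h
          exact hz (by simp [hN, h])
        simp [this]
      rw [← e2]
      apply Finset.sum_congr rfl
      intro z hz
      have : z ≠ x := fun h => hxN (h ▸ hz)
      simp [this]
    rw [e1, ← hW o, Finset.sum_mul, ← Finset.sum_add_distrib]
    apply Finset.sum_congr rfl
    intro z _
    ring

/-- affine dependency of `d+2` points -/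
lemma aff_dep (p : α → Fin d → ℝ) (hGP : GP p) (F : Finset α) (hF : F.card = d + 2) :
    ∃ c : α → ℝ, (∀ o, ∑ y, c y * hp p y o = 0) ∧ (∀ y ∈ F, c y ≠ 0) ∧
      ∀ y, y ∉ F → c y = 0 := by
  classical
  have hli : ¬ LinearIndependent ℝ (fun y : F => hp p y.1) := by
    intro hli
    have := hli.fintype_card_le_finrank
    simp only [Fintype.card_coe, hF, Module.finrank_fintype_fun_eq_card, Fintype.card_option,
      Fintype.card_fin] at this
    omega
  rw [Fintype.not_linearIndependent_iff] at hli
  obtain ⟨g, hg, i, hi⟩ := hli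
  let c : α → ℝ := fun y => if h : y ∈ F then g ⟨y, h⟩ else 0
  have hcF : ∀ y, y ∉ F → c y = 0 := fun y hy => by simp [c, hy]
  have hc : ∀ o, ∑ y, c y * hp p y o = 0 := by
    intro o
    have := congrFun hg o
    rw [Finset.sum_apply] at this
    simp only [Pi.smul_apply, smul_eq_mul, Pi.zero_apply] at this
    rw [← this, ← Finset.sum_subset (Finset.subset_univ F), ← Finset.sum_coe_sort F]
    · apply Finset.sum_congr rfl
      intro y _
      simp [c]
    · intro y _ hy
      simp [hcF y hy]
  refine ⟨c, hc, ?_, hcF⟩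
  intro y hy hy0
  have h1 := hGP (F.erase y) (by rw [Finset.card_erase_of_mem hy]; omega) c ?_
  · apply hi
    by_cases hiy : i.1 = y
    · have : c i.1 = 0 := by rw [hiy]; exact hy0
      simpa [c] using this
    · have : c i.1 = 0 := h1 i.1 (Finset.mem_erase.2 ⟨hiy, i.2⟩)
      simpa [c] using this
  · intro o
    rw [← hc o]
    apply Finset.sum_subset (Finset.subset_univ _)
    intro z _ hz
    rw [Finset.mem_erase] at hz
    by_cases hzy : z = y
    · rw [hzy, hy0, zero_mul]
    · have : z ∉ F := fun h => hz ⟨hzy, h⟩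
      rw [hcF z this, zero_mul]

variable {k : ℕ}

/-- indices of the side `A` of the complete bipartite graph, `2k+3` of them -/
abbrev IA (k : ℕ) : Type := Option (Fin (k + 1) × Bool)
/-- indices of the side `B`, `2k+4` of them -/
abbrev IB (k : ℕ) : Type := Fin 2 × Fin (k + 2)
/-- all indices -/
abbrev IV (k : ℕ) : Type := IA k ⊕ IB k ⊕ Fin 2

/-- position in the star -/
def phi : Option (Fin (k + 1)) × Bool → Option (IA k)
  | (some t, b) => some (some (t, b))
  | (none, false) => some none
  | (none, true) => none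

lemma phi_inj : Function.Injective (phi (k := k)) := by
  rintro ⟨t, b⟩ ⟨t', b'⟩ h
  rcases t with _ | t <;> rcases t' with _ | t' <;> cases b <;> cases b' <;>
    simp_all [phi]

lemma phi_surj (a : IA k) : ∃ z, phi (k := k) z = some a := by
  rcases a with _ | ⟨t, b⟩
  · exact ⟨(none, false), rfl⟩
  · exact ⟨(some t, b), rfl⟩

/-- the other end of the edge -/
def other (j : IB k) (z : Option (Fin (k + 1)) × Bool) : IV k :=
  match phi z with
  | some a => .inl a
  | none => .inr (.inr j.1)

lemma other_ne (j j' : IB k) (z : Option (Fin (k + 1)) × Bool) :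
    other j z ≠ .inr (.inl j') := by
  unfold other
  cases phi z <;> simp

/-- the edges of the configuration -/
def el (v : IV k ↪ α) (x : IB k × Option (Fin (k + 1)) × Bool) : Edge α :=
  ⟨s(v (.inr (.inl x.1)), v (other x.1 x.2)), by
    simp only [Sym2.mk_isDiag_iff]
    intro h
    exact other_ne _ _ _ (v.injective h).symm⟩

lemma el_inj (v : IV k ↪ α) : Function.Injective (el v) := by
  rintro ⟨j, z⟩ ⟨j', z'⟩ h
  simp only [el, Subtype.mk.injEq, Sym2.eq_iff] at h
  rcases h with ⟨h1, h2⟩ | ⟨h1, h2⟩
  · have e1 := v.injective h1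
    simp only [Sum.inr.injEq, Sum.inl.injEq] at e1
    subst e1
    have e2 := v.injective h2
    have e3 : phi z = phi z' := by
      unfold other at e2
      cases h3 : phi z <;> cases h4 : phi z' <;> simp_all
    rw [phi_inj e3]
  · exact absurd (v.injective h1).symm (other_ne _ _ _)

/-- the elements of the complete bipartite graph -/
def inD (x : IB k × Option (Fin (k + 1)) × Bool) : Prop := phi x.2 ≠ none


lemma Wf_edge (w : Edge α → ℝ) (e : Edge α) (x y : α) (h : e.1 = s(x, y)) :
    Wf w x y = w e := by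
  have hxy : x ≠ y := by
    have := e.2
    rw [h] at this
    simpa using this
  unfold Wf
  rw [dif_pos hxy]
  congr 1
  exact Subtype.ext h.symm

section S2

variable (v : IV k ↪ α)

/-- sign of a vertex -/
noncomputable def sgn (x : α) : ℝ := by
  classical
  exact if ∃ a, x = v (.inl a) then 1 else if ∃ j, x = v (.inr (.inl j)) then -1 else 0

lemma sgn_A (a : IA k) : sgn v (v (.inl a)) = 1 := by
  unfold sgn
  rw [if_pos ⟨a, rfl⟩]

lemma sgn_B (j : IB k) : sgn v (v (.inr (.inl j))) = -1 := by
  unfold sgn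
  rw [if_neg, if_pos ⟨j, rfl⟩]
  rintro ⟨a, ha⟩
  have := v.injective ha
  simp at this

/-- vertices of the bipartite graph -/
noncomputable def sAB : Finset α := by
  classical
  exact Finset.univ.image (fun x : IA k ⊕ IB k => v (x.elim .inl (fun j => .inr (.inl j))))

lemma mem_sAB (x : α) : x ∈ sAB v ↔ (∃ a, x = v (.inl a)) ∨ ∃ j, x = v (.inr (.inl j)) := by
  classical
  unfold sAB
  rw [Finset.mem_image]
  constructor
  · rintro ⟨a | j, -, rfl⟩
    · left; exact ⟨a, rfl⟩
    · right; exact ⟨j, rfl⟩
  · rintro (⟨a, rfl⟩ | ⟨j, rfl⟩)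
    · exact ⟨.inl a, Finset.mem_univ _, rfl⟩
    · exact ⟨.inr j, Finset.mem_univ _, rfl⟩

lemma card_sAB : (sAB v).card = 4 * k + 7 := by
  classical
  unfold sAB
  rw [Finset.card_image_of_injective, Finset.card_univ]
  · simp; ring
  · rintro (a | j) (a' | j') h <;>
    · have := v.injective h
      simpa using this

lemma sgn_zero (x : α) (hx : x ∉ sAB v) : sgn v x = 0 := by
  rw [mem_sAB] at hx
  push Not at hx
  unfold sgn
  rw [if_neg, if_neg]
  · push Not; exact hx.2
  · push Not; exact hx.1

/-- a stress vanishes at the vertices outside the bipartite graph -/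
lemma step1 (hk : 2 ≤ k) (p : α → Fin (2 * k + 1) → ℝ) (hGP : GP p) (w : Edge α → ℝ)
    (hw : IsStress (rigidityRow p) w) (g1 g2 : α)
    (hsupp : ∀ x y, Wf w x y ≠ 0 →
      (∃ j z, s(x, y) = s(v (.inr (.inl j)), v (other j z))) ∨ s(x, y) = s(g1, g2))
    (x : α) (hx : x ∉ sAB v) : ∀ y, Wf w x y = 0 := by
  classical
  rw [stress_iff] at hw
  apply star_zero p hGP x (Wf w x) (hw x) (Wf_self w x)
  have hsub : ∃ s0 : Fin 2, Finset.univ.filter (fun y => Wf w x y ≠ 0) ⊆
      insert (if x = g1 then g2 else g1)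
        (Finset.univ.image (fun t : Fin (k + 2) => v (.inr (.inl (s0, t))))) := by
    by_cases hex : ∃ s0 : Fin 2, x = v (.inr (.inr s0))
    · obtain ⟨s0, rfl⟩ := hex
      refine ⟨s0, ?_⟩
      intro y hy
      rw [Finset.mem_filter] at hy
      rw [Finset.mem_insert, Finset.mem_image]
      rcases hsupp _ y hy.2 with ⟨j, z, h⟩ | h
      · right
        rw [Sym2.eq_iff] at h
        rcases h with ⟨h1, h2⟩ | ⟨h1, h2⟩
        · have := v.injective h1
          simp at this
        · have h3 := v.injective h1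
          refine ⟨j.2, Finset.mem_univ _, ?_⟩
          have h4 : j.1 = s0 := by
            unfold other at h3
            cases h5 : phi z with
            | none => rw [h5] at h3; simpa using h3.symm
            | some a => rw [h5] at h3; simp at h3
          rw [h2, ← h4]
      · left
        rw [Sym2.eq_iff] at h
        rcases h with ⟨h1, h2⟩ | ⟨h1, h2⟩
        · rw [if_pos h1, h2]
        · split_ifs with h3
          · rw [h2, ← h3, h1]
          · exact h2
    · refine ⟨0, ?_⟩
      push Not at hex
      intro y hy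
      rw [Finset.mem_filter] at hy
      rw [Finset.mem_insert]
      left
      rcases hsupp _ y hy.2 with ⟨j, z, h⟩ | h
      · exfalso
        rw [Sym2.eq_iff] at h
        rcases h with ⟨h1, h2⟩ | ⟨h1, h2⟩
        · apply hx
          rw [mem_sAB]
          right; exact ⟨j, h1⟩
        · unfold other at h1
          cases h5 : phi z with
          | none => rw [h5] at h1; exact hex _ h1
          | some a =>
            rw [h5] at h1
            apply hx
            rw [mem_sAB]
            left; exact ⟨a, h1⟩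
      · rw [Sym2.eq_iff] at h
        rcases h with ⟨h1, h2⟩ | ⟨h1, h2⟩
        · rw [if_pos h1, h2]
        · split_ifs with h3
          · rw [h2, ← h3, h1]
          · exact h2
  obtain ⟨s0, hs0⟩ := hsub
  refine (Finset.card_le_card hs0).trans ((Finset.card_insert_le _ _).trans ?_)
  have : (Finset.univ.image (fun t : Fin (k + 2) => v (.inr (.inl (s0, t))))).card ≤ k + 2 := by
    refine Finset.card_image_le.trans ?_
    simp
  omega

/-- the Veronese step -/
lemma step2 (hk : 2 ≤ k) (p : α → Fin (2 * k + 1) → ℝ) (hGP : GP p) (hVI : VI p)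
    (w : Edge α → ℝ)
    (hw : IsStress (rigidityRow p) w) (g1 g2 : α) (hg : g1 ≠ g2)
    (hsupp : ∀ x y, Wf w x y ≠ 0 →
      (∃ j z, s(x, y) = s(v (.inr (.inl j)), v (other j z))) ∨ s(x, y) = s(g1, g2)) :
    (∀ x, ∀ o, ∑ y, Wf w x y * hp p y o = 0) ∧
    (∀ x y, Wf w x y ≠ 0 → (∃ a j, x = v (.inl a) ∧ y = v (.inr (.inl j))) ∨
      (∃ a j, y = v (.inl a) ∧ x = v (.inr (.inl j)))) := by
  classical
  have h1 := step1 v hk p hGP w hw g1 g2 hsupp
  have h1' : ∀ x y, y ∉ sAB v → Wf w x y = 0 := by
    intro x y hy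
    rw [Wf_symm]; exact h1 y hy x
  rw [stress_iff] at hw
  set L : α → ℝ := fun x => ∑ y, Wf w x y with hL
  have hE1 : ∀ x o, ∑ y, Wf w x y * hp p y o = L x * hp p x o := by
    intro x o
    have := hw x o
    simp_rw [mul_sub] at this
    rw [Finset.sum_sub_distrib, ← Finset.sum_mul] at this
    rw [hL]
    linarith
  set K : α → α → ℝ := fun x y => (sgn v x + sgn v y) * Wf w x y with hK
  have hE2 : ∀ o o', ∑ x, 2 * (sgn v x) * L x * (hp p x o * hp p x o') =
      ∑ x, ∑ y, K x y * (hp p x o * hp p y o') := by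
    intro o o'
    have a1 : ∑ x, ∑ y, sgn v x * Wf w x y * (hp p x o * hp p y o') =
        ∑ x, (sgn v x) * L x * (hp p x o * hp p x o') := by
      apply Finset.sum_congr rfl
      intro x _
      have : ∀ y, sgn v x * Wf w x y * (hp p x o * hp p y o') =
          (sgn v x * hp p x o) * (Wf w x y * hp p y o') := by intro y; ring
      simp_rw [this]
      rw [← Finset.mul_sum, hE1]
      ring
    have a2 : ∑ x, ∑ y, sgn v y * Wf w x y * (hp p x o * hp p y o') =
        ∑ x, (sgn v x) * L x * (hp p x o * hp p x o') := by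
      rw [Finset.sum_comm]
      apply Finset.sum_congr rfl
      intro y _
      have : ∀ x, sgn v y * Wf w x y * (hp p x o * hp p y o') =
          (sgn v y * hp p y o') * (Wf w y x * hp p x o) := by
        intro x; rw [Wf_symm w x y]; ring
      simp_rw [this]
      rw [← Finset.mul_sum, hE1]
      ring
    have a3 : ∑ x, 2 * (sgn v x) * L x * (hp p x o * hp p x o') =
        ∑ x, (sgn v x) * L x * (hp p x o * hp p x o') +
        ∑ x, (sgn v x) * L x * (hp p x o * hp p x o') := by
      rw [← Finset.sum_add_distrib]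
      apply Finset.sum_congr rfl
      intro x _; ring
    rw [a3]
    nth_rw 1 [← a1]
    rw [← a2, ← Finset.sum_add_distrib]
    apply Finset.sum_congr rfl
    intro x _
    rw [← Finset.sum_add_distrib]
    apply Finset.sum_congr rfl
    intro y _
    rw [hK]; ring
  have hE3 : ∀ x y, K x y ≠ 0 → s(x, y) = s(g1, g2) := by
    intro x y hxy
    have hW : Wf w x y ≠ 0 := fun h => hxy (by rw [hK]; simp [h])
    rcases hsupp x y hW with ⟨j, z, h⟩ | h
    · exfalso
      cases h5 : phi z with
      | none =>
        have e1 : other j z = .inr (.inr j.1) := by unfold other; rw [h5]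
        have e2 : v (.inr (.inr j.1)) ∉ sAB v := by
          rw [mem_sAB]
          rintro (⟨a, ha⟩ | ⟨j', hj'⟩)
          · have := v.injective ha
            simp at this
          · have := v.injective hj'
            simp at this
        rw [Sym2.eq_iff] at h
        rcases h with ⟨-, h2⟩ | ⟨h2, -⟩
        · rw [e1] at h2
          apply hW; rw [h2]; exact h1' _ _ e2
        · rw [e1] at h2
          apply hW; rw [h2]; exact h1 _ e2 _
      | some a =>
        have e1 : other j z = .inl a := by unfold other; rw [h5]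
        rw [e1, Sym2.eq_iff] at h
        apply hxy
        rw [hK]
        rcases h with ⟨h2, h3⟩ | ⟨h2, h3⟩
        · simp only [h2, h3, sgn_A, sgn_B]; ring
        · simp only [h2, h3, sgn_A, sgn_B]; ring
    · exact h
  have hKsymm : ∀ x y, K x y = K y x := by
    intro x y; simp only [hK]; rw [Wf_symm w x y]; ring
  have hE4 : ∀ o o', ∑ x, ∑ y, K x y * (hp p x o * hp p y o') =
      K g1 g2 * (hp p g1 o * hp p g2 o' + hp p g2 o * hp p g1 o') := by
    intro o o'
    rw [← Fintype.sum_prod_type' (f := fun x y => K x y * (hp p x o * hp p y o'))]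
    rw [← Finset.sum_subset (Finset.subset_univ {(g1, g2), (g2, g1)})]
    · rw [Finset.sum_pair]
      · simp only
        rw [hKsymm g2 g1]; ring
      · intro h
        exact hg (congrArg Prod.fst h)
    · rintro ⟨x, y⟩ _ hxy
      have : K x y = 0 := by
        by_contra hne
        apply hxy
        have := hE3 x y hne
        rw [Sym2.eq_iff] at this
        rcases this with ⟨rfl, rfl⟩ | ⟨rfl, rfl⟩ <;> simp
      simp [this]
  have hE5 : ∀ o o', ∑ x ∈ sAB v, 2 * (sgn v x) * L x * (hp p x o * hp p x o') =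
      ∑ x, 2 * (sgn v x) * L x * (hp p x o * hp p x o') := by
    intro o o'
    apply Finset.sum_subset (Finset.subset_univ _)
    intro x _ hx
    rw [sgn_zero v x hx]; ring
  have hcard : (sAB v).card ≤ 2 * (2 * k + 1) + 5 := by rw [card_sAB]; omega
  have hmain : (∀ x ∈ sAB v, 2 * (sgn v x) * L x = 0) ∧ K g1 g2 = 0 := by
    by_cases hgin : g1 ∈ sAB v ∧ g2 ∈ sAB v
    · have := hVI (sAB v) hcard g1 hgin.1 g2 hgin.2 hg
        (fun x => 2 * (sgn v x) * L x) (- K g1 g2) (by
          intro o o'
          rw [hE5, hE2, hE4]; ring)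
      exact ⟨this.1, by simpa using this.2⟩
    · have hK0 : K g1 g2 = 0 := by
        rw [not_and_or] at hgin
        rcases hgin with h | h
        · simp only [hK]; rw [h1 _ h]; ring
        · simp only [hK]; rw [h1' _ _ h]; ring
      have hu : v (.inl none) ∈ sAB v := by rw [mem_sAB]; left; exact ⟨_, rfl⟩
      have hv : v (.inr (.inl (0, 0))) ∈ sAB v := by rw [mem_sAB]; right; exact ⟨_, rfl⟩
      have huv : v (.inl none) ≠ v (.inr (.inl (0, 0))) := by
        intro h
        have := v.injective h
        simp at this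
      have := hVI (sAB v) hcard _ hu _ hv huv
        (fun x => 2 * (sgn v x) * L x) 0 (by
          intro o o'
          rw [hE5, hE2, hE4, hK0]; ring)
      exact ⟨this.1, hK0⟩
  have hL0 : ∀ x, L x = 0 := by
    intro x
    by_cases hx : x ∈ sAB v
    · have h2 := hmain.1 x hx
      have h3 : sgn v x ≠ 0 := by
        rw [mem_sAB] at hx
        rcases hx with ⟨a, rfl⟩ | ⟨j, rfl⟩
        · rw [sgn_A]; norm_num
        · rw [sgn_B]; norm_num
      rcases mul_eq_zero.1 h2 with h4 | h4
      · rcases mul_eq_zero.1 h4 with h5 | h5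
        · norm_num at h5
        · exact absurd h5 h3
      · exact h4
    · rw [hL]
      exact Finset.sum_eq_zero (fun y _ => h1 x hx y)
  refine ⟨fun x o => by rw [hE1, hL0, zero_mul], ?_⟩
  intro x y hxy
  have hx : x ∈ sAB v := by
    by_contra h; exact hxy (h1 x h y)
  have hy : y ∈ sAB v := by
    by_contra h; exact hxy (h1' x y h)
  have hK0 : K x y = 0 := by
    by_contra hne
    have := hE3 x y hne
    rw [Sym2.eq_iff] at this
    rcases this with ⟨rfl, rfl⟩ | ⟨rfl, rfl⟩
    · exact hne hmain.2
    · apply hne; rw [hKsymm]; exact hmain.2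
  have hs : sgn v x + sgn v y = 0 := by
    rcases mul_eq_zero.1 hK0 with h | h
    · exact h
    · exact absurd h hxy
  rw [mem_sAB] at hx hy
  rcases hx with ⟨a, rfl⟩ | ⟨j, rfl⟩ <;> rcases hy with ⟨a', rfl⟩ | ⟨j', rfl⟩
  · rw [sgn_A, sgn_A] at hs; norm_num at hs
  · left; exact ⟨a, j', rfl, rfl⟩
  · right; exact ⟨a', j, rfl, rfl⟩
  · rw [sgn_B, sgn_B] at hs; norm_num at hs

end S2

end Config

section Fin

variable {α : Type*} [Fintype α] [DecidableEq α] {k : ℕ} (v : IV k ↪ α)

/-- vanishing at two different stars implies vanishing -/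
lemma two_stars (p : α → Fin (2 * k + 1) → ℝ) (hGP : GP p) (w : Edge α → ℝ)
    (hrow : ∀ x, ∀ o, ∑ y, Wf w x y * hp p y o = 0)
    (hpos : ∀ x y, Wf w x y ≠ 0 → (∃ a j, x = v (.inl a) ∧ y = v (.inr (.inl j))) ∨
      (∃ a j, y = v (.inl a) ∧ x = v (.inr (.inl j))))
    (j1 j2 : IB k) (a1 a2 : IA k) (hj : j1 ≠ j2)
    (h1 : Wf w (v (.inr (.inl j1))) (v (.inl a1)) = 0)
    (h2 : Wf w (v (.inr (.inl j2))) (v (.inl a2)) = 0) : ∀ x y, Wf w x y = 0 := by
  classical
  have col : ∀ (j : IB k) (a0 : IA k), Wf w (v (.inr (.inl j))) (v (.inl a0)) = 0 →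
      ∀ y, Wf w (v (.inr (.inl j))) y = 0 := by
    intro j a0 h0 y
    by_contra hy
    rcases hpos _ _ hy with ⟨a, j', e1, e2⟩ | ⟨a, j', e1, e2⟩
    · have := v.injective e1
      simp at this
    · subst e1
      have ha : a ≠ a0 := by rintro rfl; exact hy h0
      have := hGP ((Finset.univ.erase a0).image (fun a => v (.inl a))) ?_
        (fun x => Wf w (v (.inr (.inl j))) x) ?_ (v (.inl a)) ?_
      · exact hy this
      · refine Finset.card_image_le.trans ?_
        rw [Finset.card_erase_of_mem (Finset.mem_univ _), Finset.card_univ]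
        simp; omega
      · intro o
        rw [← hrow (v (.inr (.inl j))) o]
        apply Finset.sum_subset (Finset.subset_univ _)
        intro x _ hx
        have : Wf w (v (.inr (.inl j))) x = 0 := by
          by_contra hne
          apply hx
          rcases hpos _ _ hne with ⟨a', j', e1, e3⟩ | ⟨a', j', e1, e3⟩
          · have := v.injective e1
            simp at this
          · rw [Finset.mem_image]
            refine ⟨a', ?_, e1.symm⟩
            rw [Finset.mem_erase]
            refine ⟨?_, Finset.mem_univ _⟩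
            rintro rfl
            rw [e1] at hne
            exact hne h0
        rw [this, zero_mul]
      · rw [Finset.mem_image]
        exact ⟨a, Finset.mem_erase.2 ⟨ha, Finset.mem_univ _⟩, rfl⟩
  have c1 := col j1 a1 h1
  have c2 := col j2 a2 h2
  have row : ∀ (a : IA k) (y : α), Wf w (v (.inl a)) y = 0 := by
    intro a y
    by_contra hy
    rcases hpos _ _ hy with ⟨a', j, e1, e2⟩ | ⟨a', j', e1, e2⟩
    · subst e2
      have hj1 : j ≠ j1 := by
        rintro rfl
        apply hy; rw [Wf_symm]; exact c1 _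
      have hj2 : j ≠ j2 := by
        rintro rfl
        apply hy; rw [Wf_symm]; exact c2 _
      have := hGP (((Finset.univ.erase j1).erase j2).image (fun j => v (.inr (.inl j)))) ?_
        (fun x => Wf w (v (.inl a)) x) ?_ (v (.inr (.inl j))) ?_
      · exact hy this
      · refine Finset.card_image_le.trans ?_
        rw [Finset.card_erase_of_mem (Finset.mem_erase.2 ⟨hj.symm, Finset.mem_univ _⟩),
          Finset.card_erase_of_mem (Finset.mem_univ _), Finset.card_univ]
        simp; omega
      · intro o
        rw [← hrow (v (.inl a)) o]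
        apply Finset.sum_subset (Finset.subset_univ _)
        intro x _ hx
        have : Wf w (v (.inl a)) x = 0 := by
          by_contra hne
          apply hx
          rcases hpos _ _ hne with ⟨a'', j', e1, e3⟩ | ⟨a'', j', e1, e3⟩
          · rw [Finset.mem_image]
            refine ⟨j', ?_, e3.symm⟩
            rw [Finset.mem_erase, Finset.mem_erase]
            refine ⟨?_, ?_, Finset.mem_univ _⟩
            · rintro rfl
              apply hne; rw [e3, Wf_symm]; exact c2 _
            · rintro rfl
              apply hne; rw [e3, Wf_symm]; exact c1 _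
          · have := v.injective e3
            simp at this
        rw [this, zero_mul]
      · rw [Finset.mem_image]
        exact ⟨j, Finset.mem_erase.2 ⟨hj2, Finset.mem_erase.2 ⟨hj1, Finset.mem_univ _⟩⟩, rfl⟩
    · have := v.injective e2
      simp at this
  intro x y
  by_contra hxy
  rcases hpos _ _ hxy with ⟨a, j, rfl, rfl⟩ | ⟨a, j, rfl, rfl⟩
  · exact hxy (row _ _)
  · apply hxy; rw [Wf_symm]; exact row _ _

lemma other_some (j : IB k) (z : Option (Fin (k + 1)) × Bool) (a : IA k) (h : phi z = some a) :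
    other j z = .inl a := by unfold other; rw [h]

lemma s2_holds (hk : 2 ≤ k) (p : α → Fin (2 * k + 1) → ℝ) (hGP : GP p) (hVI : VI p) (g : Edge α)
    (w : Edge α → ℝ) (hw : IsStress (rigidityRow p) w)
    (hs : ∀ e, e ∉ Set.range (el v) → e ≠ g → w e = 0) :
    (∀ e, w e ≠ 0 → ∃ x, inD x ∧ el v x = e) ∧
    (∀ x y, inD x → inD y → x.1 ≠ y.1 → w (el v x) = 0 → w (el v y) = 0 → w = 0) := by
  classical
  obtain ⟨g1, g2, hg12⟩ : ∃ g1 g2, g.1 = s(g1, g2) := by
    rcases g with ⟨g, hg⟩
    induction g with
    | _ x y => exact ⟨x, y, rfl⟩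
  have hgne : g1 ≠ g2 := by
    have := g.2
    rw [hg12] at this
    simpa using this
  have hsupp : ∀ x y, Wf w x y ≠ 0 →
      (∃ j z, s(x, y) = s(v (.inr (.inl j)), v (other j z))) ∨ s(x, y) = s(g1, g2) := by
    intro x y hxy
    have hne : x ≠ y := by
      rintro rfl
      exact hxy (Wf_self w x)
    let e : Edge α := ⟨s(x, y), by simpa using hne⟩
    have he : w e ≠ 0 := by rw [← Wf_edge w e x y rfl]; exact hxy
    by_cases h1 : e ∈ Set.range (el v)
    · left
      obtain ⟨⟨j, z⟩, hx⟩ := h1
      exact ⟨j, z, (congrArg Subtype.val hx).symm⟩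
    · right
      have : e = g := by
        by_contra hc
        exact he (hs e h1 hc)
      rw [← hg12, ← this]
  obtain ⟨hrow, hpos⟩ := step2 v hk p hGP hVI w hw g1 g2 hgne hsupp
  constructor
  · intro e he
    obtain ⟨x, y, hxy⟩ : ∃ x y, e.1 = s(x, y) := by
      rcases e with ⟨e, he'⟩
      induction e with
      | _ x y => exact ⟨x, y, rfl⟩
    rw [← Wf_edge w e x y hxy] at he
    rcases hpos x y he with ⟨a, j, rfl, rfl⟩ | ⟨a, j, rfl, rfl⟩
    · obtain ⟨z, hz⟩ := phi_surj a
      refine ⟨(j, z), ?_, ?_⟩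
      · unfold inD; simp [hz]
      · apply Subtype.ext
        rw [hxy]
        simp only [el, other_some j z a hz]
        exact Sym2.eq_swap
    · obtain ⟨z, hz⟩ := phi_surj a
      refine ⟨(j, z), ?_, ?_⟩
      · unfold inD; simp [hz]
      · apply Subtype.ext
        rw [hxy]
        simp only [el, other_some j z a hz]
  · rintro ⟨j1, z1⟩ ⟨j2, z2⟩ hx hy hj h1 h2
    obtain ⟨a1, ha1⟩ := Option.ne_none_iff_exists'.1 hx
    obtain ⟨a2, ha2⟩ := Option.ne_none_iff_exists'.1 hy
    have hall := two_stars v p hGP w hrow hpos j1 j2 a1 a2 hj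
      (by rw [Wf_edge w (el v (j1, z1)) _ _ (by simp only [el, other_some j1 z1 a1 ha1])]; exact h1)
      (by rw [Wf_edge w (el v (j2, z2)) _ _ (by simp only [el, other_some j2 z2 a2 ha2])]; exact h2)
    ext e
    obtain ⟨x, y, hxy⟩ : ∃ x y, e.1 = s(x, y) := by
      rcases e with ⟨e, he'⟩
      induction e with
      | _ x y => exact ⟨x, y, rfl⟩
    rw [← Wf_edge w e x y hxy]
    exact hall x y

lemma s1_holds (p : α → Fin (2 * k + 1) → ℝ) (hGP : GP p) (j0 : IB k) :
    ∃ w : Edge α → ℝ, IsStress (rigidityRow p) w ∧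
      (∀ x, inD x → x.1 ≠ j0 → w (el v x) ≠ 0) ∧
      ∀ e, w e ≠ 0 → ∃ x, inD x ∧ x.1 ≠ j0 ∧ el v x = e := by
  classical
  obtain ⟨a, ha, ha1, ha2⟩ := aff_dep p hGP (Finset.univ.image (fun i : IA k => v (.inl i)))
    (by
      rw [Finset.card_image_of_injective, Finset.card_univ]
      · simp; ring
      · intro i i' h
        simpa using v.injective h)
  obtain ⟨b, hb, hb1, hb2⟩ := aff_dep p hGP
    ((Finset.univ.erase j0).image (fun j : IB k => v (.inr (.inl j))))
    (by
      rw [Finset.card_image_of_injective, Finset.card_erase_of_mem (Finset.mem_univ _),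
        Finset.card_univ]
      · simp; omega
      · intro i i' h
        simpa using v.injective h)
  have hA : ∀ i : IA k, b (v (.inl i)) = 0 := by
    intro i
    apply hb2
    rw [Finset.mem_image]
    rintro ⟨j, -, h⟩
    have := v.injective h
    simp at this
  have hB : ∀ j : IB k, a (v (.inr (.inl j))) = 0 := by
    intro j
    apply ha2
    rw [Finset.mem_image]
    rintro ⟨i, -, h⟩
    have := v.injective h
    simp at this
  have hab : ∀ x, a x * b x = 0 := by
    intro x
    by_cases hx : x ∈ Finset.univ.image (fun i : IA k => v (.inl i))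
    · rw [Finset.mem_image] at hx
      obtain ⟨i, -, rfl⟩ := hx
      rw [hA, mul_zero]
    · rw [ha2 x hx, zero_mul]
  let w : Edge α → ℝ := fun e => Sym2.lift ⟨fun x y => a x * b y + a y * b x, by
    intro x y; ring⟩ e.1
  have hW : ∀ x y, Wf w x y = a x * b y + a y * b x := by
    intro x y
    unfold Wf
    split_ifs with h
    · simp [w]
    · have : x = y := not_not.1 h
      subst this
      rw [hab]; ring
  refine ⟨w, ?_, ?_, ?_⟩
  · rw [stress_iff]
    intro x o
    have hsa : ∑ y, a y = 0 := by
      have := ha none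
      simpa [hp] using this
    have hsb : ∑ y, b y = 0 := by
      have := hb none
      simpa [hp] using this
    have : ∀ y, Wf w x y * (hp p x o - hp p y o) =
        (a x * hp p x o) * b y + (b x * hp p x o) * a y - a x * (b y * hp p y o) -
          b x * (a y * hp p y o) := by
      intro y; rw [hW]; ring
    simp_rw [this]
    rw [Finset.sum_sub_distrib, Finset.sum_sub_distrib, Finset.sum_add_distrib,
      ← Finset.mul_sum, ← Finset.mul_sum, ← Finset.mul_sum, ← Finset.mul_sum, hsa, hsb, ha, hb]
    ring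
  · rintro ⟨j, z⟩ hx hj
    obtain ⟨i, hi⟩ := Option.ne_none_iff_exists'.1 hx
    rw [← Wf_edge w (el v (j, z)) (v (.inr (.inl j))) (v (.inl i))
      (by simp only [el, other_some j z i hi]), hW, hB, zero_mul, zero_add]
    apply mul_ne_zero
    · apply ha1
      rw [Finset.mem_image]
      exact ⟨i, Finset.mem_univ _, rfl⟩
    · apply hb1
      rw [Finset.mem_image]
      exact ⟨j, Finset.mem_erase.2 ⟨hj, Finset.mem_univ _⟩, rfl⟩
  · intro e he
    obtain ⟨x, y, hxy⟩ : ∃ x y, e.1 = s(x, y) := by
      rcases e with ⟨e, he'⟩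
      induction e with
      | _ x y => exact ⟨x, y, rfl⟩
    rw [← Wf_edge w e x y hxy, hW] at he
    have key : ∀ x y, e.1 = s(x, y) → a x * b y ≠ 0 → ∃ x, inD x ∧ x.1 ≠ j0 ∧ el v x = e := by
      intro x y hxy h
      have hxm : x ∈ Finset.univ.image (fun i : IA k => v (.inl i)) := by
        by_contra hc; exact h (by rw [ha2 x hc, zero_mul])
      have hym : y ∈ (Finset.univ.erase j0).image (fun j : IB k => v (.inr (.inl j))) := by
        by_contra hc; exact h (by rw [hb2 y hc, mul_zero])
      rw [Finset.mem_image] at hxm hym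
      obtain ⟨i, -, rfl⟩ := hxm
      obtain ⟨j, hj, rfl⟩ := hym
      obtain ⟨z, hz⟩ := phi_surj i
      refine ⟨(j, z), ?_, (Finset.mem_erase.1 hj).1, ?_⟩
      · unfold inD; simp [hz]
      · apply Subtype.ext
        rw [hxy]
        simp only [el, other_some j z i hz]
        exact Sym2.eq_swap
    by_cases h1 : a x * b y = 0
    · rw [h1, zero_add] at he
      exact key y x (by rw [hxy]; exact Sym2.eq_swap) he
    · exact key x y hxy h1

include v in
theorem not_matching (hk : 2 ≤ k) (p : α → Fin (2 * k + 1) → ℝ)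
    (hgen : AlgebraicIndependent ℚ (fun x : α × Fin (2 * k + 1) => p x.1 x.2)) :
    ¬ HasMatchingProperty (rk (rigidityRow p)) := by
  have hGP := gp_of_generic p hgen
  have hVI := vi_of_generic (by omega) p hgen
  refine stress_main (rigidityRow p) (el v) (el_inj v) inD (s1_holds v p hGP)
    (s2_holds v hk p hGP hVI) ⟨some 0, ?_⟩ ?_
  · intro j b
    unfold inD
    simp [phi]
  · simp; omega

end Fin


/-- generic placements exist -/
theorem exists_generic (ι : Type) [Fintype ι] : ∃ q : ι → ℝ, AlgebraicIndependent ℚ q := by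
  classical
  obtain ⟨s, hs⟩ := exists_isTranscendenceBasis ℚ ℝ
  have hinf : Infinite s := by
    by_contra hfin
    rw [not_infinite_iff_finite] at hfin
    have halg := hs.isAlgebraic
    have h1 : Cardinal.mk ℝ ≤
        max (Cardinal.mk (Algebra.adjoin ℚ (Set.range (Subtype.val : s → ℝ)))) Cardinal.aleph0 :=
      Algebra.IsAlgebraic.cardinalMk_le_max _ _
    have h2 : Cardinal.mk (Algebra.adjoin ℚ (Set.range (Subtype.val : s → ℝ))) ≤
        Cardinal.aleph0 := by
      have := Algebra.lift_cardinalMk_adjoin_le ℚ (Set.range (Subtype.val : s → ℝ))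
      simp only [Cardinal.lift_id] at this
      refine this.trans ?_
      simp
    rw [Cardinal.mk_real] at h1
    exact absurd (h1.trans (max_le h2 le_rfl)) (not_le.2 Cardinal.aleph0_lt_continuum)
  let f : ι ↪ s := ((Fintype.equivFin ι).toEmbedding.trans Fin.valEmbedding).trans
    (Infinite.natEmbedding s)
  exact ⟨fun i => (f i).1, hs.1.comp f f.injective⟩

end Pool.Agent.H98.MatroidMatching
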